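import Pool.Agent.H50.BF.Stm

/-! # Basic facts on the Mertens product (helper56) -/

set_option autoImplicit false

open MeasureTheory Filter
open scoped Topology ENNReal

namespace Pool.Agent.H50.BF

lemma one_sub_inv_pos {p : ℕ} (hp : p.Prime) : 0 < 1 - (p : ℝ)⁻¹ := by
  have hp2 : (2 : ℝ) ≤ p := by exact_mod_cast hp.two_le
  have : (p : ℝ)⁻¹ ≤ 2⁻¹ := inv_anti₀ (by norm_num) hp2
  linarith

lemma MM_pos (N : ℕ) : 0 < MM N := by
  unfold MM
  apply Finset.prod_pos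
  intro p hp
  exact inv_pos.mpr (one_sub_inv_pos (Finset.mem_filter.mp hp).2)

lemma Icc_filter_succ_prime {v : ℕ} (hv : (v + 1).Prime) :
    (Finset.Icc 1 (v + 1)).filter Nat.Prime =
      insert (v + 1) ((Finset.Icc 1 v).filter Nat.Prime) := by
  ext q
  simp only [Finset.mem_filter, Finset.mem_Icc, Finset.mem_insert]
  constructor
  · rintro ⟨⟨h1, h2⟩, h3⟩
    by_cases h : q = v + 1
    · exact Or.inl h
    · exact Or.inr ⟨⟨h1, by omega⟩, h3⟩
  · rintro (rfl | ⟨⟨h1, h2⟩, h3⟩)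
    · exact ⟨⟨by omega, le_rfl⟩, hv⟩
    · exact ⟨⟨h1, by omega⟩, h3⟩

lemma Icc_filter_succ_not {v : ℕ} (hv : ¬ (v + 1).Prime) :
    (Finset.Icc 1 (v + 1)).filter Nat.Prime = (Finset.Icc 1 v).filter Nat.Prime := by
  ext q
  simp only [Finset.mem_filter, Finset.mem_Icc]
  constructor
  · rintro ⟨⟨h1, h2⟩, h3⟩
    refine ⟨⟨h1, ?_⟩, h3⟩
    by_contra h
    obtain rfl : q = v + 1 := by omega
    exact hv h3
  · rintro ⟨⟨h1, h2⟩, h3⟩
    exact ⟨⟨h1, by omega⟩, h3⟩

/-- `MM (p) (1 - 1/p) = MM (p - 1)` -/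
lemma MM_succ_prime {v : ℕ} (hv : (v + 1).Prime) :
    MM (v + 1) * (1 - ((v + 1 : ℕ) : ℝ)⁻¹) = MM v := by
  have h0 := one_sub_inv_pos hv
  unfold MM
  rw [Icc_filter_succ_prime hv, Finset.prod_insert (by simp), mul_comm, ← mul_assoc,
    mul_inv_cancel₀ h0.ne', one_mul]

lemma MM_succ_not {v : ℕ} (hv : ¬ (v + 1).Prime) : MM (v + 1) = MM v := by
  unfold MM
  rw [Icc_filter_succ_not hv]

lemma MM_le_succ (v : ℕ) : MM v ≤ MM (v + 1) := by
  by_cases hv : (v + 1).Prime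
  · rw [← MM_succ_prime hv]
    apply mul_le_of_le_one_right (MM_pos _).le
    have : (0 : ℝ) ≤ ((v + 1 : ℕ) : ℝ)⁻¹ := by positivity
    linarith
  · exact (MM_succ_not hv).ge

lemma MM_mono : Monotone MM := monotone_nat_of_le_succ MM_le_succ

lemma MM_zero : MM 0 = 1 := by
  unfold MM
  simp

lemma one_le_MM (N : ℕ) : 1 ≤ MM N := by
  rw [← MM_zero]
  exact MM_mono (Nat.zero_le N)

lemma DD_nonneg (w z U : ℕ) : 0 ≤ DD w z U := by
  unfold DD
  apply Finset.sum_nonneg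
  intro p _
  have := MM_pos p
  have := MM_pos z
  positivity

lemma sv_le (a : ℕ → ℕ) (w n U : ℕ) : sv a w n U ≤ U := by
  classical
  unfold sv
  exact (Finset.card_filter_le _ _).trans (by rw [Finset.card_range])

/-- `sv` depends only on the residues -/
lemma sv_congr {a b : ℕ → ℕ} {w : ℕ} (h : ∀ q : ℕ, q.Prime → q ≤ w → a q % q = b q % q) (n U : ℕ) :
    sv a w n U = sv b w n U := by
  classical
  unfold sv
  congr 1
  apply Finset.filter_congr
  intro k _
  constructor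
  · intro h1 q hq hqw
    rw [← h q hq hqw]
    exact h1 q hq hqw
  · intro h1 q hq hqw
    rw [h q hq hqw]
    exact h1 q hq hqw

lemma model_prob {Ω : Type} [MeasurableSpace Ω] {P : Measure Ω} {a : ℕ → Ω → ℕ} (H : Model P a) :
    IsProbabilityMeasure P := by
  constructor
  have h := H.law 0 (fun _ => 0) fun p hp => hp.pos
  have h1 : {ω | ∀ p : ℕ, p.Prime → p ≤ 0 → a p ω % p = (fun _ => 0) p} = Set.univ := by
    ext ω
    simp only [Set.mem_univ, iff_true]
    intro p hp hp0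
    have := hp.pos
    omega
  rw [h1] at h
  rw [h]
  simp

end Pool.Agent.H50.BF
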