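import Pool.Agent.H50.BF.BT

set_option autoImplicit false

namespace Pool.Agent.H50.BF

open Finset Filter
open scoped Topology

namespace BTaux

lemma mert_two (h : S_MERT) : ∀ᶠ N : ℕ in atTop,
    Real.exp Real.eulerMascheroniConstant / 2 * Real.log N ≤ MM N ∧
      MM N ≤ 2 * Real.exp Real.eulerMascheroniConstant * Real.log N := by
  have hL : 0 < Real.exp Real.eulerMascheroniConstant := Real.exp_pos _
  set L := Real.exp Real.eulerMascheroniConstant with hLd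
  have h' : Tendsto (fun N : ℕ => MM N / Real.log N) atTop (𝓝 L) := h
  filter_upwards [h'.eventually_const_le (u := L / 2) (by linarith),
    h'.eventually_le_const (u := 2 * L) (by linarith), eventually_ge_atTop 2] with N h1 h2 h3
  have hlog : 0 < Real.log N := Real.log_pos (by exact_mod_cast h3)
  rw [le_div_iff₀ hlog] at h1
  rw [div_le_iff₀ hlog] at h2
  exact ⟨h1, h2⟩

/-- `⌊w^κ⌋` is large -/
lemma floor_rpow_ge {κ : ℝ} (hκ : 0 < κ) : ∀ᶠ w : ℕ in atTop,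
    (w : ℝ) ^ (κ / 2) ≤ (⌊(w : ℝ) ^ κ⌋₊ : ℝ) := by
  have h1 : Tendsto (fun w : ℕ => (w : ℝ) ^ (κ / 2)) atTop atTop :=
    (tendsto_rpow_atTop (by linarith)).comp tendsto_natCast_atTop_atTop
  filter_upwards [h1.eventually_ge_atTop 2] with w hw
  have h2 : (w : ℝ) ^ κ = (w : ℝ) ^ (κ / 2) * (w : ℝ) ^ (κ / 2) := by
    rcases Nat.eq_zero_or_pos w with h0 | h0
    · subst h0
      rw [Nat.cast_zero, Real.zero_rpow (by linarith)] at hw
      linarith
    · rw [← Real.rpow_add (by exact_mod_cast h0)]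
      congr 1
      ring
  have h3 := Nat.lt_floor_add_one ((w : ℝ) ^ κ)
  nlinarith

lemma tendsto_floor_rpow {κ : ℝ} (hκ : 0 < κ) :
    Tendsto (fun w : ℕ => ⌊(w : ℝ) ^ κ⌋₊) atTop atTop :=
  tendsto_nat_floor_atTop.comp ((tendsto_rpow_atTop hκ).comp tendsto_natCast_atTop_atTop)

lemma mert_ratio (h : S_MERT) {κ : ℝ} (hκ : 0 < κ) : ∀ᶠ w : ℕ in atTop,
    MM (w ^ 2) ≤ 16 / κ * MM ⌊(w : ℝ) ^ κ⌋₊ := by
  have hL : 0 < Real.exp Real.eulerMascheroniConstant := Real.exp_pos _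
  have h2 : Tendsto (fun w : ℕ => w ^ 2) atTop atTop := tendsto_pow_atTop (by norm_num)
  filter_upwards [h2.eventually (mert_two h), (tendsto_floor_rpow hκ).eventually (mert_two h),
    floor_rpow_ge hκ, eventually_ge_atTop 2] with w h1 h2 h3 h4
  have hw : (2 : ℝ) ≤ w := by exact_mod_cast h4
  have hlog : 0 < Real.log w := Real.log_pos (by linarith)
  have h5 : κ / 2 * Real.log w ≤ Real.log (⌊(w : ℝ) ^ κ⌋₊ : ℝ) := by
    rw [← Real.log_rpow (by linarith)]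
    exact Real.log_le_log (Real.rpow_pos_of_pos (by linarith) _) h3
  have h6 := h1.2
  rw [Nat.cast_pow, Real.log_pow] at h6
  have h7 := h2.1
  set L := Real.exp Real.eulerMascheroniConstant with hLd
  have h8 : L / 2 * (κ / 2 * Real.log w) ≤ MM ⌊(w : ℝ) ^ κ⌋₊ :=
    (mul_le_mul_of_nonneg_left h5 (by linarith)).trans h7
  calc MM (w ^ 2) ≤ 2 * L * ((2 : ℕ) * Real.log w) := h6
    _ = 16 / κ * (L / 2 * (κ / 2 * Real.log w)) := by
      field_simp
      norm_num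
    _ ≤ 16 / κ * MM ⌊(w : ℝ) ^ κ⌋₊ := mul_le_mul_of_nonneg_left h8 (by positivity)

/-- `(⌊w^κ⌋ + 1)^s0 ≤ 2^s0 w^ρ` -/
lemma pow_le {κ ρ : ℝ} {s0 : ℕ} (hκ : 0 < κ) (hρ : κ * s0 ≤ ρ) {w : ℕ} (hw : 1 ≤ w) :
    ((⌊(w : ℝ) ^ κ⌋₊ : ℝ) + 1) ^ s0 ≤ 2 ^ s0 * (w : ℝ) ^ ρ := by
  have hw1 : (1 : ℝ) ≤ w := by exact_mod_cast hw
  have h1 : 1 ≤ (w : ℝ) ^ κ := Real.one_le_rpow hw1 hκ.le
  have h2 : (⌊(w : ℝ) ^ κ⌋₊ : ℝ) ≤ (w : ℝ) ^ κ := Nat.floor_le (by linarith)
  calc ((⌊(w : ℝ) ^ κ⌋₊ : ℝ) + 1) ^ s0 ≤ (2 * (w : ℝ) ^ κ) ^ s0 :=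
        pow_le_pow_left₀ (by positivity) (by linarith) _
    _ = 2 ^ s0 * (w : ℝ) ^ (κ * s0) := by
      rw [mul_pow, Real.rpow_mul (by linarith), Real.rpow_natCast]
    _ ≤ 2 ^ s0 * (w : ℝ) ^ ρ :=
      mul_le_mul_of_nonneg_left (Real.rpow_le_rpow_of_exponent_le hw1 hρ) (by positivity)

end BTaux

open BTaux

theorem sub : S_BT → S_MERT → S_SUB := by
  intro ⟨C0, s0, hC0, hs0, hbt⟩ hmert
  have hs0' : (1 : ℝ) ≤ s0 := by exact_mod_cast hs0
  set κ : ℝ := 1 / (2 * s0) with hκd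
  have hκ : 0 < κ := by positivity
  have hκ2 : κ ≤ 1 / 2 := by
    rw [hκd]
    exact one_div_le_one_div_of_le (by norm_num) (by linarith)
  have hκs : κ * s0 ≤ 1 / 2 := by
    rw [hκd]
    field_simp
    exact le_rfl
  refine ⟨2 * C0 * (16 / κ), by positivity, fun δ hδ hδ1 => ?_⟩
  have ht : Tendsto (fun w : ℕ => Real.sqrt w) atTop atTop :=
    Real.tendsto_sqrt_atTop.comp tendsto_natCast_atTop_atTop
  filter_upwards [mert_ratio hmert hκ, ht.eventually_ge_atTop (2 ^ (s0 + 1) / δ),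
    eventually_ge_atTop 1] with w h1 h2 h3 a v n U U' hv1 hv2 hU hUU hU'
  set y := ⌊(w : ℝ) ^ κ⌋₊ with hy
  have hw1 : (1 : ℝ) ≤ w := by exact_mod_cast h3
  have hx1 : 1 ≤ Real.sqrt w := by
    rw [Real.one_le_sqrt]
    exact hw1
  have hxx : Real.sqrt w * Real.sqrt w = w := Real.mul_self_sqrt (by linarith)
  have hyv : y ≤ v := by
    have h4 : (y : ℝ) ≤ v := by
      calc (y : ℝ) ≤ (w : ℝ) ^ κ := Nat.floor_le (by positivity)
        _ ≤ (w : ℝ) ^ (1 / 2 : ℝ) := Real.rpow_le_rpow_of_exponent_le hw1 hκ2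
        _ = Real.sqrt w := (Real.sqrt_eq_rpow _).symm
        _ ≤ v := hv1
    exact_mod_cast h4
  have hMv : MM v ≤ 16 / κ * MM y := (MM_mono (by exact_mod_cast hv2)).trans h1
  have hMv0 := MM_pos v
  have hMy0 := MM_pos y
  have hpow : ((y : ℝ) + 1) ^ s0 ≤ δ * U := by
    have h4 := pow_le hκ hκs h3
    rw [← hy, ← Real.sqrt_eq_rpow] at h4
    have h5 : 2 ^ (s0 + 1) ≤ Real.sqrt w * δ := (div_le_iff₀ hδ).1 h2
    have h6 : 2 ^ s0 * Real.sqrt w ≤ δ * ((w : ℝ) ^ 2 / 2) := by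
      rw [pow_succ] at h5
      have h7 : (2 ^ s0 : ℝ) ≤ Real.sqrt w * δ / 2 := by linarith
      have h8 : (w : ℝ) ≤ w ^ 2 := by nlinarith
      calc 2 ^ s0 * Real.sqrt w ≤ Real.sqrt w * δ / 2 * Real.sqrt w :=
            mul_le_mul_of_nonneg_right h7 (by positivity)
        _ = δ * (Real.sqrt w * Real.sqrt w / 2) := by ring
        _ ≤ δ * ((w : ℝ) ^ 2 / 2) := by
          rw [hxx]
          refine mul_le_mul_of_nonneg_left ?_ hδ.le
          linarith
    exact h4.trans (h6.trans (mul_le_mul_of_nonneg_left hU hδ.le))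
  have hU0 : (0 : ℝ) < U := lt_of_lt_of_le (by positivity) hU
  have hδU : 1 ≤ δ * U := (one_le_pow₀ (by linarith [Nat.cast_nonneg (α := ℝ) y])).trans hpow
  constructor
  · have e1 : (sv a v n U' : ℝ) - sv a v n U = sv a v (n + U) (U' - U) := by
      have := sv_add a v n U (U' - U)
      rw [Nat.add_sub_cancel' hUU] at this
      rw [this]
      push_cast
      ring
    have h5 : U' - U ≤ ⌈δ * (U : ℝ)⌉₊ := by
      have : ((U' - U : ℕ) : ℝ) ≤ ⌈δ * (U : ℝ)⌉₊ := by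
        rw [Nat.cast_sub hUU]
        have := Nat.le_ceil (δ * (U : ℝ))
        linarith
      exact_mod_cast this
    have h6 : sv a v (n + U) (U' - U) ≤ sv a y (n + U) ⌈δ * (U : ℝ)⌉₊ :=
      (sv_mono _ h5).trans (sv_anti hyv _ _)
    have h7 := hbt a y (n + U) ⌈δ * (U : ℝ)⌉₊ (hpow.trans (Nat.le_ceil _))
    have h8 : (⌈δ * (U : ℝ)⌉₊ : ℝ) ≤ 2 * (δ * U) := by
      have := Nat.ceil_lt_add_one (a := δ * (U : ℝ)) (by positivity)
      linarith
    rw [e1]
    calc (sv a v (n + U) (U' - U) : ℝ) * (MM v / U)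
        ≤ C0 * (2 * (δ * U) / MM y) * (MM v / U) := by
          refine mul_le_mul_of_nonneg_right ?_ (by positivity)
          refine (Nat.cast_le.2 h6).trans (h7.trans ?_)
          gcongr
      _ = C0 * 2 * δ * (MM v / MM y) := by
          field_simp
      _ ≤ C0 * 2 * δ * (16 / κ) := by
          refine mul_le_mul_of_nonneg_left ?_ (by positivity)
          rw [div_le_iff₀ hMy0]
          exact hMv
      _ = 2 * C0 * (16 / κ) * δ := by ring
  · have h7 := hbt a y n U (hpow.trans (by nlinarith))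
    calc (sv a v n U : ℝ) * (MM v / U) ≤ C0 * (U / MM y) * (MM v / U) := by
          refine mul_le_mul_of_nonneg_right ?_ (by positivity)
          exact (Nat.cast_le.2 (sv_anti hyv n U)).trans h7
      _ = C0 * (MM v / MM y) := by
          field_simp
      _ ≤ C0 * (16 / κ) := by
          refine mul_le_mul_of_nonneg_left ?_ hC0.le
          rw [div_le_iff₀ hMy0]
          exact hMv
      _ ≤ 2 * C0 * (16 / κ) := by
          have : 0 < C0 * (16 / κ) := by positivity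
          linarith

end Pool.Agent.H50.BF
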