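import Pool.Agent.H50.BF.SUB

set_option autoImplicit false

namespace Pool.Agent.H50.BF

open Finset Filter
open scoped Topology

namespace BTaux

lemma MM_succ_prime {N : ℕ} (h : (N + 1).Prime) :
    MM (N + 1) = MM N * (1 - ((N + 1 : ℕ) : ℝ)⁻¹)⁻¹ := by
  unfold MM
  have e : (Icc 1 (N + 1)).filter Nat.Prime = insert (N + 1) ((Icc 1 N).filter Nat.Prime) := by
    ext p
    simp only [mem_filter, mem_Icc, mem_insert]
    constructor
    · rintro ⟨⟨h1, h2⟩, h3⟩
      rcases Nat.lt_or_ge N p with h4 | h4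
      · exact Or.inl (by omega)
      · exact Or.inr ⟨⟨h1, h4⟩, h3⟩
    · rintro (h1 | ⟨⟨h1, h2⟩, h3⟩)
      · subst h1
        exact ⟨⟨by omega, le_rfl⟩, h⟩
      · exact ⟨⟨h1, by omega⟩, h3⟩
  rw [e, prod_insert, mul_comm]
  simp

/-- `∑ 1/p ≤ MM v' / MM v - 1` -/
lemma MM_sum {v : ℕ} (v' : ℕ) (h : v ≤ v') :
    MM v * (1 + ∑ p ∈ (Ioc v v').filter Nat.Prime, (p : ℝ)⁻¹) ≤ MM v' := by
  induction v', h using Nat.le_induction with
  | base => simp
  | succ N hN ih =>
    by_cases hp : (N + 1).Prime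
    · have e : (Ioc v (N + 1)).filter Nat.Prime = insert (N + 1) ((Ioc v N).filter Nat.Prime) := by
        ext p
        simp only [mem_filter, mem_Ioc, mem_insert]
        constructor
        · rintro ⟨⟨h1, h2⟩, h3⟩
          rcases Nat.lt_or_ge N p with h4 | h4
          · exact Or.inl (by omega)
          · exact Or.inr ⟨⟨h1, h4⟩, h3⟩
        · rintro (h1 | ⟨⟨h1, h2⟩, h3⟩)
          · subst h1
            exact ⟨⟨by omega, le_rfl⟩, hp⟩
          · exact ⟨⟨h1, by omega⟩, h3⟩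
      rw [e, sum_insert (by simp), MM_succ_prime hp]
      have h2 : (2 : ℝ) ≤ ((N + 1 : ℕ) : ℝ) := by exact_mod_cast hp.two_le
      set t := ((N + 1 : ℕ) : ℝ)⁻¹ with ht
      have ht0 : 0 < t := by positivity
      have ht1 : t ≤ 1 / 2 := by
        rw [ht, one_div]
        exact inv_anti₀ (by norm_num) h2
      have h3 : 1 + t ≤ (1 - t)⁻¹ := by
        rw [← one_div, le_div_iff₀ (by linarith)]
        nlinarith
      have h4 : MM v ≤ MM N := MM_mono hN
      have h5 := MM_pos v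
      have h6 := MM_pos N
      calc MM v * (1 + (t + ∑ p ∈ (Ioc v N).filter Nat.Prime, (p : ℝ)⁻¹))
          = MM v * (1 + ∑ p ∈ (Ioc v N).filter Nat.Prime, (p : ℝ)⁻¹) + MM v * t := by ring
        _ ≤ MM N + MM N * t := add_le_add ih (mul_le_mul_of_nonneg_right h4 ht0.le)
        _ = MM N * (1 + t) := by ring
        _ ≤ MM N * (1 - t)⁻¹ := mul_le_mul_of_nonneg_left h3 h6.le
    · have e : (Ioc v (N + 1)).filter Nat.Prime = (Ioc v N).filter Nat.Prime := by
        ext p
        simp only [mem_filter, mem_Ioc]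
        constructor
        · rintro ⟨⟨h1, h2⟩, h3⟩
          refine ⟨⟨h1, ?_⟩, h3⟩
          rcases Nat.lt_or_ge N p with h4 | h4
          · have : p = N + 1 := by omega
            exact absurd (this ▸ h3) hp
          · exact h4
        · rintro ⟨⟨h1, h2⟩, h3⟩
          exact ⟨⟨h1, by omega⟩, h3⟩
      rw [e]
      exact ih.trans (MM_mono (Nat.le_succ N))

open Classical in
/-- the survivors removed by the primes in `(v, v']` -/
lemma sv_drop {a : ℕ → ℕ} {y v v' : ℕ} (hyv : y ≤ v) (n U : ℕ) :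
    sv a v n U ≤ sv a v' n U + ∑ p ∈ (Ioc v v').filter Nat.Prime,
      Finset.card (Finset.filter (fun k => (∀ q : ℕ, q.Prime → q ≤ y → (n + k + 1) % q ≠ a q % q) ∧
        (n + k + 1) % p = a p % p) (Finset.range U)) := by
  refine le_trans (card_le_card (t := ((range U).filter (fun k => ∀ p : ℕ, p.Prime → p ≤ v' →
    (n + k + 1) % p ≠ a p % p)) ∪ ((Ioc v v').filter Nat.Prime).biUnion (fun p =>
      Finset.filter (fun k => (∀ q : ℕ, q.Prime → q ≤ y → (n + k + 1) % q ≠ a q % q) ∧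
        (n + k + 1) % p = a p % p) (Finset.range U))) ?_) ((card_union_le _ _).trans
          (Nat.add_le_add_left card_biUnion_le _))
  intro k hk
  rw [mem_filter] at hk
  by_cases h : ∀ p : ℕ, p.Prime → p ≤ v' → (n + k + 1) % p ≠ a p % p
  · exact mem_union_left _ (mem_filter.2 ⟨hk.1, h⟩)
  · push Not at h
    obtain ⟨p, hp, hpv, hpa⟩ := h
    refine mem_union_right _ (mem_biUnion.2 ⟨p, mem_filter.2 ⟨mem_Ioc.2 ⟨?_, hpv⟩, hp⟩,
      mem_filter.2 ⟨hk.1, fun q hq hqy => hk.2 q hq (hqy.trans hyv), hpa⟩⟩)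
    by_contra hle
    exact hk.2 p hp (by omega) hpa

/-- sharp form of Mertens -/
lemma mert_sharp (h : S_MERT) {θ : ℝ} (hθ : 0 < θ) : ∀ᶠ N : ℕ in atTop,
    (1 - θ) * Real.exp Real.eulerMascheroniConstant * Real.log N ≤ MM N ∧
      MM N ≤ (1 + θ) * Real.exp Real.eulerMascheroniConstant * Real.log N := by
  have hL : 0 < Real.exp Real.eulerMascheroniConstant := Real.exp_pos _
  set L := Real.exp Real.eulerMascheroniConstant with hLd
  have h' : Tendsto (fun N : ℕ => MM N / Real.log N) atTop (𝓝 L) := h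
  filter_upwards [h'.eventually_const_le (u := (1 - θ) * L) (by nlinarith),
    h'.eventually_le_const (u := (1 + θ) * L) (by nlinarith), eventually_ge_atTop 2] with N h1 h2 h3
  have hlog : 0 < Real.log N := Real.log_pos (by exact_mod_cast h3)
  rw [le_div_iff₀ hlog] at h1
  rw [div_le_iff₀ hlog] at h2
  exact ⟨h1, h2⟩

lemma mert_eta (h : S_MERT) {η : ℝ} (hη : 0 < η) (hη1 : η ≤ 1 / 2) : ∀ᶠ w : ℕ in atTop,
    ∀ v v' : ℕ, (w : ℝ) ^ (1 - η) ≤ v → v ≤ v' → (v' : ℝ) ≤ (w : ℝ) ^ (1 + η) →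
      MM v' ≤ (1 + 5 * η) * MM v := by
  have hL : 0 < Real.exp Real.eulerMascheroniConstant := Real.exp_pos _
  obtain ⟨N0, hN0⟩ := eventually_atTop.1 (mert_sharp h (θ := η / 10) (by positivity))
  have ht : Tendsto (fun w : ℕ => (w : ℝ) ^ (1 - η)) atTop atTop :=
    (tendsto_rpow_atTop (by linarith)).comp tendsto_natCast_atTop_atTop
  filter_upwards [ht.eventually_ge_atTop (N0 : ℝ), eventually_ge_atTop 2] with w h1 h2 v v' hv hvv hv'
  have hw : (2 : ℝ) ≤ w := by exact_mod_cast h2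
  have hlog : 0 < Real.log w := Real.log_pos (by linarith)
  have hv0 : N0 ≤ v := by exact_mod_cast h1.trans hv
  have h3 := (hN0 v hv0).1
  have h4 := (hN0 v' (hv0.trans hvv)).2
  have hpos : 0 < (w : ℝ) ^ (1 - η) := Real.rpow_pos_of_pos (by linarith) _
  have h5 : (1 - η) * Real.log w ≤ Real.log v := by
    rw [← Real.log_rpow (by linarith)]
    exact Real.log_le_log hpos hv
  have hv'0 : (0 : ℝ) < v' := lt_of_lt_of_le (hpos.trans_le hv) (by exact_mod_cast hvv)
  have h6 : Real.log v' ≤ (1 + η) * Real.log w := by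
    rw [← Real.log_rpow (by linarith)]
    exact Real.log_le_log hv'0 hv'
  set L := Real.exp Real.eulerMascheroniConstant with hLd
  have hLw : 0 < L * Real.log w := by positivity
  have h7 : (1 - η / 10) * (1 - η) * (L * Real.log w) ≤ MM v := by
    refine le_trans ?_ h3
    have : (1 - η / 10) * L * ((1 - η) * Real.log w) ≤ (1 - η / 10) * L * Real.log v :=
      mul_le_mul_of_nonneg_left h5 (mul_nonneg (by linarith) hL.le)
    linarith
  have h8 : MM v' ≤ (1 + η / 10) * (1 + η) * (L * Real.log w) := by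
    refine h4.trans ?_
    have : (1 + η / 10) * L * Real.log v' ≤ (1 + η / 10) * L * ((1 + η) * Real.log w) :=
      mul_le_mul_of_nonneg_left h6 (mul_nonneg (by linarith) hL.le)
    linarith
  have h9 : (1 + η / 10) * (1 + η) ≤ (1 + 5 * η) * ((1 - η / 10) * (1 - η)) := by
    nlinarith [mul_pos hη hη, mul_nonneg hη.le (sub_nonneg.2 hη1),
      mul_nonneg (mul_pos hη hη).le (sub_nonneg.2 hη1), mul_pos hη (mul_pos hη hη)]
  calc MM v' ≤ (1 + η / 10) * (1 + η) * (L * Real.log w) := h8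
    _ ≤ (1 + 5 * η) * ((1 - η / 10) * (1 - η)) * (L * Real.log w) :=
      mul_le_mul_of_nonneg_right h9 hLw.le
    _ = (1 + 5 * η) * ((1 - η / 10) * (1 - η) * (L * Real.log w)) := by ring
    _ ≤ (1 + 5 * η) * MM v := mul_le_mul_of_nonneg_left h7 (by linarith)

end BTaux

open BTaux

theorem trans : S_AP → S_BT → S_MERT → S_TRANS := by
  intro ⟨CA, s1, hCA, hs1, hap⟩ ⟨CB, s0, hCB, hs0, hbt⟩ hmert
  have hs0' : (1 : ℝ) ≤ s0 := by exact_mod_cast hs0
  have hs1' : (1 : ℝ) ≤ s1 := by exact_mod_cast hs1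
  set κ : ℝ := 1 / (4 * (s0 + s1)) with hκd
  have hκ : 0 < κ := by positivity
  have hκ2 : κ ≤ 1 / 2 := by
    rw [hκd]
    exact one_div_le_one_div_of_le (by norm_num) (by linarith)
  have hκ0 : κ * s0 ≤ 1 / 4 := by
    rw [hκd, div_mul_eq_mul_div, div_le_div_iff₀ (by positivity) (by norm_num)]
    linarith
  have hκ1 : κ * s1 ≤ 1 / 4 := by
    rw [hκd, div_mul_eq_mul_div, div_le_div_iff₀ (by positivity) (by norm_num)]
    linarith
  refine ⟨16 / κ * (6 * CA + 5 * CB), by positivity, fun η hη hη1 => ?_⟩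
  have ht : Tendsto (fun w : ℕ => (w : ℝ) ^ (1 / 4 : ℝ)) atTop atTop :=
    (tendsto_rpow_atTop (by norm_num)).comp tendsto_natCast_atTop_atTop
  filter_upwards [mert_ratio hmert hκ, mert_eta hmert hη hη1,
    ht.eventually_ge_atTop (2 ^ (s0 + 1) + 2 ^ (s1 + 1) + 2 + 2 / η),
    eventually_ge_atTop 1] with w h1 h2 h3 h4 a v v' n U hv hvv hv' hU
  set y := ⌊(w : ℝ) ^ κ⌋₊ with hy
  set x : ℝ := (w : ℝ) ^ (1 / 4 : ℝ) with hx
  have hw1 : (1 : ℝ) ≤ w := by exact_mod_cast h4
  have hw0 : (0 : ℝ) ≤ w := by linarith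
  have hx4 : ∀ k : ℕ, x ^ k = (w : ℝ) ^ ((k : ℝ) / 4) := by
    intro k
    rw [hx, ← Real.rpow_natCast, ← Real.rpow_mul hw0]
    congr 1
    ring
  have hx8 : x ^ 8 = (w : ℝ) ^ 2 := by
    rw [hx4]
    norm_num
  have hx6 : (w : ℝ) ^ (1 + η) ≤ x ^ 6 := by
    rw [hx4]
    exact Real.rpow_le_rpow_of_exponent_le hw1 (by push_cast; linarith)
  have hx2 : x ^ 2 ≤ (w : ℝ) ^ (1 - η) := by
    rw [hx4]
    exact Real.rpow_le_rpow_of_exponent_le hw1 (by push_cast; linarith)
  have hp0 : (0 : ℝ) < 2 ^ (s0 + 1) := by positivity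
  have hp1 : (0 : ℝ) < 2 ^ (s1 + 1) := by positivity
  have hp2 : (0 : ℝ) < 2 / η := by positivity
  have hxge : 2 < x := by linarith
  have hxs0 : 2 * 2 ^ s0 + 2 ≤ x := by
    rw [pow_succ] at h3
    linarith
  have hxs1 : 2 * 2 ^ s1 + 2 ≤ x := by
    rw [pow_succ, pow_succ] at h3
    have : (0 : ℝ) < 2 ^ s0 := by positivity
    linarith
  have hxη : 2 / η ≤ x := by linarith
  have hyw : ((y : ℝ) + 1) ^ s0 ≤ 2 ^ s0 * x := pow_le hκ hκ0 h4
  have hyw1 : ((y : ℝ) + 1) ^ s1 ≤ 2 ^ s1 * x := pow_le hκ hκ1 h4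
  have hyv : y ≤ v := by
    have h5 : (y : ℝ) ≤ v := by
      calc (y : ℝ) ≤ (w : ℝ) ^ κ := Nat.floor_le (by positivity)
        _ ≤ (w : ℝ) ^ (1 / 2 : ℝ) := Real.rpow_le_rpow_of_exponent_le hw1 hκ2
        _ = x ^ 2 := by
          rw [hx4]
          norm_num
        _ ≤ v := hx2.trans hv
    exact_mod_cast h5
  have hMv0 := MM_pos v
  have hMy0 := MM_pos y
  have hMv : MM v ≤ 16 / κ * MM y := by
    refine (MM_mono ?_).trans h1
    have h5 : (v : ℝ) ≤ (w : ℝ) ^ 2 := by
      calc (v : ℝ) ≤ v' := by exact_mod_cast hvv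
        _ ≤ x ^ 6 := hv'.trans hx6
        _ ≤ x ^ 8 := pow_le_pow_right₀ (by linarith) (by norm_num)
        _ = (w : ℝ) ^ 2 := hx8
    exact_mod_cast h5
  have hMv' : MM v' ≤ (1 + 5 * η) * MM v := h2 v v' hv hvv hv'
  have hMmono : MM v ≤ MM v' := MM_mono hvv
  have hU' : x ^ 8 / 2 ≤ U := by
    rw [hx8]
    exact hU
  have hx1 : (1 : ℝ) ≤ x := by linarith
  have hU0 : (0 : ℝ) < U := lt_of_lt_of_le (by positivity) hU'
  have hratio : MM v / MM y ≤ 16 / κ := by
    rw [div_le_iff₀ hMy0]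
    exact hMv
  have hratio0 : 0 ≤ MM v / MM y := by positivity
  -- the bound for the survivors of level `v'`
  have hbU : ((y : ℝ) + 1) ^ s0 ≤ U := by
    refine hyw.trans (le_trans ?_ hU')
    have h5 : x ^ 2 ≤ x ^ 8 := pow_le_pow_right₀ hx1 (by norm_num)
    nlinarith
  have hsv' : (sv a v' n U : ℝ) ≤ CB * (U / MM y) :=
    (Nat.cast_le.2 (sv_anti (hyv.trans hvv) n U)).trans (hbt a y n U hbU)
  -- the bound for the removed survivors
  have hsum : ∑ p ∈ (Ioc v v').filter Nat.Prime, (p : ℝ)⁻¹ ≤ 5 * η := by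
    have h5 := MM_sum v' hvv
    have h6 : MM v * (1 + ∑ p ∈ (Ioc v v').filter Nat.Prime, (p : ℝ)⁻¹) ≤ MM v * (1 + 5 * η) :=
      h5.trans (by linarith)
    have h7 := le_of_mul_le_mul_left h6 hMv0
    linarith
  have hdrop : (sv a v n U : ℝ) - sv a v' n U ≤ CA / MM y * (U * (6 * η)) := by
    have h5 := sv_drop (a := a) (v' := v') hyv n U
    have h6 : (sv a v n U : ℝ) ≤ sv a v' n U + ∑ p ∈ (Ioc v v').filter Nat.Prime,
        CA / MM y * (U * (p : ℝ)⁻¹ + 1) := by
      refine (Nat.cast_le.2 h5).trans ?_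
      push_cast
      refine add_le_add_right (sum_le_sum fun p hp => ?_) _
      rw [mem_filter, mem_Ioc] at hp
      have hpp : (0 : ℝ) < p := by exact_mod_cast hp.2.pos
      have hdiv : ((U / p : ℕ) : ℝ) ≤ (U : ℝ) / p := Nat.cast_div_le
      have hdiv2 : (U : ℝ) / p - 1 ≤ ((U / p : ℕ) : ℝ) := by
        have h7 : U < p * (U / p + 1) := Nat.lt_mul_div_succ U hp.2.pos
        have h8 : (U : ℝ) < p * ((U / p : ℕ) + 1) := by exact_mod_cast h7
        rw [sub_le_iff_le_add, div_le_iff₀ hpp]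
        linarith
      have hpx : (p : ℝ) ≤ x ^ 6 := by
        have : (p : ℝ) ≤ v' := by exact_mod_cast hp.1.2
        exact this.trans (hv'.trans hx6)
      have h7 : x ^ 2 / 2 ≤ (U : ℝ) / p := by
        rw [le_div_iff₀ hpp]
        calc x ^ 2 / 2 * p ≤ x ^ 2 / 2 * x ^ 6 :=
              mul_le_mul_of_nonneg_left hpx (by positivity)
          _ = x ^ 8 / 2 := by ring
          _ ≤ U := hU'
      have h8 : ((y : ℝ) + 1) ^ s1 ≤ ((U / p : ℕ) : ℝ) := by
        refine hyw1.trans (le_trans ?_ hdiv2)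
        nlinarith
      refine (hap a y n U p (a p % p) hp.2 (by omega) h8).trans ?_
      rw [div_mul_eq_mul_div, mul_div_assoc]
      refine mul_le_mul_of_nonneg_left ?_ hCA.le
      refine div_le_div_of_nonneg_right ?_ hMy0.le
      rw [← div_eq_mul_inv]
      linarith
    rw [← mul_sum, sum_add_distrib, ← mul_sum, sum_const, nsmul_eq_mul, mul_one] at h6
    have h7 : (((Ioc v v').filter Nat.Prime).card : ℝ) ≤ U * η := by
      have h8 : ((Ioc v v').filter Nat.Prime).card ≤ v' := by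
        refine (card_filter_le _ _).trans ?_
        rw [Nat.card_Ioc]
        omega
      have h9 : (((Ioc v v').filter Nat.Prime).card : ℝ) ≤ v' := by exact_mod_cast h8
      refine h9.trans ((hv'.trans hx6).trans ?_)
      have h10 : 2 ≤ x * η := (div_le_iff₀ hη).1 hxη
      have h11 : x ^ 6 ≤ x ^ 7 := pow_le_pow_right₀ hx1 (by norm_num)
      calc x ^ 6 ≤ x ^ 7 := h11
        _ = x ^ 7 * 2 / 2 := by ring
        _ ≤ x ^ 7 * (x * η) / 2 := by
          refine div_le_div_of_nonneg_right (mul_le_mul_of_nonneg_left h10 (by positivity))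
            (by norm_num)
        _ = x ^ 8 / 2 * η := by ring
        _ ≤ U * η := mul_le_mul_of_nonneg_right hU' hη.le
    have h8 : CA / MM y * (U * ∑ p ∈ (Ioc v v').filter Nat.Prime, (p : ℝ)⁻¹ +
        ((Ioc v v').filter Nat.Prime).card) ≤ CA / MM y * (U * (6 * η)) := by
      refine mul_le_mul_of_nonneg_left ?_ (by positivity)
      have := mul_le_mul_of_nonneg_left hsum hU0.le
      linarith
    linarith
  have hd0 : (sv a v' n U : ℝ) ≤ sv a v n U := by exact_mod_cast sv_anti hvv n U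
  have e : (sv a v n U : ℝ) * (MM v / U) - sv a v' n U * (MM v' / U) =
      ((sv a v n U : ℝ) - sv a v' n U) * (MM v / U) - sv a v' n U * ((MM v' - MM v) / U) := by
    ring
  have hA0 : 0 ≤ ((sv a v n U : ℝ) - sv a v' n U) * (MM v / U) :=
    mul_nonneg (by linarith) (by positivity)
  have hB0 : 0 ≤ (sv a v' n U : ℝ) * ((MM v' - MM v) / U) :=
    mul_nonneg (Nat.cast_nonneg _) (div_nonneg (by linarith) hU0.le)
  have hA : ((sv a v n U : ℝ) - sv a v' n U) * (MM v / U) ≤ 16 / κ * (6 * CA) * η := by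
    calc ((sv a v n U : ℝ) - sv a v' n U) * (MM v / U)
        ≤ CA / MM y * (U * (6 * η)) * (MM v / U) :=
          mul_le_mul_of_nonneg_right hdrop (by positivity)
      _ = MM v / MM y * (6 * CA * η) := by
          field_simp
      _ ≤ 16 / κ * (6 * CA * η) := mul_le_mul_of_nonneg_right hratio (by positivity)
      _ = _ := by ring
  have hB : (sv a v' n U : ℝ) * ((MM v' - MM v) / U) ≤ 16 / κ * (5 * CB) * η := by
    have h5 : (MM v' - MM v) / U ≤ 5 * η * MM v / U := by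
      refine div_le_div_of_nonneg_right ?_ hU0.le
      linarith
    calc (sv a v' n U : ℝ) * ((MM v' - MM v) / U)
        ≤ CB * (U / MM y) * (5 * η * MM v / U) :=
          mul_le_mul hsv' h5 (div_nonneg (by linarith) hU0.le) (by positivity)
      _ = MM v / MM y * (5 * CB * η) := by
          field_simp
      _ ≤ 16 / κ * (5 * CB * η) := mul_le_mul_of_nonneg_right hratio (by positivity)
      _ = _ := by ring
  rw [e]
  have e2 : 16 / κ * (6 * CA + 5 * CB) * η = 16 / κ * (6 * CA) * η + 16 / κ * (5 * CB) * η := by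
    ring
  rw [e2, abs_le]
  have hA1 : 0 ≤ 16 / κ * (6 * CA) * η := by positivity
  have hB1 : 0 ≤ 16 / κ * (5 * CB) * η := by positivity
  constructor <;> linarith

end Pool.Agent.H50.BF
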