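import Pool.Agent.H50.BF.Stm

set_option autoImplicit false

namespace Pool.Agent.H50.BF

open Finset Filter
open scoped Topology

namespace BTaux

lemma fac_ge_one {p : ℕ} (hp : p.Prime) : 1 ≤ (1 - (p : ℝ)⁻¹)⁻¹ := by
  have h2 : (2 : ℝ) ≤ p := by exact_mod_cast hp.two_le
  have h3 : (p : ℝ)⁻¹ ≤ 2⁻¹ := inv_anti₀ (by norm_num) h2
  have h4 : 0 < (p : ℝ)⁻¹ := by positivity
  rw [one_le_inv₀ (by linarith)]
  linarith

lemma MM_mono : Monotone MM := by
  intro a b hab
  unfold MM
  refine prod_le_prod_of_subset_of_one_le ?_ ?_ ?_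
  · intro p hp
    rw [mem_filter, mem_Icc] at hp ⊢
    exact ⟨⟨hp.1.1, hp.1.2.trans hab⟩, hp.2⟩
  · intro p hp
    exact zero_le_one.trans (fac_ge_one (mem_filter.1 hp).2)
  · intro p hp _
    exact fac_ge_one (mem_filter.1 hp).2

lemma one_le_MM (w : ℕ) : 1 ≤ MM w := by
  unfold MM
  refine one_le_prod fun p hp => fac_ge_one (mem_filter.1 hp).2

lemma MM_pos (w : ℕ) : 0 < MM w := zero_lt_one.trans_le (one_le_MM w)

/-- `sv` is nonincreasing in the level -/
lemma sv_anti {a : ℕ → ℕ} {v v' : ℕ} (h : v ≤ v') (n U : ℕ) : sv a v' n U ≤ sv a v n U := by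
  classical
  unfold sv
  refine card_le_card fun k hk => ?_
  rw [mem_filter] at hk ⊢
  exact ⟨hk.1, fun p hp hpv => hk.2 p hp (hpv.trans h)⟩

/-- `sv` is nondecreasing in the length -/
lemma sv_mono {a : ℕ → ℕ} {v : ℕ} (n : ℕ) {U U' : ℕ} (h : U ≤ U') : sv a v n U ≤ sv a v n U' := by
  classical
  unfold sv
  refine card_le_card fun k hk => ?_
  rw [mem_filter, mem_range] at hk ⊢
  exact ⟨hk.1.trans_le h, hk.2⟩

lemma sv_le (a : ℕ → ℕ) (v n U : ℕ) : sv a v n U ≤ U := by
  classical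
  unfold sv
  refine (card_filter_le _ _).trans ?_
  rw [card_range]

/-- `sv` is additive -/
lemma sv_add (a : ℕ → ℕ) (v n U V : ℕ) : sv a v n (U + V) = sv a v n U + sv a v (n + U) V := by
  classical
  unfold sv
  rw [range_add_eq_union, filter_union, card_union_of_disjoint, filter_map, card_map]
  · congr 2
    refine Finset.filter_congr fun k _ => ?_
    simp only [Function.comp, addLeftEmbedding_apply]
    rw [show n + (U + k) + 1 = n + U + k + 1 by ring]
  · refine disjoint_filter_filter ?_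
    rw [disjoint_left]
    intro x hx hx'
    rw [mem_range] at hx
    rw [Finset.mem_map] at hx'
    obtain ⟨y, _, rfl⟩ := hx'
    simp at hx

end BTaux

open BTaux

theorem bt : S_CRT → S_FUND → S_BT := by
  intro hcrt hfund
  obtain ⟨s0, w0, hs0, h⟩ := hfund 1 one_pos
  have hpos := MM_pos w0
  refine ⟨2 + MM w0, s0, by positivity, hs0, fun a v n U hU => ?_⟩
  have hv := MM_pos v
  have hUv : 0 ≤ (U : ℝ) / MM v := by positivity
  by_cases hvw : w0 ≤ v
  · obtain ⟨N, hN⟩ := hcrt.1 a v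
    rw [hN n U]
    have h1 := abs_le.1 (h v hvw (n + N) U hU)
    nlinarith [h1.2]
  · push Not at hvw
    have h1 : (sv a v n U : ℝ) ≤ U := by exact_mod_cast sv_le a v n U
    have h2 : MM v ≤ MM w0 := MM_mono hvw.le
    have h3 : (U : ℝ) = MM v * (U / MM v) := by field_simp
    calc (sv a v n U : ℝ) ≤ MM v * (U / MM v) := h1.trans h3.le
      _ ≤ (2 + MM w0) * (U / MM v) := mul_le_mul_of_nonneg_right (by linarith) hUv

end Pool.Agent.H50.BF
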