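import Pool.Agent.H50.BF.BT

set_option autoImplicit false

namespace Pool.Agent.H50.BF

open Finset

open Classical in
/-- survivors in a residue class are the survivors of another sieve -/
lemma ap_aux (a : ℕ → ℕ) (v n U p r : ℕ) (hp : p.Prime) (hvp : v < p) :
    ∃ a' : ℕ → ℕ, Finset.card (Finset.filter (fun k => (∀ q : ℕ, q.Prime → q ≤ v →
      (n + k + 1) % q ≠ a q % q) ∧ (n + k + 1) % p = r) (Finset.range U)) ≤
      sv a' v 0 (U / p + 1) := by
  set F := Finset.filter (fun k => (∀ q : ℕ, q.Prime → q ≤ v →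
      (n + k + 1) % q ≠ a q % q) ∧ (n + k + 1) % p = r) (Finset.range U) with hF
  rcases F.eq_empty_or_nonempty with h0 | hne
  · exact ⟨a, by simp [h0]⟩
  set k0 := F.min' hne with hk0
  have hk0F : k0 ∈ F := min'_mem _ _
  have hk0' := mem_filter.1 hk0F
  have hdiv : ∀ k ∈ F, k = k0 + p * ((k - k0) / p) := by
    intro k hk
    have h1 : k0 ≤ k := min'_le _ _ hk
    have h2 := (mem_filter.1 hk).2.2
    have h3 : k0 ≡ k [MOD p] := by
      have : n + k0 + 1 ≡ n + k + 1 [MOD p] := hk0'.2.2.trans h2.symm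
      exact Nat.ModEq.add_left_cancel' n (Nat.ModEq.add_right_cancel' 1 this)
    have h4 : p ∣ k - k0 := (Nat.modEq_iff_dvd' h1).1 h3
    rw [Nat.mul_div_cancel' h4]
    omega
  refine ⟨fun q => (((a q : ZMod q) - (n + k0 + 1 : ℕ)) * (p : ZMod q)⁻¹ + 1).val, ?_⟩
  unfold sv
  refine card_le_card_of_injOn (fun k => (k - k0) / p) ?_ ?_
  · intro k hk
    have hk' := mem_filter.1 hk
    have hd := hdiv k hk
    set j := (k - k0) / p with hj
    simp only [coe_filter, Finset.mem_range, Set.mem_ofPred_eq]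
    constructor
    · have h1 : k < U := mem_range.1 hk'.1
      have h2 : j ≤ U / p := by
        rw [hj]
        exact Nat.div_le_div_right (by omega)
      omega
    · intro q hq hqv h
      have : Fact q.Prime := ⟨hq⟩
      refine hk'.2.1 q hq hqv ?_
      have h1 := (ZMod.natCast_eq_natCast_iff' _ _ q).2 h
      have hp0 : (p : ZMod q) ≠ 0 := by
        rw [Ne, ZMod.natCast_eq_zero_iff]
        intro hd'
        have := (Nat.prime_dvd_prime_iff_eq hq hp).1 hd'
        omega
      rw [← ZMod.natCast_eq_natCast_iff', hd]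
      rw [ZMod.natCast_zmod_val] at h1
      push_cast at h1 ⊢
      have h2 : (j : ZMod q) = ((a q : ZMod q) - (n + k0 + 1)) * (p : ZMod q)⁻¹ := by
        linear_combination h1
      have h3 : (p : ZMod q) * j = (a q : ZMod q) - (n + k0 + 1) := by
        rw [h2, mul_comm, mul_assoc, inv_mul_cancel₀ hp0, mul_one]
      linear_combination h3
  · intro k hk k' hk' h
    have h1 := hdiv k hk
    have h2 := hdiv k' hk'
    simp only at h
    rw [h1, h2, h]

theorem ap : S_BT → S_AP := by
  intro ⟨C, s0, hC, hs0, h⟩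
  refine ⟨C, s0, hC, hs0, fun a v n U p r hp hvp hU => ?_⟩
  obtain ⟨a', ha'⟩ := ap_aux a v n U p r hp hvp
  have h1 := h a' v 0 (U / p + 1) (hU.trans (by push_cast; linarith))
  refine (Nat.cast_le.2 ha').trans (h1.trans_eq ?_)
  push_cast
  ring

end Pool.Agent.H50.BF
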