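import Pool.Agent.H50.BF.Stm

/-! # Project BF: auxiliary facts (helper58) for EXTA, EXTB, MAIN -/

set_option autoImplicit false

open MeasureTheory Filter
open scoped Topology ENNReal

namespace Pool.Agent.H50.BF.A58

open Pool.Agent.H50.BF

theorem MM_pos (N : ℕ) : 0 < MM N := by
  unfold MM
  refine Finset.prod_pos fun p hp => ?_
  have h2 : 2 ≤ p := (Finset.mem_filter.1 hp).2.two_le
  have h2' : (2 : ℝ) ≤ p := by exact_mod_cast h2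
  have h3 : (p : ℝ)⁻¹ ≤ 2⁻¹ := inv_anti₀ (by norm_num) h2'
  apply inv_pos.2
  norm_num at h3
  linarith

theorem sv_le (a : ℕ → ℕ) (w n U : ℕ) : sv a w n U ≤ U := by
  classical
  unfold sv
  refine (Finset.card_le_card (Finset.filter_subset _ _)).trans ?_
  simp

theorem sv_mono (a : ℕ → ℕ) (w n : ℕ) {U U' : ℕ} (h : U ≤ U') : sv a w n U ≤ sv a w n U' := by
  classical
  unfold sv
  refine Finset.card_le_card ?_
  refine Finset.filter_subset_filter _ ?_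
  intro x hx
  rw [Finset.mem_range] at hx ⊢
  omega

/-- `log x → ∞` through the natural numbers `⌊log x⌋₊` -/
theorem tendsto_w : Tendsto (fun x : ℝ => ⌊Real.log x⌋₊) atTop atTop :=
  tendsto_nat_floor_atTop.comp Real.tendsto_log_atTop

/-- for large `y`: `⌊y^s⌋ ≥ y²/2` -/
theorem ev_sq (s : ℝ) (hs : 2 < s) : ∀ᶠ y : ℝ in atTop, y ^ 2 / 2 ≤ (⌊y ^ s⌋₊ : ℝ) ∧
    1 ≤ (⌊y ^ s⌋₊ : ℝ) := by
  filter_upwards [eventually_ge_atTop (2 : ℝ)] with y hy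
  have h1 : y ^ (2 : ℝ) ≤ y ^ s := Real.rpow_le_rpow_of_exponent_le (by linarith) hs.le
  have h2 : y ^ (2 : ℝ) = y ^ 2 := by norm_cast
  have h3 : y ^ s < (⌊y ^ s⌋₊ : ℝ) + 1 := Nat.lt_floor_add_one _
  rw [h2] at h1
  constructor
  · nlinarith
  · nlinarith

/-- for large `w`: `(w+1)^s ≤ (1+δ) ⌊w^s⌋` -/
theorem ev_floor (s δ : ℝ) (hs : 2 < s) (hδ : 0 < δ) : ∀ᶠ w : ℕ in atTop,
    ((w : ℝ) + 1) ^ s ≤ (1 + δ) * (⌊(w : ℝ) ^ s⌋₊ : ℝ) := by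
  have h1 : Tendsto (fun w : ℕ => (1 + 1 / (w : ℝ)) ^ s) atTop (𝓝 1) := by
    have h2 : Tendsto (fun w : ℕ => 1 + 1 / (w : ℝ)) atTop (𝓝 (1 + 0)) :=
      tendsto_const_nhds.add tendsto_one_div_atTop_nhds_zero_nat
    rw [add_zero] at h2
    have h3 := h2.rpow_const (p := s) (Or.inl one_ne_zero)
    rwa [Real.one_rpow] at h3
  have h2 : Tendsto (fun w : ℕ => (w : ℝ) ^ s) atTop atTop :=
    (tendsto_rpow_atTop (by linarith)).comp tendsto_natCast_atTop_atTop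
  filter_upwards [h1.eventually_lt_const (by linarith : (1 : ℝ) < 1 + δ / 2),
    h2.eventually_ge_atTop (2 * (1 + δ) / δ), eventually_ge_atTop 1] with w hw1 hw2 hw3
  have hw0 : (0 : ℝ) < w := by exact_mod_cast hw3
  have e : ((w : ℝ) + 1) ^ s = (1 + 1 / (w : ℝ)) ^ s * (w : ℝ) ^ s := by
    rw [← Real.mul_rpow (by positivity) hw0.le]
    congr 1
    field_simp
  have h3 : (w : ℝ) ^ s < (⌊(w : ℝ) ^ s⌋₊ : ℝ) + 1 := Nat.lt_floor_add_one _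
  have h4 : 0 < (w : ℝ) ^ s := Real.rpow_pos_of_pos hw0 s
  rw [e]
  rw [div_le_iff₀ hδ] at hw2
  calc (1 + 1 / (w : ℝ)) ^ s * (w : ℝ) ^ s ≤ (1 + δ / 2) * (w : ℝ) ^ s :=
        mul_le_mul_of_nonneg_right hw1.le h4.le
    _ ≤ (1 + δ) * ((w : ℝ) ^ s - 1) := by nlinarith
    _ ≤ (1 + δ) * (⌊(w : ℝ) ^ s⌋₊ : ℝ) := mul_le_mul_of_nonneg_left (by linarith) (by linarith)

/-- the normalised values -/
noncomputable def val (w : ℕ) (s : ℝ) (t : ℕ) : ℝ :=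
  (sv (fun _ => 0) w t ⌊(w : ℝ) ^ s⌋₊ : ℝ) * MM w / (w : ℝ) ^ s

theorem val_nonneg (w : ℕ) (s : ℝ) (t : ℕ) : 0 ≤ val w s t := by
  unfold val
  have := MM_pos w
  positivity

theorem lo_eq (w : ℕ) (s : ℝ) : lo w s = ⨅ t : ℕ, val w s t := rfl

theorem hi_eq (w : ℕ) (s : ℝ) : hi w s = ⨆ t : ℕ, val w s t := rfl

theorem bddBelow (w : ℕ) (s : ℝ) : BddBelow (Set.range (val w s)) :=
  ⟨0, by rintro _ ⟨t, rfl⟩; exact val_nonneg w s t⟩

theorem bddAbove (w : ℕ) (s : ℝ) : BddAbove (Set.range (val w s)) := by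
  refine ⟨(⌊(w : ℝ) ^ s⌋₊ : ℝ) * MM w / (w : ℝ) ^ s, ?_⟩
  rintro _ ⟨t, rfl⟩
  unfold val
  have h1 := (MM_pos w).le
  have h2 : (0 : ℝ) ≤ (w : ℝ) ^ s := Real.rpow_nonneg (Nat.cast_nonneg _) _
  have h3 : (sv (fun _ => 0) w t ⌊(w : ℝ) ^ s⌋₊ : ℝ) ≤ (⌊(w : ℝ) ^ s⌋₊ : ℝ) := by
    exact_mod_cast sv_le _ _ _ _
  exact div_le_div_of_nonneg_right (mul_le_mul_of_nonneg_right h3 h1) h2

theorem lo_le (w : ℕ) (s : ℝ) (t : ℕ) : lo w s ≤ val w s t := ciInf_le (bddBelow w s) t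

theorem le_hi (w : ℕ) (s : ℝ) (t : ℕ) : val w s t ≤ hi w s := le_ciSup (bddAbove w s) t

/-- comparison of `dens a s x` with the normalised number of survivors in the interval of length
`V = ⌊w^s⌋`, `w = ⌊log x⌋` -/
theorem dens_cmp (hS : S_SUB) (s ε : ℝ) (hs : 2 < s) (hε : 0 < ε) : ∀ᶠ w : ℕ in atTop,
    ∀ (a : ℕ → ℕ) (x : ℝ), 0 < x → ⌊Real.log x⌋₊ = w →
      |dens a s x - (sv a w ⌊x⌋₊ ⌊(w : ℝ) ^ s⌋₊ : ℝ) * (MM w / (⌊(w : ℝ) ^ s⌋₊ : ℝ))| ≤ ε := by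
  obtain ⟨C, hC, hsub⟩ := hS
  obtain ⟨δ, hδ0, hδ1, hδC⟩ : ∃ δ : ℝ, 0 < δ ∧ δ ≤ 1 ∧ C * δ ≤ ε / 2 := by
    refine ⟨min 1 (ε / (2 * C)), by positivity, min_le_left _ _, ?_⟩
    calc C * min 1 (ε / (2 * C)) ≤ C * (ε / (2 * C)) :=
          mul_le_mul_of_nonneg_left (min_le_right _ _) hC.le
      _ = ε / 2 := by field_simp
  filter_upwards [hsub δ hδ0 hδ1, ev_floor s δ hs hδ0,
    (tendsto_natCast_atTop_atTop (R := ℝ)).eventually (ev_sq s hs), eventually_ge_atTop 1]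
    with w hw1 hw2 hw3 hw4 a x hx hxw
  have hw0 : (1 : ℝ) ≤ w := by exact_mod_cast hw4
  have hlx : (w : ℝ) ≤ Real.log x := by
    rw [← hxw]
    apply Nat.floor_le
    by_contra h
    push Not at h
    have := Nat.floor_of_nonpos h.le
    omega
  have hlx2 : Real.log x < w + 1 := by
    rw [← hxw]
    exact Nat.lt_floor_add_one _
  set V := ⌊(w : ℝ) ^ s⌋₊ with hV
  set U := ⌊Real.log x ^ s⌋₊ with hU
  have hl0 : 0 < Real.log x := by linarith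
  have hVU : V ≤ U := Nat.floor_le_floor (Real.rpow_le_rpow (by linarith) hlx (by linarith))
  have hls : Real.log x ^ s ≤ ((w : ℝ) + 1) ^ s :=
    Real.rpow_le_rpow hl0.le hlx2.le (by linarith)
  have hU1 : (U : ℝ) ≤ Real.log x ^ s := Nat.floor_le (Real.rpow_nonneg hl0.le _)
  have hUV : (U : ℝ) ≤ (1 + δ) * V := hU1.trans (hls.trans hw2)
  have hsq : Real.sqrt w ≤ w := by
    rw [Real.sqrt_le_left (by linarith)]
    nlinarith
  have hw2' : (w : ℝ) ≤ (w : ℝ) ^ 2 := by nlinarith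
  obtain ⟨h1, h2⟩ := hw1 a w ⌊x⌋₊ V U hsq hw2' hw3.1 hVU hUV
  have hV0 : (0 : ℝ) < V := by linarith [hw3.2]
  have hlspos : 0 < Real.log x ^ s := Real.rpow_pos_of_pos hl0 s
  have hM := MM_pos w
  set A : ℝ := (sv a w ⌊x⌋₊ V : ℝ) * (MM w / V) with hA
  have hA0 : 0 ≤ A := by positivity
  have hd : dens a s x = (sv a w ⌊x⌋₊ U : ℝ) * (MM w / V) * (V / Real.log x ^ s) := by
    unfold dens
    rw [hxw, ← hU]
    field_simp
  have hr1 : (V : ℝ) / Real.log x ^ s ≤ 1 := by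
    rw [div_le_one hlspos]
    have : (V : ℝ) ≤ U := by exact_mod_cast hVU
    linarith
  have hr0 : 0 ≤ (V : ℝ) / Real.log x ^ s := by positivity
  have hr2 : 1 - δ ≤ (V : ℝ) / Real.log x ^ s := by
    rw [le_div_iff₀ hlspos]
    have h3 : Real.log x ^ s ≤ (1 + δ) * V := hls.trans hw2
    nlinarith [mul_nonneg hδ0.le hV0.le]
  have hsvm : (sv a w ⌊x⌋₊ V : ℝ) ≤ sv a w ⌊x⌋₊ U := by exact_mod_cast sv_mono a w _ hVU
  have hAU : A ≤ (sv a w ⌊x⌋₊ U : ℝ) * (MM w / V) :=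
    mul_le_mul_of_nonneg_right hsvm (by positivity)
  have hUA : (sv a w ⌊x⌋₊ U : ℝ) * (MM w / V) ≤ A + C * δ := by
    have : ((sv a w ⌊x⌋₊ U : ℝ) - sv a w ⌊x⌋₊ V) * (MM w / V) =
      (sv a w ⌊x⌋₊ U : ℝ) * (MM w / V) - A := by rw [hA]; ring
    linarith
  rw [hd, abs_le]
  set B := (sv a w ⌊x⌋₊ U : ℝ) * (MM w / V) with hB
  have hB0 : 0 ≤ B := by positivity
  constructor
  · -- lower
    have h5 : A * (1 - δ) ≤ B * ((V : ℝ) / Real.log x ^ s) := by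
      calc A * (1 - δ) ≤ A * ((V : ℝ) / Real.log x ^ s) := mul_le_mul_of_nonneg_left hr2 hA0
        _ ≤ B * ((V : ℝ) / Real.log x ^ s) := mul_le_mul_of_nonneg_right hAU hr0
    have h6 : A * δ ≤ C * δ := mul_le_mul_of_nonneg_right h2 hδ0.le
    linarith
  · have h5 : B * ((V : ℝ) / Real.log x ^ s) ≤ B * 1 := mul_le_mul_of_nonneg_left hr1 hB0
    linarith

/-- comparison of the normalisations by `w^s` and by `⌊w^s⌋` -/
theorem val_cmp (hS : S_SUB) (s ε : ℝ) (hs : 2 < s) (hε : 0 < ε) : ∀ᶠ w : ℕ in atTop,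
    ∀ t : ℕ, |val w s t - (sv (fun _ => 0) w t ⌊(w : ℝ) ^ s⌋₊ : ℝ) *
      (MM w / (⌊(w : ℝ) ^ s⌋₊ : ℝ))| ≤ ε := by
  obtain ⟨C, hC, hsub⟩ := hS
  obtain ⟨δ, hδ0, hδ1, hδC⟩ : ∃ δ : ℝ, 0 < δ ∧ δ ≤ 1 ∧ C * δ ≤ ε / 2 := by
    refine ⟨min 1 (ε / (2 * C)), by positivity, min_le_left _ _, ?_⟩
    calc C * min 1 (ε / (2 * C)) ≤ C * (ε / (2 * C)) :=
          mul_le_mul_of_nonneg_left (min_le_right _ _) hC.le
      _ = ε / 2 := by field_simp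
  filter_upwards [hsub δ hδ0 hδ1, ev_floor s δ hs hδ0,
    (tendsto_natCast_atTop_atTop (R := ℝ)).eventually (ev_sq s hs), eventually_ge_atTop 1]
    with w hw1 hw2 hw3 hw4 t
  have hw0 : (1 : ℝ) ≤ w := by exact_mod_cast hw4
  set V := ⌊(w : ℝ) ^ s⌋₊ with hV
  have hws : 0 < (w : ℝ) ^ s := Real.rpow_pos_of_pos (by linarith) s
  have hsq : Real.sqrt w ≤ w := by
    rw [Real.sqrt_le_left (by linarith)]
    nlinarith
  have hw2' : (w : ℝ) ≤ (w : ℝ) ^ 2 := by nlinarith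
  have hV0 : (0 : ℝ) < V := by linarith [hw3.2]
  obtain ⟨-, h2⟩ := hw1 (fun _ => 0) w t V V hsq hw2' hw3.1 le_rfl (by nlinarith)
  have hM := MM_pos w
  set A : ℝ := (sv (fun _ => 0) w t V : ℝ) * (MM w / V) with hA
  have hA0 : 0 ≤ A := by positivity
  have hd : val w s t = A * (V / (w : ℝ) ^ s) := by
    unfold val
    rw [← hV, hA]
    field_simp
  have hr1 : (V : ℝ) / (w : ℝ) ^ s ≤ 1 := by
    rw [div_le_one hws]
    exact Nat.floor_le hws.le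
  have hr2 : 1 - δ ≤ (V : ℝ) / (w : ℝ) ^ s := by
    rw [le_div_iff₀ hws]
    have h3 : (w : ℝ) ^ s ≤ ((w : ℝ) + 1) ^ s :=
      Real.rpow_le_rpow (by linarith) (by linarith) (by linarith)
    nlinarith [mul_nonneg hδ0.le hV0.le]
  rw [hd, abs_le]
  have h6 : A * δ ≤ C * δ := mul_le_mul_of_nonneg_right h2 hδ0.le
  constructor
  · have h5 : A * (1 - δ) ≤ A * ((V : ℝ) / (w : ℝ) ^ s) := mul_le_mul_of_nonneg_left hr2 hA0
    linarith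
  · have h5 : A * ((V : ℝ) / (w : ℝ) ^ s) ≤ A * 1 := mul_le_mul_of_nonneg_left hr1 hA0
    linarith

end Pool.Agent.H50.BF.A58
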