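import Pool.Agent.H50.BF.Stm

set_option autoImplicit false

open MeasureTheory Filter
open scoped Topology ENNReal

namespace Pool.Agent.H50.BF

lemma con_MM_mono : Monotone MM := by
  intro a b hab
  unfold MM
  have hsub : (Finset.Icc 1 a).filter Nat.Prime ⊆ (Finset.Icc 1 b).filter Nat.Prime :=
    Finset.filter_subset_filter _ (Finset.Icc_subset_Icc_right hab)
  have hf : ∀ p ∈ (Finset.Icc 1 b).filter Nat.Prime, (1 : ℝ) ≤ (1 - (p : ℝ)⁻¹)⁻¹ := by
    intro p hp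
    have h2 : (2 : ℝ) ≤ p := by exact_mod_cast (Finset.mem_filter.1 hp).2.two_le
    have h3 : (p : ℝ)⁻¹ ≤ 2⁻¹ := inv_anti₀ (by norm_num) h2
    have h4 : 0 < (p : ℝ)⁻¹ := by positivity
    have h5 : 0 < 1 - (p : ℝ)⁻¹ := by norm_num at h3; linarith
    exact (one_le_inv₀ h5).2 (by linarith)
  rw [← Finset.prod_sdiff hsub]
  have h1 : (1 : ℝ) ≤ ∏ p ∈ (Finset.Icc 1 b).filter Nat.Prime \ (Finset.Icc 1 a).filter Nat.Prime, (1 - (p : ℝ)⁻¹)⁻¹ := by
    calc (1 : ℝ) = ∏ p ∈ (Finset.Icc 1 b).filter Nat.Prime \ (Finset.Icc 1 a).filter Nat.Prime, (1 : ℝ) := by simp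
      _ ≤ _ := Finset.prod_le_prod (fun _ _ => zero_le_one) fun p hp => hf p (Finset.mem_sdiff.1 hp).1
  have h2 : (0 : ℝ) ≤ ∏ p ∈ (Finset.Icc 1 a).filter Nat.Prime, (1 - (p : ℝ)⁻¹)⁻¹ :=
    Finset.prod_nonneg fun p hp => zero_le_one.trans (hf p (hsub hp))
  nlinarith

lemma con_MM_pos (N : ℕ) : 0 < MM N := by
  have h := con_MM_mono (Nat.zero_le N)
  have h0 : MM 0 = 1 := by simp [MM]
  rw [h0] at h
  linarith

lemma con_lim (c : ℝ) (hc : 0 < c) : Tendsto (fun L : ℝ => (3 + 2 * Real.log L) * L ^ (-c)) atTop (𝓝 0) := by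
  have h1 : Tendsto (fun L : ℝ => L ^ (-c)) atTop (𝓝 0) := tendsto_rpow_neg_atTop hc
  have h2 : Tendsto (fun L : ℝ => Real.log L / L ^ c) atTop (𝓝 0) :=
    (isLittleO_log_rpow_atTop hc).tendsto_div_nhds_zero
  have h3 := (h1.const_mul 3).add (h2.const_mul 2)
  simp only [mul_zero, add_zero] at h3
  refine h3.congr' ?_
  filter_upwards [eventually_gt_atTop 0] with L hL
  rw [Real.rpow_neg hL.le]
  ring

/-- the numerical facts -/
lemma con_num {C η σ σ' ε : ℝ} (hC : 0 < C) (hη : 0 < η) (hη1 : η ≤ 1) (hσ : 2 + η < σ) (hε : 0 < ε)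
    (hCm : ∀ m : ℕ, 1 ≤ m → MM m ≤ C * (1 + Real.log m))
    (hCD : ∀ w z U : ℕ, 1 ≤ w → DD w z U ≤ C * U * ((2 + Real.log w) / (w * MM z)) + 1)
    (hM : S_MERT) :
    ∀ᶠ n : ℕ in atTop, ∀ U z : ℕ, Real.log n ^ σ ≤ U → (U : ℝ) ≤ Real.log n ^ σ' →
      Real.log n / 2 ≤ MM z → MM z ≤ 2 * Real.log n →
      U ≤ n ∧ z ≤ n ^ 2 ∧ 0 ≤ Real.log n ^ (2 + η / 2) / U ∧ ⌈Real.log n ^ (1 + η)⌉₊ ≤ z ∧
      4 * (Real.log n ^ (2 + η / 2) / U) * DD ⌈Real.log n ^ (1 + η)⌉₊ z U ≤ 1 ∧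
      (∀ p : ℕ, p.Prime → ⌈Real.log n ^ (1 + η)⌉₊ < p → p ≤ z →
        2 * (Real.log n ^ (2 + η / 2) / U) * (MM p / MM z) * ((U : ℝ) / p + 1) ≤ 1) ∧
      -((Real.log n ^ (2 + η / 2) / U) * (ε * (U / Real.log n))) +
        4 * (Real.log n ^ (2 + η / 2) / U) ^ 2 * DD ⌈Real.log n ^ (1 + η)⌉₊ z U *
          (MM ⌈Real.log n ^ (1 + η)⌉₊ / MM z) * U ≤ -(ε / 2 * Real.log n ^ (1 + η / 2)) := by
  have hL : Tendsto (fun n : ℕ => Real.log (n : ℝ)) atTop atTop :=
    Real.tendsto_log_atTop.comp tendsto_natCast_atTop_atTop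
  -- the function `g`
  obtain ⟨g, hg⟩ : ∃ g : ℝ → ℝ, g = fun L => 2 * C * ((3 + 2 * Real.log L) * L ^ (-(η / 2))) + L ^ (-(σ - 2 - η / 2)) :=
    ⟨_, rfl⟩
  have hc2 : 0 < σ - 2 - η / 2 := by linarith
  have g1 : Tendsto g atTop (𝓝 0) := by
    rw [hg]
    have := ((con_lim (η / 2) (by positivity)).const_mul (2 * C)).add (tendsto_rpow_neg_atTop hc2)
    simpa using this
  have g2 : Tendsto (fun L => (3 + 2 * Real.log L) * g L) atTop (𝓝 0) := by
    have h1 := (con_lim (η / 4) (by positivity)).mul (con_lim (η / 4) (by positivity))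
    have h2 := (h1.const_mul (2 * C)).add (con_lim (σ - 2 - η / 2) hc2)
    simp only [mul_zero, add_zero] at h2
    refine h2.congr' ?_
    filter_upwards [eventually_gt_atTop 0] with L hL0
    have e : L ^ (-(η / 2)) = L ^ (-(η / 4)) * L ^ (-(η / 4)) := by
      rw [← Real.rpow_add hL0]
      ring_nf
    rw [hg]
    simp only
    rw [e]
    ring
  have g3 : Tendsto (fun L : ℝ => (3 + 2 * Real.log L) * L ^ (-(1 : ℝ))) atTop (𝓝 0) := con_lim 1 one_pos
  -- the size of `z`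
  have hz2 : ∀ᶠ n : ℕ in atTop, 2 * Real.log n < MM (n ^ 2) := by
    have h1 : Tendsto (fun n : ℕ => n ^ 2) atTop atTop := tendsto_pow_atTop (by norm_num)
    have h2 : 1 < Real.exp Real.eulerMascheroniConstant := by
      have := Real.one_half_lt_eulerMascheroniConstant
      exact Real.one_lt_exp_iff.2 (by linarith)
    filter_upwards [h1.eventually (hM.eventually (lt_mem_nhds h2)), eventually_ge_atTop 2] with n h3 h4
    have h5 : (2 : ℝ) ≤ n := by exact_mod_cast h4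
    have h6 : Real.log ((n ^ 2 : ℕ) : ℝ) = 2 * Real.log n := by
      push_cast
      rw [Real.log_pow]
      norm_num
    have h7 : 0 < Real.log (n : ℝ) := Real.log_pos (by linarith)
    rw [h6, lt_div_iff₀ (by linarith)] at h3
    linarith
  have hUn : ∀ᶠ n : ℕ in atTop, Real.log n ^ σ' ≤ n := by
    have h1 : ∀ᶠ x : ℝ in atTop, Real.log x ^ σ' ≤ x := by
      have h2 := isLittleO_log_rpow_rpow_atTop (r := σ') (s := 1) one_pos
      filter_upwards [h2.bound (show (0:ℝ) < 1 by norm_num), eventually_ge_atTop 1] with x h3 h4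
      rw [Real.rpow_one, one_mul, Real.norm_eq_abs, Real.norm_eq_abs, abs_of_nonneg (by linarith : (0:ℝ) ≤ x)] at h3
      exact (le_abs_self _).trans h3
    exact tendsto_natCast_atTop_atTop.eventually h1
  filter_upwards [hz2, hUn, hL.eventually (g1.eventually (gt_mem_nhds (show (0:ℝ) < 1 / 4 by norm_num))),
    hL.eventually (g2.eventually (gt_mem_nhds (show (0:ℝ) < ε / (16 * C) by positivity))),
    hL.eventually (g3.eventually (gt_mem_nhds (show (0:ℝ) < 1 / (2 * C) by positivity))),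
    hL.eventually_ge_atTop 3] with n hz2 hUn hg1 hg2 hg3 hL3
  intro U z hU1 hU2 hz3 hz4
  obtain ⟨L, hLd⟩ : ∃ L : ℝ, L = Real.log n := ⟨_, rfl⟩
  rw [← hLd] at hz2 hUn hg1 hg2 hg3 hL3 hU1 hU2 hz3 hz4 ⊢
  have hL0 : 0 < L := by linarith
  obtain ⟨l, hld⟩ : ∃ l : ℝ, l = L ^ (2 + η / 2) / U := ⟨_, rfl⟩
  obtain ⟨w, hwd⟩ : ∃ w : ℕ, w = ⌈L ^ (1 + η)⌉₊ := ⟨_, rfl⟩
  rw [← hld, ← hwd]
  obtain ⟨E, hE⟩ : ∃ E : ℝ, E = L ^ (1 + η) := ⟨_, rfl⟩
  have hE3 : 3 ≤ E := by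
    rw [hE]
    calc (3 : ℝ) ≤ L := hL3
      _ = L ^ (1 : ℝ) := (Real.rpow_one L).symm
      _ ≤ L ^ (1 + η) := Real.rpow_le_rpow_of_exponent_le (by linarith) (by linarith)
  have hE2 : E ≤ L ^ 2 := by
    rw [hE, ← Real.rpow_natCast]
    exact Real.rpow_le_rpow_of_exponent_le (by linarith) (by push_cast; linarith)
  have hwE : E ≤ w := by rw [hwd, ← hE]; exact Nat.le_ceil _
  have hwE2 : (w : ℝ) ≤ 2 * E := by
    rw [hwd, ← hE]
    have := Nat.ceil_lt_add_one (show 0 ≤ E by linarith)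
    linarith
  have hw1 : 1 ≤ w := by
    have : (1 : ℝ) ≤ w := by linarith
    exact_mod_cast this
  have hw3 : (3 : ℝ) ≤ w := by linarith
  obtain ⟨ℓ, hℓ⟩ : ∃ ℓ : ℝ, ℓ = 3 + 2 * Real.log L := ⟨_, rfl⟩
  have hlw : 2 + Real.log w ≤ ℓ := by
    have h1 : Real.log w ≤ Real.log (2 * L ^ 2) :=
      Real.log_le_log (by linarith) (by nlinarith)
    rw [Real.log_mul (by norm_num) (by positivity), Real.log_pow] at h1
    have := Real.log_two_lt_d9
    push_cast at h1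
    rw [hℓ]
    linarith
  have hlw0 : 0 ≤ Real.log w := Real.log_nonneg (by linarith)
  have hℓ0 : 0 < ℓ := by linarith
  rw [← hℓ] at hg2 hg3
  have hgL : g L = 2 * C * (ℓ * L ^ (-(η / 2))) + L ^ (-(σ - 2 - η / 2)) := by rw [hg, hℓ]
  have hU0 : (0 : ℝ) < U := lt_of_lt_of_le (Real.rpow_pos_of_pos hL0 _) hU1
  have hMz : 0 < MM z := con_MM_pos z
  have hMw : 0 < MM w := con_MM_pos w
  have hMwl : MM w ≤ C * ℓ := (hCm w hw1).trans (mul_le_mul_of_nonneg_left (by linarith) hC.le)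
  -- (b)
  have hwz : w ≤ z := by
    by_contra h
    push Not at h
    have h1 := con_MM_mono h.le
    rw [Real.rpow_neg_one, ← div_eq_mul_inv, div_lt_div_iff₀ hL0 (by positivity)] at hg3
    nlinarith
  have hl0 : 0 ≤ l := by rw [hld]; positivity
  have hlU : l * U = L ^ (2 + η / 2) := by rw [hld]; field_simp
  -- `l ≤ L^(2+η/2-σ)`
  have hll : l ≤ L ^ (-(σ - 2 - η / 2)) := by
    rw [hld, div_le_iff₀ hU0]
    calc L ^ (2 + η / 2) = L ^ (-(σ - 2 - η / 2)) * L ^ σ := by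
          rw [← Real.rpow_add hL0]
          ring_nf
      _ ≤ _ := mul_le_mul_of_nonneg_left hU1 (Real.rpow_nonneg hL0.le _)
  have hpow : L ^ (2 + η / 2) / (E * L) = L ^ (-(η / 2)) := by
    rw [hE, div_eq_iff (by positivity)]
    rw [← Real.rpow_add_one hL0.ne', ← Real.rpow_add hL0]
    ring_nf
  -- `l DD ≤ g`
  have hlD : l * DD w z U ≤ g L := by
    have h1 := mul_le_mul_of_nonneg_left (hCD w z U hw1) hl0
    refine h1.trans ?_
    rw [mul_add, mul_one, hgL]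
    refine add_le_add ?_ hll
    have h2 : (2 + Real.log w) / (w * MM z) ≤ ℓ / (E * (L / 2)) := by
      apply div_le_div₀ hℓ0.le hlw (by positivity)
      exact mul_le_mul hwE hz3 (by positivity) (by positivity)
    calc l * (C * U * ((2 + Real.log w) / (w * MM z))) = C * (l * U) * ((2 + Real.log w) / (w * MM z)) := by ring
      _ ≤ C * (l * U) * (ℓ / (E * (L / 2))) := mul_le_mul_of_nonneg_left h2 (by positivity)
      _ = 2 * C * (ℓ * (L ^ (2 + η / 2) / (E * L))) := by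
        rw [hlU]
        field_simp
      _ = _ := by rw [hpow]
  have hg0 : 0 ≤ g L := by rw [hgL]; positivity
  refine ⟨?_, ?_, hl0, hwz, by nlinarith, ?_, ?_⟩
  · exact_mod_cast hU2.trans hUn
  · by_contra h
    push Not at h
    have h1 := con_MM_mono h.le
    linarith
  · intro p hp hwp hpz
    have hMp : 0 < MM p := con_MM_pos p
    have hpz' : MM p ≤ MM z := con_MM_mono hpz
    have hwp' : (w : ℝ) < p := by exact_mod_cast hwp
    have hp0 : (0 : ℝ) < p := by linarith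
    have h1 : MM p / MM z ≤ 1 := (div_le_one hMz).2 hpz'
    have h2 : (1 + Real.log p) / p ≤ ℓ / E := by
      have h3 : Real.log p / p ≤ Real.log w / w := by
        have he : Real.exp 1 ≤ w := by
          have := Real.exp_one_lt_d9
          linarith
        exact Real.log_div_self_antitoneOn (by simpa using he) (by simpa using he.trans hwp'.le) hwp'.le
      have h4 : (1 : ℝ) / p ≤ 1 / w := one_div_le_one_div_of_le (by linarith) hwp'.le
      calc (1 + Real.log p) / p = 1 / p + Real.log p / p := by ring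
        _ ≤ 1 / w + Real.log w / w := add_le_add h4 h3
        _ = (1 + Real.log w) / w := by ring
        _ ≤ ℓ / E := div_le_div₀ hℓ0.le (by linarith) (by linarith) hwE
    have h5 : MM p / p ≤ C * (ℓ / E) := by
      calc MM p / p ≤ C * (1 + Real.log p) / p := div_le_div_of_nonneg_right (hCm p (by omega)) hp0.le
        _ = C * ((1 + Real.log p) / p) := by ring
        _ ≤ _ := mul_le_mul_of_nonneg_left h2 hC.le
    have h6 : 2 * l * (MM p / MM z) * ((U : ℝ) / p) ≤ 2 * (2 * C * (ℓ * L ^ (-(η / 2)))) := by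
      calc 2 * l * (MM p / MM z) * ((U : ℝ) / p) = 2 * (l * U) * (MM p / p) * (1 / MM z) := by ring
        _ ≤ 2 * (l * U) * (C * (ℓ / E)) * (1 / (L / 2)) := by
          apply mul_le_mul _ _ (by positivity) (by positivity)
          · exact mul_le_mul_of_nonneg_left h5 (by positivity)
          · exact one_div_le_one_div_of_le (by positivity) hz3
        _ = 2 * (2 * C * (ℓ * (L ^ (2 + η / 2) / (E * L)))) := by
          rw [hlU]
          field_simp
        _ = _ := by rw [hpow]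
    have h7 : 2 * l * (MM p / MM z) ≤ 2 * l := by
      have := mul_le_mul_of_nonneg_left h1 (show 0 ≤ 2 * l by linarith)
      linarith
    rw [mul_add, mul_one]
    rw [hgL] at hg1
    have h8 : 0 ≤ L ^ (-(σ - 2 - η / 2)) := Real.rpow_nonneg hL0.le _
    nlinarith
  · have h1 : l * (ε * (U / L)) = ε * L ^ (1 + η / 2) := by
      have e : L ^ (2 + η / 2) = L ^ (1 + η / 2) * L := by
        rw [← Real.rpow_add_one hL0.ne']
        ring_nf
      calc l * (ε * (U / L)) = ε * (l * U) / L := by ring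
        _ = _ := by rw [hlU, e]; field_simp
    rw [h1]
    have h2 : MM w / MM z ≤ C * ℓ / (L / 2) := div_le_div₀ (by positivity) hMwl (by positivity) hz3
    have h3 : 4 * l ^ 2 * DD w z U * (MM w / MM z) * U = 4 * (l * DD w z U) * (MM w / MM z) * (l * U) := by ring
    rw [h3]
    have h4 : 4 * (l * DD w z U) * (MM w / MM z) * (l * U) ≤ 4 * g L * (C * ℓ / (L / 2)) * (l * U) := by
      apply mul_le_mul_of_nonneg_right _ (by positivity)
      exact mul_le_mul (by linarith) h2 (by positivity) (by positivity)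
    refine (add_le_add_right h4 _).trans ?_
    have e : L ^ (2 + η / 2) = L ^ (1 + η / 2) * L := by
      rw [← Real.rpow_add_one hL0.ne']
      ring_nf
    have h5 : 4 * g L * (C * ℓ / (L / 2)) * (l * U) = 8 * C * (ℓ * g L) * L ^ (1 + η / 2) := by
      rw [hlU, e]
      field_simp
      ring
    rw [h5]
    have h6 : 8 * C * (ℓ * g L) ≤ ε / 2 := by
      rw [lt_div_iff₀ (by positivity)] at hg2
      linarith
    have h7 : 0 < L ^ (1 + η / 2) := Real.rpow_pos_of_pos hL0 _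
    nlinarith

/-- the bad event at `n` -/
def Bad {Ω : Type} (a : ℕ → Ω → ℕ) (k : ℕ) (σ σ' ε : ℝ) (n : ℕ) : Set Ω :=
  {ω | ∃ U z : ℕ, Real.log n ^ σ ≤ U ∧ (U : ℝ) ≤ Real.log n ^ σ' ∧
    Real.log n / 2 ≤ MM z ∧ MM z ≤ 2 * Real.log n ∧
    ε * (U / Real.log n) < |(sv (fun q => a q ω) z n U : ℝ) -
      sv (fun q => a q ω) (lv k n) n U * (MM (lv k n) / MM z)|}

lemma con_sum_small {η ε : ℝ} (hη : 0 < η) (hε : 0 < ε) : ∀ᶠ n : ℕ in atTop,
    ((n : ℝ) + 1) * ((n : ℝ) ^ 2 + 1) * (2 * Real.exp (-(ε / 2 * Real.log n ^ (1 + η / 2)))) ≤ 1 / (n : ℝ) ^ 2 := by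
  have hL : Tendsto (fun n : ℕ => Real.log (n : ℝ)) atTop atTop :=
    Real.tendsto_log_atTop.comp tendsto_natCast_atTop_atTop
  have h1 : ∀ᶠ L : ℝ in atTop, 16 / ε ≤ L ^ (η / 2) :=
    (tendsto_rpow_atTop (show 0 < η / 2 by positivity)).eventually_ge_atTop _
  filter_upwards [hL.eventually h1, hL.eventually_gt_atTop 0, eventually_ge_atTop 2] with n h2 h3 h4
  have hn : (2 : ℝ) ≤ n := by exact_mod_cast h4
  have hn0 : (0 : ℝ) < n := by linarith
  rw [div_le_iff₀ hε] at h2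
  have h5 : 8 * Real.log n ≤ ε / 2 * Real.log n ^ (1 + η / 2) := by
    rw [Real.rpow_add h3, Real.rpow_one]
    nlinarith
  have h6 : Real.exp (-(ε / 2 * Real.log n ^ (1 + η / 2))) ≤ 1 / (n : ℝ) ^ 8 := by
    calc Real.exp (-(ε / 2 * Real.log n ^ (1 + η / 2))) ≤ Real.exp (-(8 * Real.log n)) :=
          Real.exp_le_exp.2 (neg_le_neg h5)
      _ = 1 / (n : ℝ) ^ 8 := by
        rw [Real.exp_neg, one_div]
        congr 1
        rw [show 8 * Real.log (n : ℝ) = Real.log ((n : ℝ) ^ 8) by rw [Real.log_pow]; norm_num,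
          Real.exp_log (by positivity)]
  have h7 : ((n : ℝ) + 1) * ((n : ℝ) ^ 2 + 1) * 2 ≤ (n : ℝ) ^ 6 := by
    have a1 : ((n : ℝ) + 1) ≤ (n : ℝ) ^ 2 := by nlinarith
    have a2 : ((n : ℝ) ^ 2 + 1) ≤ (n : ℝ) ^ 3 := by nlinarith [sq_nonneg ((n : ℝ) - 1), mul_nonneg hn0.le (sq_nonneg (n:ℝ))]
    calc ((n : ℝ) + 1) * ((n : ℝ) ^ 2 + 1) * 2 ≤ (n : ℝ) ^ 2 * (n : ℝ) ^ 3 * n := by
          apply mul_le_mul (mul_le_mul a1 a2 (by positivity) (by positivity)) hn (by norm_num) (by positivity)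
      _ = (n : ℝ) ^ 6 := by ring
  calc ((n : ℝ) + 1) * ((n : ℝ) ^ 2 + 1) * (2 * Real.exp (-(ε / 2 * Real.log n ^ (1 + η / 2))))
      = ((n : ℝ) + 1) * ((n : ℝ) ^ 2 + 1) * 2 * Real.exp (-(ε / 2 * Real.log n ^ (1 + η / 2))) := by ring
    _ ≤ (n : ℝ) ^ 6 * (1 / (n : ℝ) ^ 8) := mul_le_mul h7 h6 (Real.exp_pos _).le (by positivity)
    _ = 1 / (n : ℝ) ^ 2 := by field_simp

theorem con_bad (hT : S_TAIL) (hD : S_DSUM) (hM : S_MERT) {Ω : Type} [MeasurableSpace Ω] {P : Measure Ω}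
    {a : ℕ → Ω → ℕ} (hmod : Model P a) {k : ℕ} {σ σ' ε : ℝ} (hk : 1 ≤ k) (hσ : 2 + 1 / (k : ℝ) < σ) (hε : 0 < ε) :
    ∀ᵐ ω ∂P, ∀ᶠ n : ℕ in atTop, ω ∉ Bad a k σ σ' ε n := by
  obtain ⟨C, hC, hCm, hCD⟩ := hD
  have hk1 : (1 : ℝ) ≤ k := by exact_mod_cast hk
  have hη : (0 : ℝ) < 1 / (k : ℝ) := by positivity
  have hη1 : 1 / (k : ℝ) ≤ 1 := by
    rw [div_le_one (by linarith)]
    exact hk1
  have hev : ∀ᶠ n : ℕ in atTop, P (Bad a k σ σ' ε n) ≤ ENNReal.ofReal (1 / (n : ℝ) ^ 2) := by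
    filter_upwards [con_num hC hη hη1 hσ hε hCm hCD hM (σ' := σ'), con_sum_small hη hε] with n h1 h2
    have hsub : Bad a k σ σ' ε n ⊆ ⋃ U ∈ Finset.range (n + 1), ⋃ z ∈ Finset.range (n ^ 2 + 1),
        {ω | Real.log n ^ σ ≤ U ∧ (U : ℝ) ≤ Real.log n ^ σ' ∧
          Real.log n / 2 ≤ MM z ∧ MM z ≤ 2 * Real.log n ∧
          ε * (U / Real.log n) < |(sv (fun q => a q ω) z n U : ℝ) -
            sv (fun q => a q ω) (lv k n) n U * (MM (lv k n) / MM z)|} := by
      rintro ω ⟨U, z, e1, e2, e3, e4, e5⟩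
      obtain ⟨c1, c2, _⟩ := h1 U z e1 e2 e3 e4
      simp only [Set.mem_iUnion, Finset.mem_range]
      exact ⟨U, by omega, z, by omega, e1, e2, e3, e4, e5⟩
    have hone : ∀ U z : ℕ, P {ω | Real.log n ^ σ ≤ U ∧ (U : ℝ) ≤ Real.log n ^ σ' ∧
          Real.log n / 2 ≤ MM z ∧ MM z ≤ 2 * Real.log n ∧
          ε * (U / Real.log n) < |(sv (fun q => a q ω) z n U : ℝ) -
            sv (fun q => a q ω) (lv k n) n U * (MM (lv k n) / MM z)|} ≤
        ENNReal.ofReal (2 * Real.exp (-(ε / 2 * Real.log n ^ (1 + 1 / (k : ℝ) / 2)))) := by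
      intro U z
      by_cases hc : Real.log n ^ σ ≤ U ∧ (U : ℝ) ≤ Real.log n ^ σ' ∧
          Real.log n / 2 ≤ MM z ∧ MM z ≤ 2 * Real.log n
      · obtain ⟨c1, c2, c3, c4, c5, c6, c7⟩ := h1 U z hc.1 hc.2.1 hc.2.2.1 hc.2.2.2
        have h3 := hT Ω P a hmod n U (lv k n) z (Real.log n ^ (2 + 1 / (k : ℝ) / 2) / U) (ε * (U / Real.log n))
          c3 c4 c5 c6
        refine (measure_mono ?_).trans (h3.trans ?_)
        · intro ω hω
          exact hω.2.2.2.2
        · apply ENNReal.ofReal_le_ofReal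
          apply mul_le_mul_of_nonneg_left _ (by norm_num)
          exact Real.exp_le_exp.2 c7
      · have : {ω | Real.log n ^ σ ≤ U ∧ (U : ℝ) ≤ Real.log n ^ σ' ∧
          Real.log n / 2 ≤ MM z ∧ MM z ≤ 2 * Real.log n ∧
          ε * (U / Real.log n) < |(sv (fun q => a q ω) z n U : ℝ) -
            sv (fun q => a q ω) (lv k n) n U * (MM (lv k n) / MM z)|} = ∅ := by
          ext ω
          simp only [Set.mem_ofPred_eq, Set.mem_empty_iff_false, iff_false]
          rintro ⟨e1, e2, e3, e4, _⟩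
          exact hc ⟨e1, e2, e3, e4⟩
        rw [this, measure_empty]
        exact bot_le
    refine (measure_mono hsub).trans ?_
    refine (measure_biUnion_finset_le _ _).trans ?_
    refine (Finset.sum_le_sum fun U _ => (measure_biUnion_finset_le _ _).trans
      (Finset.sum_le_sum fun z _ => hone U z)).trans ?_
    rw [Finset.sum_const, Finset.sum_const, Finset.card_range, Finset.card_range, nsmul_eq_mul, nsmul_eq_mul,
      ← ENNReal.ofReal_natCast, ← ENNReal.ofReal_natCast, ← ENNReal.ofReal_mul (Nat.cast_nonneg _),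
      ← ENNReal.ofReal_mul (Nat.cast_nonneg _)]
    apply ENNReal.ofReal_le_ofReal
    push_cast
    refine le_trans (le_of_eq ?_) h2
    ring
  obtain ⟨n0, hn0⟩ := eventually_atTop.1 hev
  have hsum : ∑' n : ℕ, P (Bad a k σ σ' ε (n + n0)) ≠ ⊤ := by
    have h1 : ∑' n : ℕ, P (Bad a k σ σ' ε (n + n0)) ≤ ∑' n : ℕ, ENNReal.ofReal (1 / ((n + n0 : ℕ) : ℝ) ^ 2) :=
      ENNReal.tsum_le_tsum fun n => hn0 (n + n0) (by omega)
    have h2 : Summable fun n : ℕ => 1 / ((n + n0 : ℕ) : ℝ) ^ 2 :=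
      (summable_nat_add_iff (f := fun n : ℕ => 1 / (n : ℝ) ^ 2) n0).2 (Real.summable_one_div_nat_pow.2 (by norm_num))
    exact ne_top_of_le_ne_top (h2.tsum_ofReal_ne_top) h1
  filter_upwards [ae_eventually_notMem hsum] with ω hω
  obtain ⟨m, hm⟩ := eventually_atTop.1 hω
  filter_upwards [eventually_ge_atTop (m + n0)] with n hn
  have := hm (n - n0) (by omega)
  rwa [Nat.sub_add_cancel (by omega)] at this

theorem con (hT : S_TAIL) (hD : S_DSUM) (hM : S_MERT) : S_CON := by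
  intro Ω _ P a hmod
  have hall : ∀ᵐ ω ∂P, ∀ (k : ℕ) (σ σ' : ℚ) (j : ℕ), 1 ≤ k → 2 + 1 / (k : ℝ) < σ →
      ∀ᶠ n : ℕ in atTop, ω ∉ Bad a k σ σ' (1 / ((j : ℝ) + 1)) n := by
    rw [ae_all_iff]
    intro k
    rw [ae_all_iff]
    intro σ
    rw [ae_all_iff]
    intro σ'
    rw [ae_all_iff]
    intro j
    by_cases hk : 1 ≤ k
    · by_cases hσ : 2 + 1 / (k : ℝ) < σ
      · filter_upwards [con_bad hT hD hM hmod hk hσ (show (0:ℝ) < 1 / ((j : ℝ) + 1) by positivity) (σ' := σ')] with ω hω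
        exact fun _ _ => hω
      · exact Eventually.of_forall fun ω _ h => absurd h hσ
    · exact Eventually.of_forall fun ω h _ => absurd h hk
  filter_upwards [hall] with ω hω
  intro k σ σ' hk hσ hσσ' ε hε
  obtain ⟨τ, hτ1, hτ2⟩ := exists_rat_btwn hσ
  obtain ⟨τ', hτ'⟩ := exists_rat_gt σ'
  obtain ⟨j, hj⟩ := exists_nat_one_div_lt hε
  have hL : Tendsto (fun n : ℕ => Real.log (n : ℝ)) atTop atTop :=
    Real.tendsto_log_atTop.comp tendsto_natCast_atTop_atTop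
  filter_upwards [hω k τ τ' j hk hτ1, hL.eventually_ge_atTop 1] with n h1 h2
  intro U z hU1 hU2 hz1 hz2
  by_contra hcon
  push Not at hcon
  apply h1
  refine ⟨U, z, (Real.rpow_le_rpow_of_exponent_le h2 hτ2.le).trans hU1,
    hU2.trans (Real.rpow_le_rpow_of_exponent_le h2 hτ'.le), hz1, hz2, lt_of_le_of_lt ?_ hcon⟩
  exact mul_le_mul_of_nonneg_right hj.le (by positivity)

end Pool.Agent.H50.BF
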