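import Pool.Agent.H50.BF.Stm

set_option autoImplicit false

namespace Pool.Agent.H50.BF

open Finset

/-- Chinese remainder theorem for the primes up to `w` -/
lemma crt_aux (a : ℕ → ℕ) (w : ℕ) : ∃ N : ℕ, ∀ p : ℕ, p.Prime → p ≤ w → (a p + N) % p = 0 := by
  classical
  obtain ⟨N, hN⟩ := Nat.chineseRemainderOfFinset (fun p => a p * (p - 1)) (fun p : ℕ => p)
    ((Icc 1 w).filter Nat.Prime) (fun p hp => (mem_filter.1 hp).2.ne_zero)
    (fun p hp q hq hpq => (Nat.coprime_primes (mem_filter.1 hp).2 (mem_filter.1 hq).2).2 hpq)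
  refine ⟨N, fun p hp hpw => ?_⟩
  have h := hN p (mem_filter.2 ⟨mem_Icc.2 ⟨hp.one_lt.le, hpw⟩, hp⟩)
  have h1 : a p + N ≡ a p + a p * (p - 1) [MOD p] := h.add_left _
  have h2 : a p + a p * (p - 1) = p * a p := by
    obtain ⟨k, hk⟩ : ∃ k, p = k + 1 := ⟨p - 1, by have := hp.one_lt; omega⟩
    rw [hk, Nat.add_sub_cancel]
    ring
  rw [h2] at h1
  rw [h1, Nat.mul_mod_right]

theorem crt : S_CRT := by
  classical
  have key : ∀ (a : ℕ → ℕ) (w : ℕ), ∃ N : ℕ, ∀ n U : ℕ,
      sv a w n U = sv (fun _ => 0) w (n + N) U := by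
    intro a w
    obtain ⟨N, hN⟩ := crt_aux a w
    refine ⟨N, fun n U => ?_⟩
    unfold sv
    congr 1
    refine Finset.filter_congr fun k _ => ?_
    refine forall_congr' fun p => forall_congr' fun hp => forall_congr' fun hpw => ?_
    refine not_congr ?_
    have h := hN p hp hpw
    constructor
    · intro h1
      have h2 : n + k + 1 + N ≡ a p + N [MOD p] := Nat.ModEq.add_right N h1
      have h3 : (n + N + k + 1) % p = (a p + N) % p := by
        rw [show n + N + k + 1 = n + k + 1 + N by ring]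
        exact h2
      rw [h3, h, Nat.zero_mod]
    · intro h1
      have h2 : n + k + 1 + N ≡ a p + N [MOD p] := by
        change (n + k + 1 + N) % p = (a p + N) % p
        rw [h, show n + k + 1 + N = n + N + k + 1 by ring, h1, Nat.zero_mod]
      exact Nat.ModEq.add_right_cancel' N h2
  refine ⟨key, fun a w t X hX => ?_⟩
  obtain ⟨N, hN⟩ := key a w
  have hQ : 0 < primorial w := primorial_pos w
  set Q := primorial w with hQd
  refine ⟨X + (t + (X + N) * (Q - 1)) % Q, by omega, ?_, fun U => ?_⟩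
  · have := Nat.mod_lt (t + (X + N) * (Q - 1)) hQ
    omega
  rw [hN]
  have hm : X + (t + (X + N) * (Q - 1)) % Q + N ≡ t [MOD Q] := by
    have h1 : (t + (X + N) * (Q - 1)) % Q ≡ t + (X + N) * (Q - 1) [MOD Q] := Nat.mod_modEq _ _
    have h2 : X + (t + (X + N) * (Q - 1)) % Q + N ≡ X + (t + (X + N) * (Q - 1)) + N [MOD Q] :=
      (h1.add_left X).add_right N
    have h3 : X + (t + (X + N) * (Q - 1)) + N = t + Q * (X + N) := by
      obtain ⟨k, hk⟩ : ∃ k, Q = k + 1 := ⟨Q - 1, by omega⟩
      rw [hk, Nat.add_sub_cancel]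
      ring
    rw [h3] at h2
    refine h2.trans ?_
    change (t + Q * (X + N)) % Q = t % Q
    rw [Nat.add_mul_mod_self_left]
  unfold sv
  congr 1
  refine Finset.filter_congr fun k _ => ?_
  refine forall_congr' fun p => forall_congr' fun hp => forall_congr' fun hpw => ?_
  have hpQ : p ∣ Q := by
    rw [hQd, primorial]
    exact dvd_prod_of_mem _ (mem_filter.2 ⟨mem_range.2 (by omega), hp⟩)
  have h : X + (t + (X + N) * (Q - 1)) % Q + N + k + 1 ≡ t + k + 1 [MOD p] :=
    ((hm.of_dvd hpQ).add_right k).add_right 1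
  rw [show (X + (t + (X + N) * (Q - 1)) % Q + N + k + 1) % p = (t + k + 1) % p from h]

end Pool.Agent.H50.BF
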