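import Pool.Agent.H50.BF.MMB

/-! # BF-DSUM (helper56) -/

set_option autoImplicit false

open MeasureTheory Filter
open scoped Topology ENNReal

namespace Pool.Agent.H50.BF

/-- `MM p / p = MM p - MM (p - 1)` -/
lemma MM_div {v : ℕ} (hv : (v + 1).Prime) : MM (v + 1) * (1 / ((v + 1 : ℕ) : ℝ)) = MM (v + 1) - MM v := by
  have := MM_succ_prime hv
  rw [one_div]
  linarith

lemma tele {m : ℕ} (hm : 2 ≤ m) : (1 + Real.log m) / (m : ℝ) ^ 2 ≤
    (2 + Real.log ((m - 1 : ℕ) : ℝ)) / ((m - 1 : ℕ) : ℝ) - (2 + Real.log m) / m := by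
  rcases Nat.lt_or_ge m 3 with h3 | h3
  · obtain rfl : m = 2 := by omega
    norm_num
    have := Real.log_two_lt_d9
    linarith
  · obtain ⟨k, rfl⟩ : ∃ k, m = k + 1 := ⟨m - 1, by omega⟩
    rw [Nat.add_sub_cancel]
    push_cast
    have hk : (2 : ℝ) ≤ k := by exact_mod_cast (by omega : 2 ≤ k)
    have hk0 : (0 : ℝ) < k := by linarith
    have h1 : Real.log ((k : ℝ) + 1) ≤ Real.log k + 1 / k := by
      have h2 : Real.log ((k : ℝ) + 1) = Real.log k + Real.log (1 + 1 / k) := by
        rw [← Real.log_mul hk0.ne' (by positivity)]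
        congr 1
        field_simp
      have h3 := Real.log_le_sub_one_of_pos (show 0 < 1 + 1 / (k : ℝ) by positivity)
      linarith
    have h4 : 1 ≤ Real.log ((k : ℝ) + 1) := by
      rw [Real.le_log_iff_exp_le (by linarith)]
      linarith [Real.exp_one_lt_d9]
    obtain ⟨L, hL⟩ : ∃ L, L = Real.log ((k : ℝ) + 1) := ⟨_, rfl⟩
    rw [← hL] at h1 h4 ⊢
    have h5 : (2 + (L - 1 / k)) / k ≤ (2 + Real.log k) / k :=
      div_le_div_of_nonneg_right (by linarith) hk0.le
    refine le_trans ?_ (sub_le_sub_right h5 _)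
    have h6 : (2 + (L - 1 / k)) / k - (2 + L) / (k + 1) - (1 + L) / ((k : ℝ) + 1) ^ 2 =
        (L * k - 1) / ((k : ℝ) ^ 2 * (k + 1) ^ 2) := by
      field_simp
      ring
    have h7 : 0 ≤ (L * k - 1) / ((k : ℝ) ^ 2 * (k + 1) ^ 2) := by
      apply div_nonneg _ (by positivity)
      nlinarith
    linarith

/-- telescoping over `Ioc w z` -/
lemma sum_tele (f : ℕ → ℝ) (w z : ℕ) (h : w ≤ z) :
    ∑ m ∈ Finset.Ioc w z, (f m - f (m - 1)) = f z - f w := by
  induction z, h using Nat.le_induction with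
  | base => simp
  | succ k hk ih =>
    rw [← Finset.insert_Ioc_right_eq_Ioc_add_one hk, Finset.sum_insert (by simp), ih,
      Nat.add_sub_cancel]
    ring

theorem dsum : S_MERT → S_DSUM := by
  intro hM
  obtain ⟨E, hE⟩ : ∃ E, E = Real.exp Real.eulerMascheroniConstant := ⟨_, rfl⟩
  have hE0 : 0 < E := by rw [hE]; exact Real.exp_pos _
  unfold S_MERT at hM
  rw [← hE] at hM
  have h1 := hM.eventually_le_const (show E < E + 1 by linarith)
  obtain ⟨N, hN⟩ := eventually_atTop.mp (h1.and (eventually_ge_atTop 3))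
  obtain ⟨C, hC⟩ : ∃ C, C = max (E + 1) (MM (N + 3)) := ⟨_, rfl⟩
  have hC1 : E + 1 ≤ C := by rw [hC]; exact le_max_left _ _
  have hC2 : MM (N + 3) ≤ C := by rw [hC]; exact le_max_right _ _
  have hC0 : 0 < C := by linarith
  have hMM : ∀ m : ℕ, 1 ≤ m → MM m ≤ C * (1 + Real.log m) := by
    intro m hm
    have hm1 : (1 : ℝ) ≤ m := by exact_mod_cast hm
    have hlog : 0 ≤ Real.log m := Real.log_nonneg hm1
    rcases Nat.lt_or_ge m (N + 3) with h | h
    · have h2 : MM m ≤ C := (MM_mono h.le).trans hC2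
      nlinarith
    · have h2 := (hN m (by omega)).1
      have h3 : 0 < Real.log m := Real.log_pos (by exact_mod_cast (by omega : 1 < m))
      rw [div_le_iff₀ h3] at h2
      nlinarith
  refine ⟨C, hC0, hMM, ?_⟩
  intro w z U hw
  have hz := MM_pos z
  have hw1 : (1 : ℝ) ≤ w := by exact_mod_cast hw
  have hw0 : (0 : ℝ) < w := by linarith
  have hU0 : (0 : ℝ) ≤ U := Nat.cast_nonneg U
  have hlogw : 0 ≤ Real.log w := Real.log_nonneg hw1
  rcases Nat.lt_or_ge z w with hzw | hwz
  · have h2 : DD w z U = 0 := by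
      unfold DD
      rw [Finset.Ioc_eq_empty (by omega)]
      simp
    rw [h2]
    positivity
  · have h2 : DD w z U = (U : ℝ) / MM z * ∑ p ∈ (Finset.Ioc w z).filter Nat.Prime, MM p / (p : ℝ) ^ 2 +
        1 / MM z * ∑ p ∈ (Finset.Ioc w z).filter Nat.Prime, MM p * (1 / (p : ℝ)) := by
      unfold DD
      rw [Finset.mul_sum, Finset.mul_sum, ← Finset.sum_add_distrib]
      refine Finset.sum_congr rfl fun p _ => ?_
      ring
    have h3 : ∑ p ∈ (Finset.Ioc w z).filter Nat.Prime, MM p * (1 / (p : ℝ)) ≤ MM z := by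
      calc ∑ p ∈ (Finset.Ioc w z).filter Nat.Prime, MM p * (1 / (p : ℝ))
          = ∑ p ∈ (Finset.Ioc w z).filter Nat.Prime, (MM p - MM (p - 1)) := by
            refine Finset.sum_congr rfl fun p hp => ?_
            have hpp := (Finset.mem_filter.mp hp).2
            obtain ⟨v, rfl⟩ : ∃ v, p = v + 1 := ⟨p - 1, by have := hpp.two_le; omega⟩
            rw [Nat.add_sub_cancel]
            exact MM_div hpp
        _ ≤ ∑ p ∈ Finset.Ioc w z, (MM p - MM (p - 1)) := by
            apply Finset.sum_le_sum_of_subset_of_nonneg (Finset.filter_subset _ _)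
            intro p _ _
            have := MM_mono (Nat.sub_le p 1)
            linarith
        _ = MM z - MM w := sum_tele MM w z hwz
        _ ≤ MM z := by linarith [MM_pos w]
    have h4 : ∑ p ∈ (Finset.Ioc w z).filter Nat.Prime, MM p / (p : ℝ) ^ 2 ≤
        C * ((2 + Real.log w) / w) := by
      calc ∑ p ∈ (Finset.Ioc w z).filter Nat.Prime, MM p / (p : ℝ) ^ 2
          ≤ ∑ p ∈ Finset.Ioc w z, MM p / (p : ℝ) ^ 2 := by
            apply Finset.sum_le_sum_of_subset_of_nonneg (Finset.filter_subset _ _)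
            intro p _ _
            have := MM_pos p
            positivity
        _ ≤ ∑ p ∈ Finset.Ioc w z, C * (((2 + Real.log ((p - 1 : ℕ) : ℝ)) / ((p - 1 : ℕ) : ℝ)) -
              (2 + Real.log p) / p) := by
            apply Finset.sum_le_sum
            intro p hp
            rw [Finset.mem_Ioc] at hp
            have h5 : MM p / (p : ℝ) ^ 2 ≤ C * (1 + Real.log p) / (p : ℝ) ^ 2 :=
              div_le_div_of_nonneg_right (hMM p (by omega)) (by positivity)
            refine h5.trans ?_
            rw [mul_div_assoc]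
            exact mul_le_mul_of_nonneg_left (tele (by omega)) hC0.le
        _ = C * ((2 + Real.log w) / w - (2 + Real.log z) / z) := by
            rw [← Finset.mul_sum]
            congr 1
            have h5 := sum_tele (fun m : ℕ => -((2 + Real.log m) / m)) w z hwz
            have h6 : ∑ p ∈ Finset.Ioc w z, (((2 + Real.log ((p - 1 : ℕ) : ℝ)) / ((p - 1 : ℕ) : ℝ)) -
                (2 + Real.log p) / p) = ∑ m ∈ Finset.Ioc w z, (-((2 + Real.log m) / m) -
                  -((2 + Real.log ((m - 1 : ℕ) : ℝ)) / ((m - 1 : ℕ) : ℝ))) := by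
              refine Finset.sum_congr rfl fun m _ => ?_
              ring
            rw [h6, h5]
            ring
        _ ≤ C * ((2 + Real.log w) / w) := by
            apply mul_le_mul_of_nonneg_left _ hC0.le
            have : 0 ≤ (2 + Real.log z) / z := by
              have : 0 ≤ Real.log z := Real.log_natCast_nonneg z
              positivity
            linarith
    rw [h2]
    have h5 : (U : ℝ) / MM z * ∑ p ∈ (Finset.Ioc w z).filter Nat.Prime, MM p / (p : ℝ) ^ 2 ≤
        (U : ℝ) / MM z * (C * ((2 + Real.log w) / w)) :=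
      mul_le_mul_of_nonneg_left h4 (by positivity)
    have h6 : 1 / MM z * ∑ p ∈ (Finset.Ioc w z).filter Nat.Prime, MM p * (1 / (p : ℝ)) ≤
        1 / MM z * MM z :=
      mul_le_mul_of_nonneg_left h3 (by positivity)
    have h7 : 1 / MM z * MM z = 1 := by field_simp
    have h8 : (U : ℝ) / MM z * (C * ((2 + Real.log w) / w)) =
        C * U * ((2 + Real.log w) / (w * MM z)) := by
      field_simp
    linarith

end Pool.Agent.H50.BF
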