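import Pool.Agent.H50.BF.Stm

set_option autoImplicit false

open MeasureTheory Filter
open scoped Topology ENNReal

namespace Pool.Agent.H50.BF

open Classical in
/-- the uniform distribution on `{0, ..., p - 1}` -/
noncomputable def unif (p : ℕ) : Measure ℕ :=
  (PMF.uniformOfFinset (Finset.range (p - 1 + 1)) ⟨0, by simp⟩).toMeasure

instance (p : ℕ) : IsProbabilityMeasure (unif p) := by unfold unif; infer_instance

lemma unif_apply {p c : ℕ} (hp : 0 < p) (hc : c < p) : unif p {x | x % p = c} = ENNReal.ofReal ((p : ℝ)⁻¹) := by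
  classical
  unfold unif
  rw [PMF.toMeasure_uniformOfFinset_apply _ _ (MeasurableSet.of_discrete)]
  have h1 : ∀ inst : DecidablePred (fun x => x ∈ {x : ℕ | x % p = c}),
      @Finset.filter ℕ (fun x => x ∈ {x : ℕ | x % p = c}) inst (Finset.range (p - 1 + 1)) = {c} := by
    intro inst
    ext x
    simp only [Finset.mem_filter, Finset.mem_range, Set.mem_ofPred_eq, Finset.mem_singleton]
    constructor
    · rintro ⟨h1, h2⟩
      rwa [Nat.mod_eq_of_lt (by omega)] at h2
    · rintro rfl
      exact ⟨by omega, Nat.mod_eq_of_lt hc⟩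
  rw [h1, Finset.card_singleton, Finset.card_range, Nat.sub_add_cancel hp, Nat.cast_one, one_div,
    ENNReal.ofReal_inv_of_pos (by exact_mod_cast hp), ENNReal.ofReal_natCast]

theorem exm : ∃ (Ω : Type) (_ : MeasurableSpace Ω) (P : Measure Ω) (a : ℕ → Ω → ℕ), Model P a := by
  refine ⟨ℕ → ℕ, inferInstance, Measure.infinitePi unif, fun p ω => ω p, ⟨fun p => measurable_pi_apply p, ?_⟩⟩
  intro w c hc
  have h1 : {ω : ℕ → ℕ | ∀ p : ℕ, p.Prime → p ≤ w → ω p % p = c p} =
      Set.pi ((Finset.Icc 1 w).filter Nat.Prime : Finset ℕ) (fun p => {x | x % p = c p}) := by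
    ext ω
    simp only [Set.mem_ofPred_eq, Set.mem_pi, Finset.coe_filter, Finset.mem_Icc]
    constructor
    · rintro h p ⟨⟨_, h2⟩, h3⟩
      exact h p h3 h2
    · intro h p hp hpw
      exact h p ⟨⟨hp.one_lt.le, hpw⟩, hp⟩
  rw [h1, Measure.infinitePi_pi (X := fun _ => ℕ) (μ := unif) (s := (Finset.Icc 1 w).filter Nat.Prime)
      (t := fun p => {x | x % p = c p}) (fun _ _ => MeasurableSet.of_discrete),
    ENNReal.ofReal_prod_of_nonneg (fun p _ => by positivity)]
  refine Finset.prod_congr rfl fun p hp => ?_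
  have hp' := (Finset.mem_filter.1 hp).2
  exact unif_apply hp'.pos (hc p hp')

end Pool.Agent.H50.BF
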