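import Pool.Agent.H50.BF.Aux58

/-! # BF-EXTA (helper58) -/

set_option autoImplicit false

open MeasureTheory Filter
open scoped Topology ENNReal

namespace Pool.Agent.H50.BF

open A58

theorem exta (hC : S_CRT) (hS : S_SUB) : S_EXTA := by
  intro a s ε hs hε
  filter_upwards [tendsto_w.eventually (dens_cmp hS s (ε / 2) hs (by positivity)),
    tendsto_w.eventually (val_cmp hS s (ε / 2) hs (by positivity)), eventually_gt_atTop 0]
    with x h1 h2 hx
  set w := ⌊Real.log x⌋₊ with hw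
  obtain ⟨N, hN⟩ := hC.1 a w
  have h3 := h1 a x hx rfl
  have h4 := h2 (⌊x⌋₊ + N)
  rw [hN] at h3
  have h5 := lo_le w s (⌊x⌋₊ + N)
  have h6 := le_hi w s (⌊x⌋₊ + N)
  rw [abs_le] at h3 h4
  constructor <;> linarith [h3.1, h3.2, h4.1, h4.2]

end Pool.Agent.H50.BF
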