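import Pool.Agent.H50.BF.Aux58

/-! # BF-EXTB (helper58) -/

set_option autoImplicit false

open MeasureTheory Filter
open scoped Topology ENNReal

namespace Pool.Agent.H50.BF

open A58

theorem extb_core (hC : S_CRT) (hT : S_TRANS) (hS : S_SUB) (a : ℕ → ℕ) (s ε : ℝ) (hs : 2 < s)
    (hε : 0 < ε) : ∀ᶠ w : ℕ in atTop, ∀ t : ℕ, ∃ x : ℝ, ⌊Real.log x⌋₊ = w ∧ Real.exp w ≤ x ∧
      |dens a s x - val w s t| ≤ ε := by
  obtain ⟨C, hCpos, htr⟩ := hT
  obtain ⟨η, hη0, hη1, hηC⟩ : ∃ η : ℝ, 0 < η ∧ η ≤ 1 / 2 ∧ C * η ≤ ε / 8 := by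
    refine ⟨min (1 / 2) (ε / (8 * C)), by positivity, min_le_left _ _, ?_⟩
    calc C * min (1 / 2) (ε / (8 * C)) ≤ C * (ε / (8 * C)) :=
          mul_le_mul_of_nonneg_left (min_le_right _ _) hCpos.le
      _ = ε / 8 := by field_simp
  have he : 2.7182818283 < Real.exp 1 := Real.exp_one_gt_d9
  have h2e : ∀ᶠ w : ℕ in atTop, (2 / Real.exp 1) ^ w < 1 / 2 := by
    refine (tendsto_pow_atTop_nhds_zero_of_lt_one (by positivity) ?_).eventually_lt_const
      (by norm_num)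
    rw [div_lt_one (by positivity)]
    linarith
  have hwη : ∀ᶠ w : ℕ in atTop, 2 ≤ (w : ℝ) ^ η :=
    ((tendsto_rpow_atTop hη0).comp tendsto_natCast_atTop_atTop).eventually_ge_atTop _
  filter_upwards [htr η hη0 hη1, dens_cmp hS s (ε / 4) hs (by positivity),
    val_cmp hS s (ε / 4) hs (by positivity), h2e, hwη, eventually_ge_atTop 3,
    (tendsto_natCast_atTop_atTop (R := ℝ)).eventually (ev_sq s hs)]
    with w h1 h2 h3 h4 h5 h6 h7 t
  have hw3 : (3 : ℝ) ≤ w := by exact_mod_cast h6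
  have hw0 : (0 : ℝ) < w := by linarith
  set v := (w + 1) / 2 with hv
  have hv1 : (w : ℝ) / 2 ≤ v := by
    rw [div_le_iff₀ (by norm_num)]
    exact_mod_cast (by omega : w ≤ v * 2)
  have hvw : v ≤ w := by omega
  set X := ⌈Real.exp w⌉₊ with hX
  have hexpw : Real.exp w = Real.exp 1 ^ w := by rw [← Real.exp_nat_mul, mul_one]
  have hprim : primorial v ≤ X := by
    have e1 : primorial v ≤ 4 ^ v := primorial_le_four_pow v
    have e2 : 4 ^ v ≤ 2 ^ (w + 1) := by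
      calc 4 ^ v = 2 ^ (2 * v) := by rw [pow_mul]; norm_num
        _ ≤ 2 ^ (w + 1) := Nat.pow_le_pow_right (by norm_num) (by omega)
    have e3 : ((2 ^ (w + 1) : ℕ) : ℝ) ≤ Real.exp w := by
      rw [div_pow, div_lt_iff₀ (by positivity)] at h4
      rw [hexpw]
      push_cast
      rw [pow_succ]
      linarith
    have e4 : ((2 ^ (w + 1) : ℕ) : ℝ) ≤ X := e3.trans (Nat.le_ceil _)
    have e5 : 2 ^ (w + 1) ≤ X := by exact_mod_cast e4
    omega
  obtain ⟨n, hn1, hn2, hn3⟩ := hC.2 a v t X hprim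
  have hXe : Real.exp w ≤ X := Nat.le_ceil _
  have hXe2 : (X : ℝ) < Real.exp w + 1 := Nat.ceil_lt_add_one (Real.exp_pos _).le
  have hn1' : (X : ℝ) ≤ n := by exact_mod_cast hn1
  have hn2' : (n : ℝ) ≤ 2 * X := by exact_mod_cast hn2
  have hew : (w : ℝ) + 1 ≤ Real.exp w := Real.add_one_le_exp _
  have hnpos : (0 : ℝ) < n := by
    have := Real.exp_pos w
    linarith
  have hlow : (w : ℝ) ≤ Real.log n := by
    rw [Real.le_log_iff_exp_le hnpos]
    linarith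
  have hup : Real.log n < w + 1 := by
    rw [Real.log_lt_iff_lt_exp hnpos, Real.exp_add]
    nlinarith [Real.exp_pos (w : ℝ)]
  have hfl : ⌊Real.log (n : ℝ)⌋₊ = w := by
    rw [Nat.floor_eq_iff (by linarith)]
    exact ⟨hlow, hup⟩
  refine ⟨n, hfl, by linarith, ?_⟩
  set V := ⌊(w : ℝ) ^ s⌋₊ with hV
  have k1 := h2 a n hnpos hfl
  rw [Nat.floor_natCast] at k1
  have k2 := h3 t
  have hpow1 : (w : ℝ) ^ (1 - η) ≤ v := by
    rw [Real.rpow_sub hw0, Real.rpow_one, div_le_iff₀ (by linarith)]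
    nlinarith
  have hpow2 : (w : ℝ) ≤ (w : ℝ) ^ (1 + η) := by
    calc (w : ℝ) = (w : ℝ) ^ (1 : ℝ) := (Real.rpow_one _).symm
      _ ≤ (w : ℝ) ^ (1 + η) := Real.rpow_le_rpow_of_exponent_le (by linarith) (by linarith)
  have k3 := h1 a v w n V hpow1 hvw hpow2 h7.1
  have k4 := h1 (fun _ => 0) v w t V hpow1 hvw hpow2 h7.1
  rw [hn3 V] at k3
  rw [abs_le] at k1 k2 k3 k4 ⊢
  constructor <;> linarith [k1.1, k1.2, k2.1, k2.2, k3.1, k3.2, k4.1, k4.2]

theorem extb (hC : S_CRT) (hT : S_TRANS) (hS : S_SUB) : S_EXTB := by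
  intro a s ε hs hε
  filter_upwards [extb_core hC hT hS a s (ε / 2) hs (by positivity)] with w hw
  constructor
  · obtain ⟨t, ht⟩ := exists_lt_of_ciInf_lt (show ⨅ t : ℕ, val w s t < lo w s + ε / 2 by
      rw [← lo_eq]; linarith)
    obtain ⟨x, hx1, hx2, hx3⟩ := hw t
    refine ⟨x, hx1, hx2, ?_⟩
    rw [abs_le] at hx3
    linarith [hx3.2]
  · obtain ⟨t, ht⟩ := exists_lt_of_lt_ciSup (show hi w s - ε / 2 < ⨆ t : ℕ, val w s t by
      rw [← hi_eq]; linarith)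
    obtain ⟨x, hx1, hx2, hx3⟩ := hw t
    refine ⟨x, hx1, hx2, ?_⟩
    rw [abs_le] at hx3
    linarith [hx3.1]

end Pool.Agent.H50.BF
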