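import Pool.Agent.H50.BF.Stm

set_option autoImplicit false

open MeasureTheory Filter
open scoped Topology ENNReal

namespace Pool.Agent.H50.BF

lemma MM_fac' {p : ℕ} (hp : p.Prime) : 1 ≤ (1 - (p : ℝ)⁻¹)⁻¹ := by
  have h2 : (2 : ℝ) ≤ p := by exact_mod_cast hp.two_le
  have h3 : (p : ℝ)⁻¹ ≤ 2⁻¹ := inv_anti₀ (by norm_num) h2
  have h4 : 0 < (p : ℝ)⁻¹ := by positivity
  have h5 : 0 < 1 - (p : ℝ)⁻¹ := by norm_num at h3; linarith
  exact (one_le_inv₀ h5).2 (by linarith)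

lemma MM_one_le' (N : ℕ) : 1 ≤ MM N := by
  unfold MM
  calc (1 : ℝ) = ∏ p ∈ (Finset.Icc 1 N).filter Nat.Prime, (1 : ℝ) := by simp
    _ ≤ _ := Finset.prod_le_prod (fun _ _ => zero_le_one) fun p hp => MM_fac' (Finset.mem_filter.1 hp).2

lemma MM_pos' (N : ℕ) : 0 < MM N := lt_of_lt_of_le one_pos (MM_one_le' N)

lemma sv_le' (a : ℕ → ℕ) (w n U : ℕ) : sv a w n U ≤ U := by
  classical
  unfold sv
  exact (Finset.card_filter_le _ _).trans (by rw [Finset.card_range])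

/-- the values of which `lo` and `hi` are the extremes -/
noncomputable def vl (w : ℕ) (s : ℝ) (t : ℕ) : ℝ := (sv (fun _ => 0) w t ⌊(w : ℝ) ^ s⌋₊ : ℝ) * MM w / (w : ℝ) ^ s

lemma vl_nonneg (w : ℕ) (s : ℝ) (t : ℕ) : 0 ≤ vl w s t :=
  div_nonneg (mul_nonneg (Nat.cast_nonneg _) (MM_pos' w).le) (Real.rpow_nonneg (Nat.cast_nonneg _) _)

lemma vl_le (w : ℕ) (s : ℝ) (t : ℕ) : vl w s t ≤ (⌊(w : ℝ) ^ s⌋₊ : ℝ) * MM w / (w : ℝ) ^ s := by
  unfold vl
  have h : (sv (fun _ => 0) w t ⌊(w : ℝ) ^ s⌋₊ : ℝ) ≤ (⌊(w : ℝ) ^ s⌋₊ : ℝ) := by exact_mod_cast sv_le' _ _ _ _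
  exact div_le_div_of_nonneg_right (mul_le_mul_of_nonneg_right h (MM_pos' w).le)
    (Real.rpow_nonneg (Nat.cast_nonneg _) _)

lemma bddB (w : ℕ) (s : ℝ) : BddBelow (Set.range (vl w s)) := ⟨0, by rintro _ ⟨t, rfl⟩; exact vl_nonneg w s t⟩
lemma bddA (w : ℕ) (s : ℝ) : BddAbove (Set.range (vl w s)) := ⟨_, by rintro _ ⟨t, rfl⟩; exact vl_le w s t⟩

lemma lo_le (w : ℕ) (s : ℝ) (t : ℕ) : lo w s ≤ vl w s t := ciInf_le (bddB w s) t
lemma le_hi (w : ℕ) (s : ℝ) (t : ℕ) : vl w s t ≤ hi w s := le_ciSup (bddA w s) t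
lemma lo_nonneg (w : ℕ) (s : ℝ) : 0 ≤ lo w s := le_ciInf fun t => vl_nonneg w s t
lemma lo_le_hi (w : ℕ) (s : ℝ) : lo w s ≤ hi w s := (lo_le w s 0).trans (le_hi w s 0)
lemma hi_nonneg (w : ℕ) (s : ℝ) : 0 ≤ hi w s := (lo_nonneg w s).trans (lo_le_hi w s)

/-- the lower extreme density -/
noncomputable def sl (s : ℝ) : ℝ≥0∞ := liminf (fun w : ℕ => ENNReal.ofReal (lo w s)) atTop
/-- the upper extreme density -/
noncomputable def sh (s : ℝ) : ℝ≥0∞ := limsup (fun w : ℕ => ENNReal.ofReal (hi w s)) atTop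

lemma liminf_le_add {u v : ℕ → ℝ} (h : ∀ ε : ℝ, 0 < ε → ∀ᶠ w : ℕ in atTop, u w ≤ v w + ε) :
    liminf (fun w => ENNReal.ofReal (u w)) atTop ≤ liminf (fun w => ENNReal.ofReal (v w)) atTop := by
  refine ENNReal.le_of_forall_pos_le_add fun ε hε _ => ?_
  have h1 : liminf (fun w => ENNReal.ofReal (u w)) atTop ≤
      liminf (fun w => ENNReal.ofReal (v w) + ε) atTop := by
    refine liminf_le_liminf ?_
    filter_upwards [h ε hε] with w hw
    calc ENNReal.ofReal (u w) ≤ ENNReal.ofReal (v w + ε) := ENNReal.ofReal_le_ofReal hw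
      _ ≤ ENNReal.ofReal (v w) + ENNReal.ofReal ε := ENNReal.ofReal_add_le
      _ = _ := by rw [ENNReal.ofReal_coe_nnreal]
  refine h1.trans (le_of_eq ?_)
  exact liminf_add_const atTop _ _ (by isBoundedDefault) (by isBoundedDefault)

lemma limsup_le_add {u v : ℕ → ℝ} (h : ∀ ε : ℝ, 0 < ε → ∀ᶠ w : ℕ in atTop, u w ≤ v w + ε) :
    limsup (fun w => ENNReal.ofReal (u w)) atTop ≤ limsup (fun w => ENNReal.ofReal (v w)) atTop := by
  refine ENNReal.le_of_forall_pos_le_add fun ε hε _ => ?_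
  have h1 : limsup (fun w => ENNReal.ofReal (u w)) atTop ≤
      limsup (fun w => ENNReal.ofReal (v w) + ε) atTop := by
    refine limsup_le_limsup ?_
    filter_upwards [h ε hε] with w hw
    calc ENNReal.ofReal (u w) ≤ ENNReal.ofReal (v w + ε) := ENNReal.ofReal_le_ofReal hw
      _ ≤ ENNReal.ofReal (v w) + ENNReal.ofReal ε := ENNReal.ofReal_add_le
      _ = _ := by rw [ENNReal.ofReal_coe_nnreal]
  refine h1.trans (le_of_eq ?_)
  exact limsup_add_const atTop _ _ (by isBoundedDefault) (by isBoundedDefault)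

theorem sl_mono (h : S_SIGA) {s s' : ℝ} (hs : 2 < s) (hs' : s ≤ s') : sl s ≤ sl s' :=
  liminf_le_add fun ε hε => (h s s' ε hs hs' hε).mono fun _ hw => hw.1

theorem sh_anti (h : S_SIGA) {s s' : ℝ} (hs : 2 < s) (hs' : s ≤ s') : sh s' ≤ sh s :=
  limsup_le_add fun ε hε => (h s s' ε hs hs' hε).mono fun _ hw => hw.2

theorem sl_lt_one (h : S_SIGA) (hB : S_BUCH) {s : ℝ} (hs : 2 < s) : sl s < 1 := by
  obtain ⟨⟨u, c, hu, hc, hw⟩, _⟩ := hB s
  refine lt_of_le_of_lt (sl_mono h hs hu) ?_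
  have h1 : sl u ≤ ENNReal.ofReal c := by
    refine liminf_le_of_frequently_le' (Eventually.frequently ?_)
    filter_upwards [hw] with w hw
    exact ENNReal.ofReal_le_ofReal ((lo_le w u 0).trans hw)
  refine lt_of_le_of_lt h1 ?_
  rw [← ENNReal.ofReal_one]
  exact (ENNReal.ofReal_lt_ofReal_iff one_pos).2 hc

theorem one_lt_sh (h : S_SIGA) (hB : S_BUCH) {s : ℝ} (hs : 2 < s) : 1 < sh s := by
  obtain ⟨_, ⟨u, c, hu, hc, hw⟩⟩ := hB s
  refine lt_of_lt_of_le ?_ (sh_anti h hs hu)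
  have h1 : ENNReal.ofReal c ≤ sh u := by
    refine le_limsup_of_frequently_le' (Eventually.frequently ?_)
    filter_upwards [hw] with w hw
    exact ENNReal.ofReal_le_ofReal (hw.trans (le_hi w u 0))
  refine lt_of_lt_of_le ?_ h1
  rw [← ENNReal.ofReal_one]
  exact (ENNReal.ofReal_lt_ofReal_iff (by linarith)).2 hc

theorem sl_tendsto (h : S_SIGA) (hC : S_SIGC) (hB : S_BUCH) : Tendsto sl atTop (𝓝 1) := by
  refine tendsto_order.2 ⟨fun b hb => ?_, fun b hb => ?_⟩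
  · obtain ⟨c, hc1, hc2⟩ : ∃ c : ℝ, b < ENNReal.ofReal c ∧ c < 1 := by
      obtain ⟨c, h1, h2⟩ := ENNReal.lt_iff_exists_real_btwn.1 hb
      refine ⟨c, h2.1, ?_⟩
      have := h2.2
      rw [← ENNReal.ofReal_one] at this
      exact (ENNReal.ofReal_lt_ofReal_iff one_pos).1 this
    obtain ⟨s1, hs1⟩ := hC (1 - c) (by linarith)
    filter_upwards [eventually_ge_atTop s1] with s hs
    refine lt_of_lt_of_le hc1 ?_
    refine le_liminf_of_le (by isBoundedDefault) ?_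
    filter_upwards [hs1 s hs] with w hw
    exact ENNReal.ofReal_le_ofReal (by linarith [hw.1])
  · filter_upwards [eventually_gt_atTop 2] with s hs
    exact (sl_lt_one h hB hs).trans hb

theorem sh_tendsto (h : S_SIGA) (hC : S_SIGC) (hB : S_BUCH) : Tendsto sh atTop (𝓝 1) := by
  refine tendsto_order.2 ⟨fun b hb => ?_, fun b hb => ?_⟩
  · filter_upwards [eventually_gt_atTop 2] with s hs
    exact hb.trans (one_lt_sh h hB hs)
  · obtain ⟨c, hc1, hc2⟩ : ∃ c : ℝ, ENNReal.ofReal c < b ∧ 1 < c := by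
      obtain ⟨c, h1, h2⟩ := ENNReal.lt_iff_exists_real_btwn.1 hb
      refine ⟨c, h2.2, ?_⟩
      have := h2.1
      rw [← ENNReal.ofReal_one] at this
      exact (ENNReal.ofReal_lt_ofReal_iff_of_nonneg zero_le_one).1 this
    obtain ⟨s1, hs1⟩ := hC (c - 1) (by linarith)
    filter_upwards [eventually_ge_atTop s1] with s hs
    refine lt_of_le_of_lt ?_ hc1
    refine limsup_le_of_le (by isBoundedDefault) ?_
    filter_upwards [hs1 s hs] with w hw
    exact ENNReal.ofReal_le_ofReal (by linarith [hw.2])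

theorem sh_lt_top (hS : S_SUB) {s : ℝ} (hs : 2 < s) : sh s < ⊤ := by
  obtain ⟨C, hC, hw⟩ := hS
  have h1 : sh s ≤ ENNReal.ofReal C := by
    refine limsup_le_of_le (by isBoundedDefault) ?_
    filter_upwards [hw 1 one_pos le_rfl, eventually_ge_atTop 2] with w hw hw2
    refine ENNReal.ofReal_le_ofReal (ciSup_le fun t => ?_)
    have hw2' : (2 : ℝ) ≤ w := by exact_mod_cast hw2
    have hw0 : (0 : ℝ) < w := by linarith
    have hws : (w : ℝ) ^ 2 ≤ (w : ℝ) ^ s := by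
      rw [← Real.rpow_natCast]
      exact Real.rpow_le_rpow_of_exponent_le (by linarith) (by push_cast; linarith)
    have hpos : 0 < (w : ℝ) ^ s := Real.rpow_pos_of_pos hw0 _
    obtain ⟨M, hM⟩ : ∃ M : ℕ, M = ⌊(w : ℝ) ^ s⌋₊ := ⟨_, rfl⟩
    have hM1 : (M : ℝ) ≤ (w : ℝ) ^ s := by rw [hM]; exact Nat.floor_le hpos.le
    have hM2 : (w : ℝ) ^ s - 1 < M := by rw [hM]; exact Nat.sub_one_lt_floor _
    have hM3 : (w : ℝ) ^ 2 / 2 ≤ M := by nlinarith
    have hM0 : (0 : ℝ) < M := by nlinarith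
    have h2 := (hw (fun _ => 0) w t M M (by
      rw [Real.sqrt_le_left (by positivity)]
      nlinarith) (by nlinarith) hM3 le_rfl (by nlinarith)).2
    have h3 := MM_pos' w
    rw [← hM]
    have h4 : (sv (fun _ => 0) w t M : ℝ) * MM w / (w : ℝ) ^ s ≤ (sv (fun _ => 0) w t M : ℝ) * (MM w / M) := by
      rw [mul_div_assoc]
      refine mul_le_mul_of_nonneg_left ?_ (Nat.cast_nonneg _)
      exact div_le_div_of_nonneg_left h3.le hM0 hM1
    exact h4.trans h2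
  exact lt_of_le_of_lt h1 ENNReal.ofReal_lt_top

end Pool.Agent.H50.BF
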