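import Pool.Agent.H50.BF.Stm

/-! # Project BF, stub GRA: the deterministic part for Granville's model -/

set_option autoImplicit false

open MeasureTheory Filter
open scoped Topology ENNReal

namespace Pool.Agent.H50.BF

lemma gra_MM_pos (N : ℕ) : 0 < MM N := by
  unfold MM
  apply Finset.prod_pos
  intro p hp
  have h1 := (Finset.mem_filter.1 hp).2.two_le
  have h2 : (2:ℝ) ≤ p := by exact_mod_cast h1
  have h3 : (p:ℝ)⁻¹ ≤ 2⁻¹ := inv_anti₀ (by norm_num) h2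
  apply inv_pos.2
  norm_num at h3 ⊢
  linarith

/-- the levels `z n` are close to `log n` on the logarithmic scale -/
lemma gra_lev {z : ℕ → ℕ}
    (hz : Tendsto (fun n : ℕ => Real.log (z n) / Real.log (Real.log n)) atTop (𝓝 1))
    {η : ℝ} (hη : 0 < η) (hη1 : η ≤ 1 / 2) :
    ∀ᶠ n : ℕ in atTop, ∀ w : ℕ, Real.log n / 2 ≤ w → (w:ℝ) ≤ 2 * Real.log n →
      (w:ℝ) ^ (1 - η) ≤ z n ∧ (z n : ℝ) ≤ (w:ℝ) ^ (1 + η) := by
  have hL : Tendsto (fun n : ℕ => Real.log n) atTop atTop :=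
    Real.tendsto_log_atTop.comp tendsto_natCast_atTop_atTop
  have hLL : Tendsto (fun n : ℕ => Real.log (Real.log n)) atTop atTop :=
    Real.tendsto_log_atTop.comp hL
  have h1 := (tendsto_order.1 hz).1 (1 - η / 2) (by linarith)
  have h2 := (tendsto_order.1 hz).2 (1 + η / 2) (by linarith)
  filter_upwards [h1, h2, hL.eventually_ge_atTop 2, hLL.eventually_ge_atTop 1,
    hLL.eventually_ge_atTop (4 / η)] with n h1 h2 h3 h4 h5
  intro w hw1 hw2
  set l := Real.log n with hl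
  set ll := Real.log l with hll
  have hl0 : 0 < l := by linarith
  have hll0 : 0 < ll := by linarith
  rw [lt_div_iff₀ hll0] at h1
  rw [div_lt_iff₀ hll0] at h2
  have hw0 : (0:ℝ) < w := by linarith
  have hlog2 : Real.log 2 ≤ 1 := by
    have := Real.log_two_lt_d9
    linarith
  have hw3 : ll - 1 ≤ Real.log w := by
    have h6 : Real.log (l / 2) ≤ Real.log w := Real.log_le_log (by linarith) hw1
    rw [Real.log_div hl0.ne' (by norm_num)] at h6
    linarith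
  have hw4 : Real.log w ≤ ll + 1 := by
    have h6 : Real.log w ≤ Real.log (2 * l) := Real.log_le_log hw0 hw2
    rw [Real.log_mul (by norm_num) hl0.ne'] at h6
    linarith
  have h6 : 4 ≤ η * ll := by
    rw [div_le_iff₀ hη] at h5
    linarith
  have hz0 : (0:ℝ) < z n := by
    rcases Nat.eq_zero_or_pos (z n) with h | h
    · rw [h] at h1
      simp only [Nat.cast_zero, Real.log_zero] at h1
      have : 0 < (1 - η / 2) * ll := mul_pos (by linarith) hll0
      linarith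
    · exact_mod_cast h
  constructor
  · rw [Real.rpow_le_iff_le_log hw0 hz0]
    have h7 : (1 - η) * Real.log w ≤ (1 - η) * (ll + 1) :=
      mul_le_mul_of_nonneg_left hw4 (by linarith)
    nlinarith
  · rw [Real.le_rpow_iff_log_le hz0 hw0]
    have h7 : (1 + η) * (ll - 1) ≤ (1 + η) * Real.log w :=
      mul_le_mul_of_nonneg_left hw3 (by linarith)
    nlinarith

lemma gra_eq1 {M l v U Ls L δ C : ℝ} (hU : U ≠ 0) (hl : l ≠ 0) (hLs : Ls ≠ 0) :
    L / Ls * ((1 - δ) * (M / l * v) - C * l) =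
      (1 - δ) * (v * (M / U) * (U / Ls) * (L / l)) - L / Ls * (C * l) := by
  field_simp

lemma gra_eq0 {M v U Ls : ℝ} (hU : U ≠ 0) (hLs : Ls ≠ 0) :
    v * M / Ls = v * (M / U) * (U / Ls) := by
  field_simp

lemma gra_eq2 {M l v U Ls L δ C : ℝ} (hU : U ≠ 0) (hl : l ≠ 0) (hLs : Ls ≠ 0) :
    L / Ls * ((1 + δ) * (M / l * v) + C * l) =
      (1 + δ) * (v * (M / U) * (U / Ls) * (L / l)) + L / Ls * (C * l) := by
  field_simp

lemma gra_eq3 {M v v' U U' Ls : ℝ} (hU : U ≠ 0) (hU' : U' ≠ 0) (hLs : Ls ≠ 0) :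
    v' * (M / U') * (U' / Ls) = v * (M / U) * (U / Ls) + (v' - v) * (M / U) * (U / Ls) := by
  field_simp
  ring

lemma gra_low {A0 A1 u r δ CS CT η q C l N ε : ℝ} (hδ0 : 0 < δ) (hδ1 : δ ≤ 1) (hCS : 0 < CS)
    (hCT : 0 < CT) (hη0 : 0 < η) (hδ2 : 7 * CS * δ ≤ ε / 4) (hη2 : 8 * CT * η ≤ ε / 4)
    (hCl1 : -(ε / 4) ≤ q * (C * l) ∧ q * (C * l) ≤ ε / 4) (hA : -(CT * η) ≤ A1 - A0)
    (hu0 : 0 ≤ u) (hu1 : u ≤ 1) (hr1 : 1 ≤ r) (hA0n : 0 ≤ A0) (hA1n : 0 ≤ A1) (hA0S : A0 ≤ CS)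
    (h1 : (1 - δ) * (A1 * u * r) - q * (C * l) ≤ q * N) :
    -ε ≤ q * N - A0 * u := by
  have h3 : A1 * u ≤ A1 * u * r := le_mul_of_one_le_right (mul_nonneg hA1n hu0) hr1
  have h4 : (A0 - CT * η) * u ≤ A1 * u := mul_le_mul_of_nonneg_right (by linarith) hu0
  have h5 : (1 - δ) * ((A0 - CT * η) * u) ≤ (1 - δ) * (A1 * u * r) :=
    mul_le_mul_of_nonneg_left (h4.trans h3) (by linarith)
  have h6 : A0 * u ≤ CS := by
    calc A0 * u ≤ A0 * 1 := mul_le_mul_of_nonneg_left hu1 hA0n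
      _ ≤ CS := by linarith
  have h7 : δ * (A0 * u) ≤ δ * CS := mul_le_mul_of_nonneg_left h6 hδ0.le
  have h9 : CT * η * u ≤ CT * η := by
    calc CT * η * u ≤ CT * η * 1 := mul_le_mul_of_nonneg_left hu1 (by positivity)
      _ = CT * η := by ring
  have h10 : (1 - δ) * (CT * η * u) ≤ 1 * (CT * η * u) :=
    mul_le_mul_of_nonneg_right (by linarith) (by positivity)
  have h11 : (1 - δ) * ((A0 - CT * η) * u) = A0 * u - δ * (A0 * u) - (1 - δ) * (CT * η * u) := by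
    ring
  have h12 : 0 < δ * CS := mul_pos hδ0 hCS
  have h13 : 0 < CT * η := mul_pos hCT hη0
  have h14 : 7 * CS * δ = 7 * (δ * CS) := by ring
  have h15 : 8 * CT * η = 8 * (CT * η) := by ring
  linarith [hCl1.1, hCl1.2]

lemma gra_up {A0 A2 A3 u u1 r δ CS CT η q C l N ε : ℝ} (hδ0 : 0 < δ) (hδ1 : δ ≤ 1) (hCS : 0 < CS)
    (hCT : 0 < CT) (hη0 : 0 < η) (hδ2 : 7 * CS * δ ≤ ε / 4) (hη2 : 8 * CT * η ≤ ε / 4)
    (hCl1 : -(ε / 4) ≤ q * (C * l) ∧ q * (C * l) ≤ ε / 4) (hA : A2 - A3 ≤ CT * η)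
    (hu0 : 0 ≤ u) (hu1 : u ≤ 1) (hu10 : 0 ≤ u1) (hu12 : u1 ≤ 2) (hr1 : 1 ≤ r) (hr2 : r ≤ 1 + δ)
    (hA0n : 0 ≤ A0) (hA0S : A0 ≤ CS) {d : ℝ} (hd : A3 * u1 = A0 * u + d * u) (hdS : d ≤ CS * δ)
    (h1 : q * N ≤ (1 + δ) * (A2 * u1 * r) + q * (C * l)) (hε : 0 < ε) :
    q * N - A0 * u ≤ ε := by
  have h2 : A3 * u1 ≤ A0 * u + CS * δ := by
    rw [hd]
    have h4 := mul_le_mul_of_nonneg_right hdS hu0
    have h5 : CS * δ * u ≤ CS * δ := by
      calc CS * δ * u ≤ CS * δ * 1 := mul_le_mul_of_nonneg_left hu1 (by positivity)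
        _ = CS * δ := by ring
    linarith
  have h3 : A2 * u1 ≤ A0 * u + CS * δ + 2 * (CT * η) := by
    have h4 : A2 * u1 ≤ (A3 + CT * η) * u1 := mul_le_mul_of_nonneg_right (by linarith) hu10
    have h5 : CT * η * u1 ≤ CT * η * 2 := mul_le_mul_of_nonneg_left hu12 (by positivity)
    have h6 : (A3 + CT * η) * u1 = A3 * u1 + CT * η * u1 := by ring
    linarith
  have hA0u : 0 ≤ A0 * u := mul_nonneg hA0n hu0
  have hA0u1 : A0 * u ≤ CS := by
    calc A0 * u ≤ A0 * 1 := mul_le_mul_of_nonneg_left hu1 hA0n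
      _ ≤ CS := by linarith
  obtain ⟨B, hB⟩ : ∃ B : ℝ, B = A0 * u + CS * δ + 2 * (CT * η) := ⟨_, rfl⟩
  rw [← hB] at h3
  have hB0 : 0 ≤ B := by rw [hB]; positivity
  have h4 : (1 + δ) * (A2 * u1 * r) ≤ (1 + 3 * δ) * B := by
    have h5 : A2 * u1 * r ≤ B * r := mul_le_mul_of_nonneg_right h3 (by linarith)
    have h6 : B * r ≤ B * (1 + δ) := mul_le_mul_of_nonneg_left hr2 hB0
    have h7 : (1 + δ) * (A2 * u1 * r) ≤ (1 + δ) * (B * (1 + δ)) :=
      mul_le_mul_of_nonneg_left (h5.trans h6) (by linarith)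
    have h8 : (1 + δ) * (B * (1 + δ)) = B * (1 + 2 * δ + δ * δ) := by ring
    have hδδ : δ * δ ≤ δ * 1 := mul_le_mul_of_nonneg_left hδ1 hδ0.le
    have h9 : B * (1 + 2 * δ + δ * δ) ≤ B * (1 + 3 * δ) :=
      mul_le_mul_of_nonneg_left (by linarith) hB0
    linarith
  have h5 : (1 + 3 * δ) * B ≤ A0 * u + 3 * (δ * CS) + 4 * (CS * δ + 2 * (CT * η)) := by
    have h6 : (1 + 3 * δ) * B = A0 * u + 3 * (δ * (A0 * u)) +
        (1 + 3 * δ) * (CS * δ + 2 * (CT * η)) := by rw [hB]; ring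
    have h7 : δ * (A0 * u) ≤ δ * CS := mul_le_mul_of_nonneg_left hA0u1 hδ0.le
    have h8 : (1 + 3 * δ) * (CS * δ + 2 * (CT * η)) ≤ 4 * (CS * δ + 2 * (CT * η)) :=
      mul_le_mul_of_nonneg_right (by linarith) (by positivity)
    linarith
  have h14 : 7 * CS * δ = 7 * (CS * δ) := by ring
  have h16 : δ * CS = CS * δ := by ring
  have h15 : 8 * CT * η = 8 * (CT * η) := by ring
  linarith [hCl1.1, hCl1.2]

theorem gra (hT : S_TRANS) (hS : S_SUB) : S_GRA := by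
  intro S z _ hz hN s hs ε hε
  obtain ⟨CT, hCT, hT⟩ := hT
  obtain ⟨CS, hCS, hS⟩ := hS
  set δ : ℝ := min 1 (ε / (28 * CS)) with hδ
  have hδ0 : 0 < δ := lt_min one_pos (by positivity)
  have hδ1 : δ ≤ 1 := min_le_left _ _
  have hδ2 : 7 * CS * δ ≤ ε / 4 := by
    have h1 : δ ≤ ε / (28 * CS) := min_le_right _ _
    rw [le_div_iff₀ (by positivity)] at h1
    linarith
  set η : ℝ := min (1 / 2) (ε / (32 * CT)) with hη
  have hη0 : 0 < η := lt_min (by norm_num) (by positivity)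
  have hη1 : η ≤ 1 / 2 := min_le_left _ _
  have hη2 : 8 * CT * η ≤ ε / 4 := by
    have h1 : η ≤ ε / (32 * CT) := min_le_right _ _
    rw [le_div_iff₀ (by positivity)] at h1
    linarith
  obtain ⟨C, hC⟩ := hN δ hδ0
  -- eventual facts
  have tn : Tendsto (fun x : ℝ => ⌊x⌋₊) atTop atTop := tendsto_nat_floor_atTop
  have t3 : Tendsto (fun x : ℝ => 3 * ⌊x⌋₊) atTop atTop :=
    tendsto_atTop_mono (fun x => by omega) tn
  have tw : Tendsto (fun x : ℝ => ⌊Real.log x⌋₊) atTop atTop :=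
    tendsto_nat_floor_atTop.comp Real.tendsto_log_atTop
  have e1 := tn.eventually hC
  have e2 := tn.eventually (gra_lev hz hη0 hη1)
  have e3 := t3.eventually (gra_lev hz hη0 hη1)
  have e4 := tw.eventually (hT η hη0 hη1)
  have e5 := tw.eventually (hS δ hδ0 hδ1)
  have e6 : ∀ᶠ x : ℝ in atTop, Real.log x ^ s ≤ 1 / 2 * x := by
    have h1 := (isLittleO_log_rpow_rpow_atTop s (show (0:ℝ) < 1 by norm_num)).bound
      (show (0:ℝ) < 1 / 2 by norm_num)
    filter_upwards [h1, eventually_ge_atTop 1] with x hx hx1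
    rw [Real.rpow_one, Real.norm_eq_abs, Real.norm_eq_abs, abs_of_nonneg (by linarith : (0:ℝ) ≤ x)]
      at hx
    exact (le_abs_self _).trans hx
  have e7 : ∀ᶠ x : ℝ in atTop, |C| * (Real.log x ^ 2 / Real.log x ^ s) ≤ ε / 4 := by
    have h1 : Tendsto (fun y : ℝ => |C| * y ^ (-(s - 2))) atTop (𝓝 (|C| * 0)) :=
      (tendsto_rpow_neg_atTop (by linarith)).const_mul _
    rw [mul_zero] at h1
    have h2 := (h1.comp Real.tendsto_log_atTop).eventually_le_const (show (0:ℝ) < ε / 4 by linarith)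
    filter_upwards [h2, Real.tendsto_log_atTop.eventually_ge_atTop 1] with x hx hx1
    have h3 : Real.log x ^ 2 / Real.log x ^ s = Real.log x ^ (-(s - 2)) := by
      have h4 : -(s - 2) = (2:ℕ) - s := by push_cast; ring
      rw [h4, Real.rpow_sub (by linarith), Real.rpow_natCast]
    rw [h3]
    exact hx
  filter_upwards [e1, e2, e3, e4, e5, e6, e7, eventually_ge_atTop 10,
    Real.tendsto_log_atTop.eventually_ge_atTop (10 + 1 / δ)] with x e1 e2 e3 e4 e5 e6 e7 e8 e9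
  set L : ℝ := Real.log x with hL
  set n : ℕ := ⌊x⌋₊ with hn
  set w : ℕ := ⌊L⌋₊ with hw
  set U : ℕ := ⌊L ^ s⌋₊ with hU
  have hδi : 0 < 1 / δ := by positivity
  have hL0 : 0 < L := by linarith
  have hn1 : (n:ℝ) ≤ x := Nat.floor_le (by linarith)
  have hn2 : x < n + 1 := Nat.lt_floor_add_one x
  have hw1 : (w:ℝ) ≤ L := Nat.floor_le hL0.le
  have hw2 : L < w + 1 := Nat.lt_floor_add_one L
  have hLs0 : 0 < L ^ s := Real.rpow_pos_of_pos hL0 s
  have hU1 : (U:ℝ) ≤ L ^ s := Nat.floor_le hLs0.le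
  have hU2 : L ^ s < U + 1 := Nat.lt_floor_add_one (L ^ s)
  have hn9 : (9:ℝ) ≤ n := by linarith
  have hlog2 : Real.log 2 ≤ 1 := by
    have := Real.log_two_lt_d9
    linarith
  have hl1 : Real.log n ≤ L := Real.log_le_log (by linarith) hn1
  have hl2 : L ≤ Real.log n + 1 := by
    have h1 : Real.log x ≤ Real.log (2 * n) := Real.log_le_log (by linarith) (by linarith)
    rw [Real.log_mul (by norm_num) (by linarith)] at h1
    linarith
  set l : ℝ := Real.log n with hl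
  have hl0 : 0 < l := by linarith
  have hLs2 : L ^ 2 ≤ L ^ s := by
    rw [← Real.rpow_natCast]
    exact Real.rpow_le_rpow_of_exponent_le (by linarith) (by push_cast; linarith)
  have hw9 : (9:ℝ) ≤ w := by linarith
  have hwU : (w:ℝ) ^ 2 / 2 ≤ U := by
    have h1 : (w:ℝ) ^ 2 ≤ L ^ 2 := pow_le_pow_left₀ (Nat.cast_nonneg _) hw1 2
    have h2 : (9:ℝ) ^ 2 ≤ (w:ℝ) ^ 2 := pow_le_pow_left₀ (by norm_num) hw9 2
    linarith
  have hL10 : 10 * L ≤ L ^ 2 := by
    rw [pow_two]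
    exact mul_le_mul_of_nonneg_right (by linarith) hL0.le
  have hU0 : (0:ℝ) < U := by linarith
  have hUL : L ≤ U := by linarith
  -- transition between the levels
  have hrp1 : (w:ℝ) ^ (1 - η) ≤ w := by
    conv_rhs => rw [← Real.rpow_one (w:ℝ)]
    exact Real.rpow_le_rpow_of_exponent_le (by linarith) (by linarith)
  have hrp2 : (w:ℝ) ≤ (w:ℝ) ^ (1 + η) := by
    conv_lhs => rw [← Real.rpow_one (w:ℝ)]
    exact Real.rpow_le_rpow_of_exponent_le (by linarith) (by linarith)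
  have htr : ∀ v V : ℕ, (w:ℝ) ^ (1 - η) ≤ v → (v:ℝ) ≤ (w:ℝ) ^ (1 + η) → (w:ℝ) ^ 2 / 2 ≤ V →
      |(sv (fun _ => 0) v n V : ℝ) * (MM v / V) - sv (fun _ => 0) w n V * (MM w / V)| ≤ CT * η := by
    intro v V h1 h2 h3
    rcases le_total v w with h | h
    · exact e4 _ v w n V h1 h hrp2 h3
    · rw [abs_sub_comm]
      exact e4 _ w v n V hrp1 h h2 h3
  -- the number of elements
  have hlog3 : Real.log ((3 * n : ℕ) : ℝ) = Real.log 3 + l := by
    push_cast
    rw [Real.log_mul (by norm_num) (by linarith)]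
  have hlog3' : Real.log 3 ≤ 2 := by
    have h1 : Real.log 3 ≤ Real.log (2 * 2) := Real.log_le_log (by norm_num) (by norm_num)
    rw [Real.log_mul (by norm_num) (by norm_num)] at h1
    linarith
  have hlog3'' : 0 ≤ Real.log 3 := Real.log_nonneg (by norm_num)
  have hz1 := e2 w (by linarith) (by linarith)
  have hz2 := e3 w (by rw [hlog3]; linarith) (by rw [hlog3]; linarith)
  have hUn : U + 1 ≤ n := by
    have h1 : ((U + 1 : ℕ) : ℝ) ≤ n := by
      push_cast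
      have : (n:ℝ) ≥ x - 1 := by linarith
      by_contra hcon
      push Not at hcon
      -- `U + 1 ≤ x / 2 + 1 ≤ x - 1`
      have h2 : (U:ℝ) ≤ 1 / 2 * x := hU1.trans e6
      linarith
    exact_mod_cast h1
  have hlo := (e1 U (by omega)).1
  have hup := (e1 (U + 1) hUn).2
  set N : ℝ := (Set.ncard {m : ℕ | m ∈ S ∧ x < m ∧ (m : ℝ) ≤ x + L ^ s} : ℝ) with hNdef
  have hfin : ∀ V : ℕ, (Set.Finite {m : ℕ | m ∈ S ∧ n < m ∧ m ≤ n + V}) := fun V =>
    (Set.finite_Iic (n + V)).subset (fun m hm => hm.2.2)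
  have hfin2 : (Set.Finite {m : ℕ | m ∈ S ∧ x < m ∧ (m : ℝ) ≤ x + L ^ s}) := by
    refine (hfin (U + 1)).subset ?_
    rintro m ⟨h1, h2, h3⟩
    refine ⟨h1, ?_, ?_⟩
    · have : (n:ℝ) < m := by linarith
      exact_mod_cast this
    · have : (m:ℝ) < ((n + (U + 1) + 1 : ℕ) : ℝ) := by push_cast; linarith
      have h4 : m < n + (U + 1) + 1 := by exact_mod_cast this
      omega
  have hN1 : (Set.ncard {m : ℕ | m ∈ S ∧ n < m ∧ m ≤ n + U} : ℝ) ≤ N := by
    rw [hNdef]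
    norm_cast
    refine Set.ncard_le_ncard ?_ hfin2
    rintro m ⟨h1, h2, h3⟩
    refine ⟨h1, ?_, ?_⟩
    · have : ((n + 1 : ℕ):ℝ) ≤ m := by exact_mod_cast h2
      push_cast at this
      linarith
    · have : (m:ℝ) ≤ ((n + U : ℕ):ℝ) := by exact_mod_cast h3
      push_cast at this
      linarith
  have hN2 : N ≤ (Set.ncard {m : ℕ | m ∈ S ∧ n < m ∧ m ≤ n + (U + 1)} : ℝ) := by
    rw [hNdef]
    norm_cast
    refine Set.ncard_le_ncard ?_ (hfin _)
    rintro m ⟨h1, h2, h3⟩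
    refine ⟨h1, ?_, ?_⟩
    · have : (n:ℝ) < m := by linarith
      exact_mod_cast this
    · have : (m:ℝ) < ((n + (U + 1) + 1 : ℕ) : ℝ) := by push_cast; linarith
      have h4 : m < n + (U + 1) + 1 := by exact_mod_cast this
      omega
  -- abbreviations
  set A0 : ℝ := (sv (fun _ => 0) w n U : ℝ) * (MM w / U) with hA0
  set A1 : ℝ := (sv (fun _ => 0) (z (3 * n)) n U : ℝ) * (MM (z (3 * n)) / U) with hA1
  set A2 : ℝ := (sv (fun _ => 0) (z n) n (U + 1) : ℝ) * (MM (z n) / ((U + 1 : ℕ) : ℝ)) with hA2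
  set A3 : ℝ := (sv (fun _ => 0) w n (U + 1) : ℝ) * (MM w / ((U + 1 : ℕ) : ℝ)) with hA3
  have hA10 : |A1 - A0| ≤ CT * η := htr _ U hz2.1 hz2.2 hwU
  have hA23 : |A2 - A3| ≤ CT * η := htr _ (U + 1) hz1.1 hz1.2 (by push_cast; linarith)
  have hsub := e5 (fun _ => 0) w n U (U + 1)
    (by
      rw [Real.sqrt_le_left (by linarith), pow_two]
      exact le_mul_of_one_le_right (by linarith) (by linarith))
    (by
      rw [pow_two]
      exact le_mul_of_one_le_right (by linarith) (by linarith)) hwU (by omega)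
    (by
      push_cast
      have h1 : 1 ≤ δ * U := by
        have h2 : 1 / δ ≤ U := by linarith
        rw [div_le_iff₀ hδ0] at h2
        linarith
      linarith)
  have hA0S : A0 ≤ CS := hsub.2
  have hA0n : 0 ≤ A0 := by
    have := gra_MM_pos w
    positivity
  have hA1n : 0 ≤ A1 := by
    have := gra_MM_pos (z (3 * n))
    positivity
  set q : ℝ := L / L ^ s with hq
  have hq0 : 0 < q := by positivity
  set u : ℝ := U / L ^ s with hu
  have hu0 : 0 ≤ u := by positivity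
  have hu1 : u ≤ 1 := by
    rw [hu, div_le_one hLs0]
    exact hU1
  set r : ℝ := L / l with hr
  have hr1 : 1 ≤ r := by
    rw [hr, one_le_div hl0]
    exact hl1
  have hr2 : r ≤ 1 + δ := by
    rw [hr, div_le_iff₀ hl0]
    have h2 : 1 / δ ≤ l := by linarith
    rw [div_le_iff₀ hδ0] at h2
    linarith
  have hdens : dens (fun _ => 0) s x = A0 * u := by
    show (sv (fun _ => 0) w n U : ℝ) * MM w / L ^ s = A0 * u
    rw [hA0, hu]
    exact gra_eq0 hU0.ne' hLs0.ne'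
  have hRR : RR S s x = q * N := by
    unfold RR
    rw [hq, hNdef]
  have hCl : |q * (C * l)| ≤ ε / 4 := by
    rw [abs_mul, abs_mul, abs_of_pos hq0, abs_of_pos hl0]
    calc q * (|C| * l) ≤ q * (|C| * L) := by gcongr
      _ = |C| * (L ^ 2 / L ^ s) := by rw [hq]; ring
      _ ≤ ε / 4 := e7
  have hCl1 := abs_le.1 hCl
  have hA10' := abs_le.1 hA10
  have hA23' := abs_le.1 hA23
  rw [hRR, hdens, abs_le]
  constructor
  · -- lower bound
    refine gra_low hδ0 hδ1 hCS hCT hη0 hδ2 hη2 hCl1 hA10'.1 hu0 hu1 hr1 hA0n hA1n hA0S ?_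
    have h2 := hlo.trans hN1
    have h3 := mul_le_mul_of_nonneg_left h2 hq0.le
    rw [hq, gra_eq1 (U := (U:ℝ)) hU0.ne' hl0.ne' hLs0.ne'] at h3
    exact h3
  · -- upper bound
    have hU10 : (0:ℝ) < ((U + 1 : ℕ) : ℝ) := by positivity
    have hu12 : ((U + 1 : ℕ) : ℝ) / L ^ s ≤ 2 := by
      rw [div_le_iff₀ hLs0]
      push_cast
      linarith
    refine gra_up hδ0 hδ1 hCS hCT hη0 hδ2 hη2 hCl1 hA23'.2 hu0 hu1
      (u1 := ((U + 1 : ℕ) : ℝ) / L ^ s) (by positivity) hu12 hr1 hr2 hA0n hA0S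
      (d := ((sv (fun _ => 0) w n (U + 1) : ℝ) - sv (fun _ => 0) w n U) * (MM w / U)) ?_ hsub.1 ?_ hε
    · exact gra_eq3 hU0.ne' hU10.ne' hLs0.ne'
    · have h2 := hN2.trans hup
      have h3 := mul_le_mul_of_nonneg_left h2 hq0.le
      rw [hq, gra_eq2 (U := ((U + 1 : ℕ) : ℝ)) hU10.ne' hl0.ne' hLs0.ne'] at h3
      exact h3

end Pool.Agent.H50.BF
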