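import Pool.Agent.H50.BF.MMB

/-! # BF-IND (helper56) -/

set_option autoImplicit false

open MeasureTheory Filter
open scoped Topology ENNReal

namespace Pool.Agent.H50.BF

lemma fin_int {α Ω : Type} [Fintype α] [MeasurableSpace α] [MeasurableSingletonClass α]
    [MeasurableSpace Ω] (P : Measure Ω) [IsProbabilityMeasure P] (φ : Ω → α) (hφ : Measurable φ)
    (h : α → ℝ) : Integrable (fun ω => h (φ ω)) P ∧
      ∫ ω, h (φ ω) ∂P = ∑ x, P.real (φ ⁻¹' {x}) * h x := by
  have : IsProbabilityMeasure (P.map φ) := Measure.isProbabilityMeasure_map hφ.aemeasurable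
  have h1 : Integrable h (P.map φ) := Integrable.of_finite
  refine ⟨h1.comp_measurable hφ, ?_⟩
  rw [← integral_map hφ.aemeasurable h1.aestronglyMeasurable, integral_fintype h1]
  refine Finset.sum_congr rfl fun x _ => ?_
  rw [smul_eq_mul, map_measureReal_apply hφ (measurableSet_singleton x)]

/-- the residues modulo the primes `< p` -/
noncomputable def Phi {Ω : Type} (a : ℕ → Ω → ℕ) (p : ℕ) (ω : Ω) (q : Fin p) : Fin p :=
  ⟨if (q : ℕ).Prime then a q ω % q else 0, by
    have hq := q.2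
    split_ifs with h
    · exact (Nat.mod_lt _ h.pos).trans hq
    · omega⟩

/-- extension -/
def exc {p : ℕ} (c : Fin p → Fin p) (q : ℕ) : ℕ := if h : q < p then c ⟨q, h⟩ else 0

lemma Phi_meas {Ω : Type} [MeasurableSpace Ω] {P : Measure Ω} {a : ℕ → Ω → ℕ} (H : Model P a)
    (p : ℕ) : Measurable (Phi a p) := by
  rw [measurable_pi_iff]
  intro q
  have h1 : (fun ω => Phi a p ω q) = (fun n : ℕ => (⟨if (q : ℕ).Prime then n % q else 0, by
    have hq := q.2
    split_ifs with h
    · exact (Nat.mod_lt _ h.pos).trans hq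
    · omega⟩ : Fin p)) ∘ (a q) := rfl
  rw [h1]
  exact (Measurable.of_discrete).comp (H.meas q)

lemma exc_Phi {Ω : Type} (a : ℕ → Ω → ℕ) (p : ℕ) (ω : Ω) {q : ℕ} (hq : q.Prime) (hqp : q < p) :
    exc (Phi a p ω) q = a q ω % q := by
  unfold exc Phi
  rw [dif_pos hqp]
  simp [hq]

/-- admissible vectors of residues -/
def Val {p : ℕ} (c : Fin p → Fin p) : Prop :=
  ∀ q : Fin p, ((q : ℕ).Prime → (c q : ℕ) < q) ∧ (¬ (q : ℕ).Prime → (c q : ℕ) = 0)

lemma Phi_val {Ω : Type} (a : ℕ → Ω → ℕ) (p : ℕ) (ω : Ω) : Val (Phi a p ω) := by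
  intro q
  unfold Phi
  constructor
  · intro h
    simp only [h, if_true]
    exact Nat.mod_lt _ h.pos
  · intro h
    simp [h]

lemma Phi_eq_iff {Ω : Type} (a : ℕ → Ω → ℕ) {p : ℕ} {c : Fin p → Fin p} (hc : Val c) (ω : Ω) :
    Phi a p ω = c ↔ ∀ q : ℕ, q.Prime → q < p → a q ω % q = exc c q := by
  constructor
  · rintro rfl q hq hqp
    rw [exc_Phi a p ω hq hqp]
  · intro h
    funext q
    apply Fin.ext
    by_cases hq : (q : ℕ).Prime
    · have h1 := h q hq q.2
      rw [← exc_Phi a p ω hq q.2] at h1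
      unfold exc at h1
      rwa [dif_pos q.2, dif_pos q.2] at h1
    · rw [(hc q).2 hq, (Phi_val a p ω q).2 hq]

lemma exc_lt {p : ℕ} {c : Fin p → Fin p} (hc : Val c) (q : ℕ) (hq : q.Prime) : exc c q < q := by
  unfold exc
  split_ifs with h
  · exact (hc ⟨q, h⟩).1 hq
  · exact hq.pos

/-- independence -/
lemma joint {Ω : Type} [MeasurableSpace Ω] {P : Measure Ω} {a : ℕ → Ω → ℕ} (H : Model P a)
    {p : ℕ} (hp : p.Prime) (r : Fin p) (c : Fin p → Fin p) :
    P.real {ω | a p ω % p = r ∧ Phi a p ω = c} = (p : ℝ)⁻¹ * P.real {ω | Phi a p ω = c} := by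
  by_cases hc : Val c
  · obtain ⟨v, rfl⟩ : ∃ v, p = v + 1 := ⟨p - 1, by have := hp.two_le; omega⟩
    have h1 := H.law v (exc c) (exc_lt hc)
    have h2 := H.law (v + 1) (fun q => if q = v + 1 then (r : ℕ) else exc c q) (by
      intro q hq
      split_ifs with h
      · rw [h]
        exact r.2
      · exact exc_lt hc q hq)
    have e1 : {ω | Phi a (v + 1) ω = c} = {ω | ∀ q : ℕ, q.Prime → q ≤ v → a q ω % q = exc c q} := by
      ext ω
      rw [Set.mem_ofPred_eq, Set.mem_ofPred_eq, Phi_eq_iff a hc]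
      constructor
      · exact fun h q hq hqv => h q hq (by omega)
      · exact fun h q hq hqv => h q hq (by omega)
    have e2 : {ω | a (v + 1) ω % (v + 1) = r ∧ Phi a (v + 1) ω = c} =
        {ω | ∀ q : ℕ, q.Prime → q ≤ v + 1 →
          a q ω % q = (fun q => if q = v + 1 then (r : ℕ) else exc c q) q} := by
      ext ω
      rw [Set.mem_ofPred_eq, Set.mem_ofPred_eq, Phi_eq_iff a hc]
      constructor
      · rintro ⟨h3, h4⟩ q hq hqv
        show a q ω % q = if q = v + 1 then (r : ℕ) else exc c q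
        split_ifs with h
        · rw [h]
          exact h3
        · exact h4 q hq (by omega)
      · intro h
        constructor
        · have := h (v + 1) hp le_rfl
          simpa using this
        · intro q hq hqv
          have := h q hq (by omega)
          simp only at this
          rwa [if_neg (by omega)] at this
    have hn1 : ∀ s : Finset ℕ, 0 ≤ ∏ q ∈ s, ((q : ℕ) : ℝ)⁻¹ := fun s =>
      Finset.prod_nonneg fun q _ => by positivity
    rw [e1, e2, measureReal_def, measureReal_def, h1, h2, ENNReal.toReal_ofReal (hn1 _),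
      ENNReal.toReal_ofReal (hn1 _), Icc_filter_succ_prime hp, Finset.prod_insert (by simp)]
  · have e1 : {ω | Phi a p ω = c} = ∅ := by
      ext ω
      simp only [Set.mem_ofPred_eq, Set.mem_empty_iff_false, iff_false]
      rintro rfl
      exact hc (Phi_val a p ω)
    have e2 : {ω | a p ω % p = r ∧ Phi a p ω = c} = ∅ := by
      ext ω
      simp only [Set.mem_ofPred_eq, Set.mem_empty_iff_false, iff_false]
      rintro ⟨_, rfl⟩
      exact hc (Phi_val a p ω)
    rw [e1, e2]
    simp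

theorem ind : S_IND := by
  intro Ω _ P a H p hp G hG
  have := model_prob H
  have hGe : ∀ (r : ℕ) (ω : Ω), G r (fun q => a q ω) = G r (exc (Phi a p ω)) := by
    intro r ω
    apply hG
    intro q hq hqp
    rw [exc_Phi a p ω hq hqp, Nat.mod_mod]
  have hΦ := Phi_meas H p
  have hr : Measurable (fun ω => (⟨a p ω % p, Nat.mod_lt _ hp.pos⟩ : Fin p)) :=
    (Measurable.of_discrete (f := fun n : ℕ => (⟨n % p, Nat.mod_lt _ hp.pos⟩ : Fin p))).comp (H.meas p)
  have hΨ : Measurable (fun ω => ((⟨a p ω % p, Nat.mod_lt _ hp.pos⟩ : Fin p), Phi a p ω)) :=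
    hr.prodMk hΦ
  have k1 := fun h : (Fin p → Fin p) → ℝ => fin_int P (Phi a p) hΦ h
  have k2 := fin_int P (fun ω => ((⟨a p ω % p, Nat.mod_lt _ hp.pos⟩ : Fin p), Phi a p ω)) hΨ
    (fun x => G (x.1 : ℕ) (exc x.2))
  refine ⟨?_, ?_, ?_⟩
  · intro r
    simp only [hGe]
    exact (k1 fun c => G r (exc c)).1
  · simp only [hGe]
    exact k2.1
  · simp only [hGe]
    rw [(k1 fun c => (p : ℝ)⁻¹ * ∑ r ∈ Finset.range p, G r (exc c)).2]
    have k3 := k2.2
    simp only at k3
    rw [k3, Fintype.sum_prod_type, Finset.sum_comm]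
    refine Finset.sum_congr rfl fun c _ => ?_
    have k4 : ∀ r : Fin p, P.real ((fun ω => ((⟨a p ω % p, Nat.mod_lt _ hp.pos⟩ : Fin p),
        Phi a p ω)) ⁻¹' {(r, c)}) = (p : ℝ)⁻¹ * P.real (Phi a p ⁻¹' {c}) := by
      intro r
      have e1 : (fun ω => ((⟨a p ω % p, Nat.mod_lt _ hp.pos⟩ : Fin p), Phi a p ω)) ⁻¹' {(r, c)} =
          {ω | a p ω % p = r ∧ Phi a p ω = c} := by
        ext ω
        simp only [Set.mem_preimage, Set.mem_singleton_iff, Prod.mk.injEq, Fin.ext_iff,
          Set.mem_ofPred_eq, funext_iff]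
      have e2 : Phi a p ⁻¹' {c} = {ω | Phi a p ω = c} := rfl
      rw [e1, e2]
      exact joint H hp r c
    simp only [k4]
    rw [← Finset.mul_sum, ← Fin.sum_univ_eq_sum_range (fun r => G r (exc c)) p]
    ring

end Pool.Agent.H50.BF
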