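import Pool.Agent.H50.BF.Stm
import Pool.Agent.H50.G.B.R301.GM.Limits

set_option autoImplicit false

open MeasureTheory Filter
open scoped Topology ENNReal

namespace Pool.Agent.H50.BF

lemma MM_eq (N : ℕ) : MM N = Pool.Agent.R528.RM.MM N := rfl

lemma sv_rc (w n U : ℕ) : sv (fun _ => 0) w n U = Pool.Agent.R301.GM.rc w n U := by
  classical
  unfold sv Pool.Agent.R301.GM.rc
  congr 1
  ext k
  simp only [Finset.mem_filter, Pool.Agent.R301.GM.Free, Nat.zero_mod]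
  refine and_congr_right fun _ => ⟨fun h p hp hd => ?_, fun h p hp hpw h0 => ?_⟩
  · by_contra hcon
    push Not at hcon
    exact h p hp hcon (Nat.mod_eq_zero_of_dvd hd)
  · exact absurd (h p hp (Nat.dvd_of_mod_eq_zero h0)) (not_lt.2 hpw)

theorem mert : S_MERT := Pool.Agent.R528.RM.MM_lim

theorem fund : S_FUND := by
  intro ε hε
  obtain ⟨s, w0, hs, h⟩ := Pool.Agent.R301.GM.rc_fund hε
  refine ⟨s, w0, hs, fun w hw n U hU => ?_⟩
  rw [sv_rc, MM_eq]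
  exact h w hw n U hU

theorem buch : S_BUCH := by
  intro A
  have hnat : ∀ u : ℝ, 1 < u → Tendsto (fun w : ℕ => (sv (fun _ => 0) w 0 ⌊(w : ℝ) ^ u⌋₊ : ℝ) * MM w / (w : ℝ) ^ u) atTop
      (𝓝 (Real.exp Real.eulerMascheroniConstant * Pool.Agent.R529.BU.om u)) := by
    intro u hu
    have h1 := (Pool.Agent.R301.GM.rho (t := 1) (c := 0) one_pos hu).comp (tendsto_natCast_atTop_atTop (R := ℝ))
    refine h1.congr fun w => ?_
    simp only [Function.comp, Real.rpow_one, add_zero, one_mul, Nat.floor_natCast]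
    rw [sv_rc, Pool.Agent.R301.GM.rc_period (dvd_zero _), MM_eq]
  constructor
  · obtain ⟨u, hu, hom⟩ := Pool.Agent.R529.BU.om_lt (max A 2)
    have hu1 : 1 < u := by linarith [le_max_right A 2]
    have h2 : Real.exp Real.eulerMascheroniConstant * Pool.Agent.R529.BU.om u < 1 := by
      have h3 := Pool.Agent.R301.GM.eg_mul_exp
      unfold Pool.Agent.R301.GM.eg at h3
      rw [← h3]
      exact mul_lt_mul_of_pos_left hom (Real.exp_pos _)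
    obtain ⟨c, hc1, hc2⟩ := exists_between h2
    exact ⟨u, c, (le_max_left _ _).trans hu, hc2, ((hnat u hu1).eventually (gt_mem_nhds hc1)).mono fun _ h => h.le⟩
  · obtain ⟨u, hu, hom⟩ := Pool.Agent.R529.BU.om_gt (max A 2)
    have hu1 : 1 < u := by linarith [le_max_right A 2]
    have h2 : 1 < Real.exp Real.eulerMascheroniConstant * Pool.Agent.R529.BU.om u := by
      have h3 := Pool.Agent.R301.GM.eg_mul_exp
      unfold Pool.Agent.R301.GM.eg at h3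
      rw [← h3]
      exact mul_lt_mul_of_pos_left hom (Real.exp_pos _)
    obtain ⟨c, hc1, hc2⟩ := exists_between h2
    exact ⟨u, c, (le_max_left _ _).trans hu, hc1, ((hnat u hu1).eventually (lt_mem_nhds hc2)).mono fun _ h => h.le⟩

open Pool.Agent.R528.RM in
/-- Granville's model satisfies the hypothesis of `S_GRA` -/
theorem granville {Ω : Type} [m0 : MeasurableSpace Ω] {μ : Measure Ω} [IsProbabilityMeasure μ]
    {ℱ : Filtration ℕ m0} {A : ℕ → Set Ω} (hA : ∀ n, MeasurableSet[ℱ n] (A n)) {z : ℕ → ℕ} (hmono : Monotone z)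
    (hz : Tendsto (fun n : ℕ => Real.log (z n) / Real.log (Real.log n)) atTop (𝓝 1))
    (hcop : ∀ n, ¬ Pool.Agent.R301.GM.Free (z n) n → A n = ∅)
    (hd : ∀ᵐ ω ∂μ, Tendsto (fun n : ℕ => Pool.Agent.R528.RM.dens μ ℱ A n ω * Real.log n / Pool.Agent.R528.RM.MM (z (n + 1)))
      (atTop ⊓ 𝓟 {n | Pool.Agent.R301.GM.Free (z (n + 1)) (n + 1)}) (𝓝 1)) :
    ∀ᵐ ω ∂μ, ∀ δ : ℝ, 0 < δ → ∃ C : ℝ, ∀ᶠ n : ℕ in atTop, ∀ U : ℕ, U ≤ n →
    (1 - δ) * (MM (z (3 * n)) / Real.log n * sv (fun _ => 0) (z (3 * n)) n U) - C * Real.log n ≤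
      (Set.ncard {m : ℕ | m ∈ {k | ω ∈ A k} ∧ n < m ∧ m ≤ n + U} : ℝ) ∧
    (Set.ncard {m : ℕ | m ∈ {k | ω ∈ A k} ∧ n < m ∧ m ≤ n + U} : ℝ) ≤
      (1 + δ) * (MM (z n) / Real.log n * sv (fun _ => 0) (z n) n U) + C * Real.log n := by
  have h01 : ∀ᵐ ω ∂μ, ∀ n, 0 ≤ Pool.Agent.R528.RM.dens μ ℱ A n ω ∧ Pool.Agent.R528.RM.dens μ ℱ A n ω ≤ 1 :=
    ae_all_iff.2 fun n => dens01 hA n
  filter_upwards [Pool.Agent.R301.GM.conc (μ := μ) hA, h01, hd] with ω h1 h2 h3 ε hε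
  obtain ⟨δ, hδ0, hδ1, hδ2, hδ3⟩ : ∃ δ : ℝ, 0 < δ ∧ δ ≤ 1 / 2 ∧
      (1 + δ) ^ 2 * (1 + 3 * δ) / (1 - δ) < 1 + ε ∧ 1 - ε < (1 - δ) ^ 3 / ((1 + δ) * (1 + 3 * δ)) := by
    have hcont : ContinuousAt (fun δ : ℝ => (1 + δ) ^ 2 * (1 + 3 * δ) / (1 - δ)) 0 := by
      have : (1 : ℝ) - 0 ≠ 0 := by norm_num
      fun_prop (disch := assumption)
    have hcont2 : ContinuousAt (fun δ : ℝ => (1 - δ) ^ 3 / ((1 + δ) * (1 + 3 * δ))) 0 := by
      have : ((1 : ℝ) + 0) * (1 + 3 * 0) ≠ 0 := by norm_num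
      fun_prop (disch := assumption)
    have g1 := hcont.eventually (gt_mem_nhds (show (fun δ : ℝ => (1 + δ) ^ 2 * (1 + 3 * δ) / (1 - δ)) 0 < 1 + ε by
      norm_num; exact hε))
    have g2 := hcont2.eventually (lt_mem_nhds (show 1 - ε < (fun δ : ℝ => (1 - δ) ^ 3 / ((1 + δ) * (1 + 3 * δ))) 0 by
      norm_num; exact hε))
    obtain ⟨e, he, hball⟩ := Metric.eventually_nhds_iff.1 (g1.and g2)
    have hm : 0 < min (e / 2) (1 / 2 : ℝ) := lt_min (by positivity) (by norm_num)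
    have := hball (y := min (e / 2) (1 / 2)) (by
      rw [Real.dist_eq, sub_zero, abs_of_pos hm]
      exact (min_le_left _ _).trans_lt (by linarith))
    exact ⟨min (e / 2) (1 / 2), hm, min_le_right _ _, this.1, this.2⟩
  obtain ⟨C, hC, h4⟩ := h1 δ hδ0
  have h5 := Pool.Agent.R301.GM.ds_bounds hmono one_pos hz hδ0 (by linarith) (D := fun n => Pool.Agent.R528.RM.dens μ ℱ A n ω)
    (fun n => (h2 n).1) (fun n hn => Pool.Agent.R301.GM.dens_empty (hcop _ hn) ω) h3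
  refine ⟨C, ?_⟩
  filter_upwards [h4, h5, Pool.Agent.R301.GM.unif_facts one_pos hz 0 hδ0 (by linarith)] with n h4 h5 h6 U hU
  obtain ⟨hL1, hY0, h6⟩ := h6
  obtain ⟨b1, b2⟩ := h5 n U le_rfl (by omega)
  have g := h4 U (by omega)
  have k1 := (h6 n le_rfl (by omega)).2.2.2.1
  have k2 := (h6 (3 * n) (by omega) (by omega)).2.2.2.2.1
  have hcard : (Set.ncard {m : ℕ | ω ∈ A m ∧ n < m ∧ m ≤ n + U} : ℝ) =
      Pool.Agent.R301.GM.NN A n U ω := by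
    rw [← Pool.Agent.R301.GM.cnt_eq_NN, cnt_eq_ncard]
  rw [hcard, sv_rc, sv_rc, MM_eq, MM_eq]
  obtain ⟨Y, hY⟩ : ∃ Y : ℝ, Y = Real.exp Real.eulerMascheroniConstant * 1 * Real.log (Real.log n) := ⟨_, rfl⟩
  have hY' : Pool.Agent.R301.GM.eg * 1 * Real.log (Real.log n) = Y := by rw [hY]; rfl
  rw [hY'] at b1 b2
  rw [← hY] at hY0 k1 k2
  obtain ⟨L, hL⟩ : ∃ L : ℝ, L = Real.log n := ⟨_, rfl⟩
  rw [← hL] at hL1 b1 b2 g ⊢
  have hL0 : 0 < L := by linarith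
  obtain ⟨S, hS⟩ : ∃ S : ℝ, S = Pool.Agent.R301.GM.DS μ ℱ A n U ω := ⟨_, rfl⟩
  have b1' : S ≤ (1 + δ) * (1 + 3 * δ) * Y / L * Pool.Agent.R301.GM.rc (z n) n U := by rw [hS]; exact b1
  have b2' : (1 - δ) ^ 2 * Y / ((1 + δ) * L) * Pool.Agent.R301.GM.rc (z (3 * n)) n U ≤ S := by rw [hS]; exact b2
  rw [← hS] at g
  obtain ⟨r1, hr1⟩ : ∃ r : ℝ, r = (Pool.Agent.R301.GM.rc (z n) n U : ℝ) := ⟨_, rfl⟩
  obtain ⟨r2, hr2⟩ : ∃ r : ℝ, r = (Pool.Agent.R301.GM.rc (z (3 * n)) n U : ℝ) := ⟨_, rfl⟩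
  rw [← hr1] at b1' ⊢
  rw [← hr2] at b2' ⊢
  have hr10 : 0 ≤ r1 := by rw [hr1]; positivity
  have hr20 : 0 ≤ r2 := by rw [hr2]; positivity
  obtain ⟨M1, hM1⟩ : ∃ M : ℝ, M = Pool.Agent.R528.RM.MM (z n) := ⟨_, rfl⟩
  obtain ⟨M2, hM2⟩ : ∃ M : ℝ, M = Pool.Agent.R528.RM.MM (z (3 * n)) := ⟨_, rfl⟩
  rw [← hM1] at k1 ⊢
  rw [← hM2] at k2 ⊢
  have hM10 : 0 < M1 := by rw [hM1]; exact MM_pos _
  have hM20 : 0 < M2 := by rw [hM2]; exact MM_pos _
  have h1δ : 0 < 1 - δ := by linarith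
  obtain ⟨g1, g2⟩ := abs_le.1 g
  constructor
  · have q1 : M2 / (1 + 3 * δ) ≤ Y := by
      rw [div_le_iff₀ (by linarith)]
      linarith
    have q2 : (1 - δ) ^ 2 * (M2 / (1 + 3 * δ)) / ((1 + δ) * L) * r2 ≤ S := by
      refine le_trans ?_ b2'
      apply mul_le_mul_of_nonneg_right _ hr20
      apply div_le_div_of_nonneg_right _ (by positivity)
      exact mul_le_mul_of_nonneg_left q1 (by positivity)
    have q3 : (1 - ε) * (M2 / L * r2) ≤ (1 - δ) ^ 3 / ((1 + δ) * (1 + 3 * δ)) * (M2 / L * r2) :=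
      mul_le_mul_of_nonneg_right hδ3.le (by positivity)
    have q4 : (1 - δ) ^ 3 / ((1 + δ) * (1 + 3 * δ)) * (M2 / L * r2) =
        (1 - δ) * ((1 - δ) ^ 2 * (M2 / (1 + 3 * δ)) / ((1 + δ) * L) * r2) := by
      field_simp
    rw [q4] at q3
    have q5 := mul_le_mul_of_nonneg_left q2 h1δ.le
    linarith
  · have q1 : Y ≤ M1 / (1 - δ) := by
      rw [le_div_iff₀ h1δ]
      linarith
    have q2 : S ≤ (1 + δ) * (1 + 3 * δ) * (M1 / (1 - δ)) / L * r1 := by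
      refine b1'.trans ?_
      apply mul_le_mul_of_nonneg_right _ hr10
      apply div_le_div_of_nonneg_right _ hL0.le
      exact mul_le_mul_of_nonneg_left q1 (by positivity)
    have q3 : (1 + δ) ^ 2 * (1 + 3 * δ) / (1 - δ) * (M1 / L * r1) ≤ (1 + ε) * (M1 / L * r1) :=
      mul_le_mul_of_nonneg_right hδ2.le (by positivity)
    have q4 : (1 + δ) ^ 2 * (1 + 3 * δ) / (1 - δ) * (M1 / L * r1) =
        (1 + δ) * ((1 + δ) * (1 + 3 * δ) * (M1 / (1 - δ)) / L * r1) := by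
      field_simp
    rw [q4] at q3
    have q5 := mul_le_mul_of_nonneg_left q2 (show 0 ≤ 1 + δ by linarith)
    linarith

end Pool.Agent.H50.BF
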