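import Pool.Agent.H50.BF.Stm

set_option autoImplicit false

open MeasureTheory Filter
open scoped Topology ENNReal NNReal

namespace Pool.Agent.H50.BF.LIM

theorem liminf_le_aux {α β : Type} {l : Filter α} {l' : Filter β} {F : α → ℝ≥0∞} {G : β → ℝ≥0∞}
    (h : ∀ ε : ℝ≥0, 0 < ε → ∀ c : ℝ≥0∞, (∃ᶠ x in l, F x ≤ c) → ∃ᶠ y in l', G y ≤ c + ε) :
    liminf G l' ≤ liminf F l := by
  refine ENNReal.le_of_forall_pos_le_add fun ε hε hlt => ?_
  have h2 : (0 : ℝ≥0) < ε / 2 := half_pos hε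
  have h1 : liminf F l < liminf F l + (ε / 2 : ℝ≥0) :=
    ENNReal.lt_add_right hlt.ne (by exact_mod_cast h2.ne')
  have h3 := h (ε / 2) h2 _ ((frequently_lt_of_liminf_lt (by isBoundedDefault) h1).mono
    fun x hx => hx.le)
  have h4 := liminf_le_of_frequently_le h3 (by isBoundedDefault)
  refine h4.trans (le_of_eq ?_)
  rw [add_assoc, ← ENNReal.coe_add, add_halves]

theorem limsup_le_aux {α β : Type} {l : Filter α} {l' : Filter β} {F : α → ℝ≥0∞} {G : β → ℝ≥0∞}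
    (h : ∀ ε : ℝ≥0, 0 < ε → ∀ c : ℝ≥0∞, (∀ᶠ x in l, F x ≤ c) → ∀ᶠ y in l', G y ≤ c + ε) :
    limsup G l' ≤ limsup F l := by
  refine ENNReal.le_of_forall_pos_le_add fun ε hε hlt => ?_
  have h2 : (0 : ℝ≥0) < ε / 2 := half_pos hε
  have h1 : limsup F l < limsup F l + (ε / 2 : ℝ≥0) :=
    ENNReal.lt_add_right hlt.ne (by exact_mod_cast h2.ne')
  have h3 := h (ε / 2) h2 _ ((eventually_lt_of_limsup_lt h1 (by isBoundedDefault)).mono
    fun x hx => hx.le)
  have h4 := limsup_le_of_le (by isBoundedDefault) h3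
  refine h4.trans (le_of_eq ?_)
  rw [add_assoc, ← ENNReal.coe_add, add_halves]

theorem ofReal_le_add {x y : ℝ} {ε : ℝ≥0} (h : x ≤ y + ε) :
    ENNReal.ofReal x ≤ ENNReal.ofReal y + ε := by
  refine (ENNReal.ofReal_le_ofReal h).trans (ENNReal.ofReal_add_le.trans (le_of_eq ?_))
  rw [ENNReal.ofReal_coe_nnreal]

theorem tend : Tendsto (fun x : ℝ => ⌊Real.log x⌋₊) atTop atTop :=
  tendsto_nat_floor_atTop.comp Real.tendsto_log_atTop

theorem main_gen (f : ℝ → ℝ) (lo hi : ℕ → ℝ)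
    (hA : ∀ ε : ℝ, 0 < ε → ∀ᶠ x : ℝ in atTop,
      lo ⌊Real.log x⌋₊ ≤ f x + ε ∧ f x ≤ hi ⌊Real.log x⌋₊ + ε)
    (hB : ∀ ε : ℝ, 0 < ε → ∀ᶠ w : ℕ in atTop,
      (∃ x : ℝ, Real.exp w ≤ x ∧ f x ≤ lo w + ε) ∧ (∃ x : ℝ, Real.exp w ≤ x ∧ hi w ≤ f x + ε)) :
    liminf (fun x : ℝ => ENNReal.ofReal (f x)) atTop =
      liminf (fun w : ℕ => ENNReal.ofReal (lo w)) atTop ∧
    limsup (fun x : ℝ => ENNReal.ofReal (f x)) atTop =
      limsup (fun w : ℕ => ENNReal.ofReal (hi w)) atTop := by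
  have hexp : ∀ X : ℝ, ∀ᶠ w : ℕ in atTop, X ≤ Real.exp w := fun X =>
    (Real.tendsto_exp_atTop.comp tendsto_natCast_atTop_atTop).eventually_ge_atTop X
  refine ⟨le_antisymm ?_ ?_, le_antisymm ?_ ?_⟩
  · refine liminf_le_aux fun ε hε c hc => ?_
    rw [frequently_atTop]
    intro X
    obtain ⟨w, hw1, hw2, hw3⟩ := (hc.and_eventually ((hB ε (by exact_mod_cast hε)).and
      (hexp X))).exists
    obtain ⟨⟨x, hx1, hx2⟩, -⟩ := hw2
    exact ⟨x, hw3.trans hx1, (ofReal_le_add hx2).trans (add_le_add_left hw1 _)⟩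
  · refine liminf_le_aux fun ε hε c hc => ?_
    refine tend.frequently ((hc.and_eventually (hA ε (by exact_mod_cast hε))).mono
      fun x hx => ?_)
    exact (ofReal_le_add hx.2.1).trans (add_le_add_left hx.1 _)
  · refine limsup_le_aux fun ε hε c hc => ?_
    filter_upwards [tend.eventually hc, hA ε (by exact_mod_cast hε)] with x h1 h2
    exact (ofReal_le_add h2.2).trans (add_le_add_left h1 _)
  · refine limsup_le_aux fun ε hε c hc => ?_
    obtain ⟨X, hX⟩ := eventually_atTop.1 hc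
    filter_upwards [hB ε (by exact_mod_cast hε), hexp X] with w h1 h2
    obtain ⟨-, x, hx1, hx2⟩ := h1
    exact (ofReal_le_add hx2).trans (add_le_add_left (hX x (h2.trans hx1)) _)

end LIM

theorem lim : S_EXTA → S_EXTB → S_LIM := by
  intro hA hB S a s hs h
  refine LIM.main_gen (fun x => RR S s x) (fun w => lo w s) (fun w => hi w s)
    (fun ε hε => ?_) (fun ε hε => ?_)
  · filter_upwards [hA a s (ε / 2) hs (half_pos hε), h (ε / 2) (half_pos hε)] with x h1 h2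
    rw [abs_le] at h2
    constructor <;> linarith [h1.1, h1.2, h2.1, h2.2]
  · obtain ⟨X, hX⟩ := eventually_atTop.1 (h (ε / 2) (half_pos hε))
    have hexp : ∀ᶠ w : ℕ in atTop, X ≤ Real.exp w :=
      (Real.tendsto_exp_atTop.comp tendsto_natCast_atTop_atTop).eventually_ge_atTop X
    filter_upwards [hB a s (ε / 2) hs (half_pos hε), hexp] with w h1 h2
    obtain ⟨⟨x, -, hx2, hx3⟩, ⟨y, -, hy2, hy3⟩⟩ := h1
    have hx := abs_le.1 (hX x (h2.trans hx2))
    have hy := abs_le.1 (hX y (h2.trans hy2))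
    exact ⟨⟨x, hx2, by linarith [hx.1, hx.2]⟩, ⟨y, hy2, by linarith [hy.1, hy.2]⟩⟩

end Pool.Agent.H50.BF
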