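import Pool.Agent.H50.BF.Aux58

/-! # BF-MAIN (helper58) -/

set_option autoImplicit false

open MeasureTheory Filter
open scoped Topology ENNReal

namespace Pool.Agent.H50.BF

open A58

theorem main_lower (a z : ℕ → ℕ) (hz : Monotone z) (s x : ℝ) (hx : 1 ≤ x) :
    (sv a (z (⌊x⌋₊ + ⌊Real.log x ^ s⌋₊)) ⌊x⌋₊ ⌊Real.log x ^ s⌋₊ : ℝ) ≤
      (Set.ncard {m : ℕ | m ∈ Rset a z ∧ x < m ∧ (m : ℝ) ≤ x + Real.log x ^ s} : ℝ) := by
  classical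
  set n := ⌊x⌋₊ with hn
  set V := ⌊Real.log x ^ s⌋₊ with hV
  have hlx : 0 ≤ Real.log x := Real.log_nonneg hx
  have hls : 0 ≤ Real.log x ^ s := Real.rpow_nonneg hlx _
  have hfin : {m : ℕ | m ∈ Rset a z ∧ x < m ∧ (m : ℝ) ≤ x + Real.log x ^ s}.Finite := by
    apply (Set.finite_Iic ⌊x + Real.log x ^ s⌋₊).subset
    rintro m ⟨-, -, hm⟩
    exact Nat.le_floor hm
  have h1 : sv a (z (n + V)) n V ≤
      Set.ncard {m : ℕ | m ∈ Rset a z ∧ x < m ∧ (m : ℝ) ≤ x + Real.log x ^ s} := by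
    unfold sv
    rw [← Finset.card_image_of_injective (f := fun k => n + k + 1) _ (fun k k' h => by
      simp only at h
      omega), ← Set.ncard_coe_finset]
    refine Set.ncard_le_ncard ?_ hfin
    intro m hm
    obtain ⟨k, hk, rfl⟩ := Finset.mem_image.1 (Finset.mem_coe.1 hm)
    obtain ⟨hkV, hks⟩ := Finset.mem_filter.1 hk
    rw [Finset.mem_range] at hkV
    have hxn : x < (n : ℝ) + 1 := Nat.lt_floor_add_one x
    have hnx : (n : ℝ) ≤ x := Nat.floor_le (by linarith)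
    have hVl : (V : ℝ) ≤ Real.log x ^ s := Nat.floor_le hls
    refine ⟨?_, ?_, ?_⟩
    · intro p hp hpz
      refine hks p hp (hpz.trans (hz ?_))
      omega
    · push_cast
      have : (0 : ℝ) ≤ k := Nat.cast_nonneg _
      linarith
    · have h2 : ((n + k + 1 : ℕ) : ℝ) ≤ ((n + V : ℕ) : ℝ) := by
        exact_mod_cast (by omega : n + k + 1 ≤ n + V)
      push_cast at h2 ⊢
      linarith
  exact_mod_cast h1

theorem main_upper (a z : ℕ → ℕ) (hz : Monotone z) (s x : ℝ) (hx : 1 ≤ x) :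
    (Set.ncard {m : ℕ | m ∈ Rset a z ∧ x < m ∧ (m : ℝ) ≤ x + Real.log x ^ s} : ℝ) ≤
      (sv a (z ⌊x⌋₊) ⌊x⌋₊ ⌊Real.log x ^ s⌋₊ : ℝ) + 1 := by
  classical
  set n := ⌊x⌋₊ with hn
  set V := ⌊Real.log x ^ s⌋₊ with hV
  have hlx : 0 ≤ Real.log x := Real.log_nonneg hx
  have hls : 0 ≤ Real.log x ^ s := Real.rpow_nonneg hlx _
  have h1 : Set.ncard {m : ℕ | m ∈ Rset a z ∧ x < m ∧ (m : ℝ) ≤ x + Real.log x ^ s} ≤
      sv a (z n) n V + 1 := by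
    unfold sv
    set F : Finset ℕ := insert (n + V + 1) (((Finset.range V).filter (fun k => ∀ p : ℕ, p.Prime →
      p ≤ z n → (n + k + 1) % p ≠ a p % p)).image (fun k => n + k + 1)) with hF
    have hFc : F.card ≤ ((Finset.range V).filter (fun k => ∀ p : ℕ, p.Prime →
      p ≤ z n → (n + k + 1) % p ≠ a p % p)).card + 1 := by
      refine (Finset.card_insert_le _ _).trans ?_
      exact Nat.add_le_add_right Finset.card_image_le 1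
    refine le_trans ?_ (le_trans hFc (le_of_eq ?_))
    · rw [← Set.ncard_coe_finset]
      refine Set.ncard_le_ncard ?_ F.finite_toSet
      rintro m ⟨hm1, hm2, hm3⟩
      have hxn : x < (n : ℝ) + 1 := Nat.lt_floor_add_one x
      have hnx : (n : ℝ) ≤ x := Nat.floor_le (by linarith)
      have hnm : n < m := by
        have : (n : ℝ) < m := lt_of_le_of_lt hnx hm2
        exact_mod_cast this
      obtain ⟨k, rfl⟩ : ∃ k, m = n + k + 1 := ⟨m - n - 1, by omega⟩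
      have hk : (k : ℝ) ≤ Real.log x ^ s := by
        push_cast at hm3
        linarith
      have hkV : k ≤ V := Nat.le_floor hk
      rw [hF, Finset.mem_coe, Finset.mem_insert]
      rcases Nat.lt_or_ge k V with h | h
      · right
        refine Finset.mem_image.2 ⟨k, Finset.mem_filter.2 ⟨Finset.mem_range.2 h, ?_⟩, rfl⟩
        intro p hp hpz
        exact hm1 p hp (hpz.trans (hz (by omega)))
      · left
        have : k = V := le_antisymm hkV h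
        rw [this]
    · congr
  exact_mod_cast h1

/-- the estimate at one point -/
theorem main_pt (a z : ℕ → ℕ) (hz : Monotone z) (s ε x C2 δ : ℝ) (w l : ℕ) (hε : 0 < ε)
    (hx : 1 ≤ x) (hlog : 0 < Real.log x) (hC2 : 0 < C2) (hδ : 0 < δ)
    (hδC : δ * (C2 + ε) ≤ ε / 4)
    (hw : ⌊Real.log x⌋₊ = w)
    (hV : 0 < (⌊Real.log x ^ s⌋₊ : ℝ))
    (hL : 0 < Real.log (⌊x⌋₊ : ℝ))
    (hu1 : MM (z (⌊x⌋₊ + ⌊Real.log x ^ s⌋₊)) ≤ 2 * Real.log (⌊x⌋₊ : ℝ))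
    (hu2 : MM (z ⌊x⌋₊) ≤ 2 * Real.log (⌊x⌋₊ : ℝ))
    (hc1 : |(sv a (z (⌊x⌋₊ + ⌊Real.log x ^ s⌋₊)) ⌊x⌋₊ ⌊Real.log x ^ s⌋₊ : ℝ) -
      sv a l ⌊x⌋₊ ⌊Real.log x ^ s⌋₊ * (MM l / MM (z (⌊x⌋₊ + ⌊Real.log x ^ s⌋₊)))| ≤
        ε / 16 * (⌊Real.log x ^ s⌋₊ / Real.log (⌊x⌋₊ : ℝ)))
    (hc2 : |(sv a (z ⌊x⌋₊) ⌊x⌋₊ ⌊Real.log x ^ s⌋₊ : ℝ) -
      sv a l ⌊x⌋₊ ⌊Real.log x ^ s⌋₊ * (MM l / MM (z ⌊x⌋₊))| ≤
        ε / 16 * (⌊Real.log x ^ s⌋₊ / Real.log (⌊x⌋₊ : ℝ)))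
    (ht : |(sv a w ⌊x⌋₊ ⌊Real.log x ^ s⌋₊ : ℝ) * (MM w / ⌊Real.log x ^ s⌋₊) -
      sv a l ⌊x⌋₊ ⌊Real.log x ^ s⌋₊ * (MM l / ⌊Real.log x ^ s⌋₊)| ≤ ε / 8)
    (hb : (sv a w ⌊x⌋₊ ⌊Real.log x ^ s⌋₊ : ℝ) * (MM w / ⌊Real.log x ^ s⌋₊) ≤ C2)
    (hr1 : |Real.log x / MM (z (⌊x⌋₊ + ⌊Real.log x ^ s⌋₊)) - 1| ≤ δ)
    (hr2 : |Real.log x / MM (z ⌊x⌋₊) - 1| ≤ δ)
    (hsm : Real.log x / Real.log x ^ s ≤ ε / 4) :
    |RR (Rset a z) s x - dens a s x| ≤ ε := by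
  have hlo := main_lower a z hz s x hx
  have hup := main_upper a z hz s x hx
  unfold RR dens
  rw [hw]
  set n := ⌊x⌋₊ with hn
  set V := ⌊Real.log x ^ s⌋₊ with hVdef
  set u1 := z (n + V) with hu1d
  set u2 := z n with hu2d
  set N : ℝ := (Set.ncard {m : ℕ | m ∈ Rset a z ∧ x < m ∧ (m : ℝ) ≤ x + Real.log x ^ s} : ℝ) with hN
  set ℓ := Real.log x with hℓ
  set L := Real.log (n : ℝ) with hLd
  have hM1 := MM_pos u1
  have hM2 := MM_pos u2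
  have hMw := MM_pos w
  have hls : 0 < ℓ ^ s := Real.rpow_pos_of_pos hlog s
  -- the densities
  have key : ∀ u : ℕ, MM u ≤ 2 * L →
      |(sv a u n V : ℝ) - sv a l n V * (MM l / MM u)| ≤ ε / 16 * (V / L) →
      |(sv a u n V : ℝ) * (MM u / V) - sv a l n V * (MM l / V)| ≤ ε / 8 := by
    intro u hu h
    have hMu := MM_pos u
    have e : (sv a u n V : ℝ) * (MM u / V) - sv a l n V * (MM l / V) =
        (MM u / V) * ((sv a u n V : ℝ) - sv a l n V * (MM l / MM u)) := by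
      field_simp
    rw [e, abs_mul, abs_of_pos (by positivity : 0 < MM u / V)]
    calc MM u / V * |(sv a u n V : ℝ) - sv a l n V * (MM l / MM u)| ≤
          MM u / V * (ε / 16 * (V / L)) := mul_le_mul_of_nonneg_left h (by positivity)
      _ = ε / 16 * (MM u / L) := by field_simp
      _ ≤ ε / 16 * 2 := by
          apply mul_le_mul_of_nonneg_left _ (by positivity)
          rw [div_le_iff₀ hL]
          exact hu
      _ = ε / 8 := by ring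
  have k1 := key u1 hu1 hc1
  have k2 := key u2 hu2 hc2
  set Qw := (sv a w n V : ℝ) * (MM w / V) with hQw
  set Ql := (sv a l n V : ℝ) * (MM l / V) with hQl
  set Q1 := (sv a u1 n V : ℝ) * (MM u1 / V) with hQ1
  set Q2 := (sv a u2 n V : ℝ) * (MM u2 / V) with hQ2
  have hQ10 : 0 ≤ Q1 := by positivity
  have hQ20 : 0 ≤ Q2 := by positivity
  rw [abs_le] at k1 k2 ht hr1 hr2
  set ρ := (V : ℝ) / ℓ ^ s with hρ
  have hρ0 : 0 ≤ ρ := by positivity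
  have hρ1 : ρ ≤ 1 := by
    rw [hρ, div_le_one hls]
    exact Nat.floor_le hls.le
  have hdens : (sv a w n V : ℝ) * MM w / ℓ ^ s = ρ * Qw := by
    rw [hρ, hQw]
    field_simp
  have e1 : ℓ / ℓ ^ s * (sv a u1 n V : ℝ) = ρ * (ℓ / MM u1 * Q1) := by
    rw [hρ, hQ1]
    field_simp
  have e2 : ℓ / ℓ ^ s * (sv a u2 n V : ℝ) = ρ * (ℓ / MM u2 * Q2) := by
    rw [hρ, hQ2]
    field_simp
  have hq : 0 ≤ ℓ / ℓ ^ s := by positivity
  have hR1 : ρ * (ℓ / MM u1 * Q1) ≤ ℓ / ℓ ^ s * N := by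
    rw [← e1]
    exact mul_le_mul_of_nonneg_left hlo hq
  have hR2 : ℓ / ℓ ^ s * N ≤ ρ * (ℓ / MM u2 * Q2) + ε / 4 := by
    calc ℓ / ℓ ^ s * N ≤ ℓ / ℓ ^ s * ((sv a u2 n V : ℝ) + 1) := mul_le_mul_of_nonneg_left hup hq
      _ = ρ * (ℓ / MM u2 * Q2) + ℓ / ℓ ^ s := by rw [← e2]; ring
      _ ≤ _ := by linarith
  rw [hdens, abs_le]
  have hb1 : Q1 ≤ C2 + ε := by linarith [k1.2, ht.1]
  have hb2 : Q2 ≤ C2 + ε := by linarith [k2.2, ht.1]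
  have m1 : δ * Q1 ≤ ε / 4 := (mul_le_mul_of_nonneg_left hb1 hδ.le).trans hδC
  have m2 : δ * Q2 ≤ ε / 4 := (mul_le_mul_of_nonneg_left hb2 hδ.le).trans hδC
  constructor
  · have h3 : (1 - δ) * Q1 ≤ ℓ / MM u1 * Q1 := mul_le_mul_of_nonneg_right (by linarith [hr1.1]) hQ10
    have h4 : -(ε / 2) ≤ ℓ / MM u1 * Q1 - Qw := by linarith [k1.1, ht.2]
    have h5 : -(ε / 2) ≤ ρ * (ℓ / MM u1 * Q1 - Qw) := by
      nlinarith
    linarith
  · have h3 : ℓ / MM u2 * Q2 ≤ (1 + δ) * Q2 := mul_le_mul_of_nonneg_right (by linarith [hr2.2]) hQ20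
    have h4 : ℓ / MM u2 * Q2 - Qw ≤ ε / 2 := by linarith [k2.2, ht.1]
    have h5 : ρ * (ℓ / MM u2 * Q2 - Qw) ≤ ε / 2 := by
      nlinarith
    linarith

theorem tendsto_ratio (y : ℝ → ℝ) (h : ∀ᶠ x : ℝ in atTop, Real.log x - 1 ≤ y x ∧ y x ≤ Real.log x + 1) :
    Tendsto (fun x => y x / Real.log x) atTop (𝓝 1) := by
  have h0 : Tendsto (fun x : ℝ => (Real.log x)⁻¹) atTop (𝓝 0) :=
    tendsto_inv_atTop_zero.comp Real.tendsto_log_atTop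
  have h1 : Tendsto (fun x : ℝ => 1 - (Real.log x)⁻¹) atTop (𝓝 1) := by
    have := h0.const_sub 1
    rwa [sub_zero] at this
  have h2 : Tendsto (fun x : ℝ => 1 + (Real.log x)⁻¹) atTop (𝓝 1) := by
    have := h0.const_add 1
    rwa [add_zero] at this
  have hpos : ∀ᶠ x : ℝ in atTop, 0 < Real.log x := Real.tendsto_log_atTop.eventually_gt_atTop 0
  refine tendsto_of_tendsto_of_tendsto_of_le_of_le' h1 h2 ?_ ?_
  · filter_upwards [h, hpos] with x hx hp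
    rw [le_div_iff₀ hp, sub_mul, inv_mul_cancel₀ hp.ne']
    linarith [hx.1]
  · filter_upwards [h, hpos] with x hx hp
    rw [div_le_iff₀ hp, add_mul, inv_mul_cancel₀ hp.ne']
    linarith [hx.2]

/-- `log x - 1 ≤ log ⌊x⌋ ≤ log x` -/
theorem log_floor (x : ℝ) (hx : 1 ≤ x) : Real.log x - 1 ≤ Real.log (⌊x⌋₊ : ℝ) ∧
    Real.log (⌊x⌋₊ : ℝ) ≤ Real.log x := by
  have h1 : (⌊x⌋₊ : ℝ) ≤ x := Nat.floor_le (by linarith)
  have h2 : x < (⌊x⌋₊ : ℝ) + 1 := Nat.lt_floor_add_one x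
  have h3 : (1 : ℝ) ≤ (⌊x⌋₊ : ℝ) := by
    have : 1 ≤ ⌊x⌋₊ := Nat.le_floor (by simpa using hx)
    exact_mod_cast this
  refine ⟨?_, Real.log_le_log (by linarith) h1⟩
  have h4 : Real.log x ≤ Real.log (2 * (⌊x⌋₊ : ℝ)) := Real.log_le_log (by linarith) (by linarith)
  rw [Real.log_mul (by norm_num) (by linarith)] at h4
  have h5 : Real.log 2 < 0.6931471808 := Real.log_two_lt_d9
  linarith

theorem main (hT : S_TRANS) (hS : S_SUB) (_hM : S_MERT) : S_MAIN := by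
  intro a z hz hMz hCon s hs ε hε
  obtain ⟨C1, hC1, htr⟩ := hT
  obtain ⟨C2, hC2, hsub⟩ := hS
  -- the choice of k
  obtain ⟨k, hk4, hks, hkC⟩ : ∃ k : ℕ, 4 ≤ k ∧ 2 + 1 / (k : ℝ) < s ∧ C1 * (2 / (k : ℝ)) ≤ ε / 8 := by
    have h1 : ∀ᶠ k : ℕ in atTop, 1 / (k : ℝ) < s - 2 :=
      tendsto_one_div_atTop_nhds_zero_nat.eventually_lt_const (by linarith)
    have h2 : ∀ᶠ k : ℕ in atTop, 1 / (k : ℝ) < ε / (16 * C1) :=
      tendsto_one_div_atTop_nhds_zero_nat.eventually_lt_const (by positivity)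
    obtain ⟨k, h3, h4, h5⟩ := (h1.and (h2.and (eventually_ge_atTop 4))).exists
    refine ⟨k, h5, by linarith, ?_⟩
    have : C1 * (2 / (k : ℝ)) = 2 * C1 * (1 / (k : ℝ)) := by ring
    rw [this]
    calc 2 * C1 * (1 / (k : ℝ)) ≤ 2 * C1 * (ε / (16 * C1)) :=
          mul_le_mul_of_nonneg_left h4.le (by positivity)
      _ = ε / 8 := by field_simp; norm_num
  have hk0 : (4 : ℝ) ≤ k := by exact_mod_cast hk4
  have hkpos : (0 : ℝ) < k := by linarith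
  set η : ℝ := 2 / (k : ℝ) with hη
  have hη0 : 0 < η := by positivity
  have hη1 : η ≤ 1 / 2 := by
    rw [hη, div_le_iff₀ hkpos]
    linarith
  have hk1 : 1 / (k : ℝ) ≤ 1 := by
    rw [div_le_one hkpos]
    linarith
  have hk1' : 0 < 1 / (k : ℝ) := by positivity
  set σ : ℝ := (2 + 1 / (k : ℝ) + s) / 2 with hσ
  have hσ1 : 2 + 1 / (k : ℝ) < σ := by rw [hσ]; linarith
  have hσ2 : σ < s := by rw [hσ]; linarith
  have hcon := hCon k σ (s + 1) (by omega) hσ1 (by linarith) (ε / 16) (by positivity)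
  set δ : ℝ := ε / (4 * (C2 + ε)) with hδ
  have hδ0 : 0 < δ := by positivity
  have hδC : δ * (C2 + ε) ≤ ε / 4 := by
    rw [hδ]
    apply le_of_eq
    field_simp
  -- limits
  have hfl : Tendsto (fun x : ℝ => ⌊x⌋₊) atTop atTop := tendsto_nat_floor_atTop
  have hfl2 : Tendsto (fun x : ℝ => ⌊x⌋₊ + ⌊Real.log x ^ s⌋₊) atTop atTop :=
    tendsto_atTop_mono (fun x => Nat.le_add_right _ _) hfl
  have hsmall : ∀ᶠ x : ℝ in atTop, Real.log x ^ s ≤ x := by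
    have h1 := (isLittleO_log_rpow_rpow_atTop s (one_pos : (0 : ℝ) < 1)).bound
      (one_pos : (0 : ℝ) < 1)
    filter_upwards [h1, eventually_ge_atTop (1 : ℝ)] with x hx hx1
    rw [one_mul, Real.rpow_one, Real.norm_of_nonneg (Real.rpow_nonneg (Real.log_nonneg hx1) _),
      Real.norm_of_nonneg (by linarith)] at hx
    exact hx
  have hL1 : Tendsto (fun x : ℝ => Real.log (⌊x⌋₊ : ℝ) / Real.log x) atTop (𝓝 1) := by
    refine tendsto_ratio _ ?_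
    filter_upwards [eventually_ge_atTop (1 : ℝ)] with x hx
    obtain ⟨h1, h2⟩ := log_floor x hx
    exact ⟨h1, by linarith⟩
  have hL2 : Tendsto (fun x : ℝ => Real.log ((⌊x⌋₊ + ⌊Real.log x ^ s⌋₊ : ℕ) : ℝ) / Real.log x)
      atTop (𝓝 1) := by
    refine tendsto_ratio _ ?_
    filter_upwards [eventually_ge_atTop (1 : ℝ), hsmall] with x hx hx2
    obtain ⟨h1, -⟩ := log_floor x hx
    have h3 : (1 : ℝ) ≤ (⌊x⌋₊ : ℝ) := by
      have : 1 ≤ ⌊x⌋₊ := Nat.le_floor (by simpa using hx)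
      exact_mod_cast this
    have h4 : (⌊x⌋₊ : ℝ) ≤ x := Nat.floor_le (by linarith)
    have h5 : (⌊Real.log x ^ s⌋₊ : ℝ) ≤ x :=
      (Nat.floor_le (Real.rpow_nonneg (Real.log_nonneg hx) _)).trans hx2
    have h6 : (0 : ℝ) ≤ (⌊Real.log x ^ s⌋₊ : ℝ) := Nat.cast_nonneg _
    push_cast
    constructor
    · refine h1.trans (Real.log_le_log (by linarith) (by linarith))
    · have h7 : Real.log ((⌊x⌋₊ : ℝ) + (⌊Real.log x ^ s⌋₊ : ℝ)) ≤ Real.log (2 * x) :=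
        Real.log_le_log (by linarith) (by linarith)
      rw [Real.log_mul (by norm_num) (by linarith)] at h7
      have h8 : Real.log 2 < 0.6931471808 := Real.log_two_lt_d9
      linarith
  have hM1 : Tendsto (fun x : ℝ => MM (z ⌊x⌋₊) / Real.log x) atTop (𝓝 1) := by
    have h1 := (hMz.comp hfl).mul hL1
    rw [mul_one] at h1
    refine h1.congr' ?_
    filter_upwards [eventually_ge_atTop (2 : ℝ)] with x hx
    have h3 : (2 : ℝ) ≤ (⌊x⌋₊ : ℝ) := by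
      have : 2 ≤ ⌊x⌋₊ := Nat.le_floor (by simpa using hx)
      exact_mod_cast this
    have h4 : 0 < Real.log (⌊x⌋₊ : ℝ) := Real.log_pos (by linarith)
    simp only [Function.comp]
    field_simp
  have hM2 : Tendsto (fun x : ℝ => MM (z (⌊x⌋₊ + ⌊Real.log x ^ s⌋₊)) / Real.log x) atTop (𝓝 1) := by
    have h1 := (hMz.comp hfl2).mul hL2
    rw [mul_one] at h1
    refine h1.congr' ?_
    filter_upwards [eventually_ge_atTop (2 : ℝ)] with x hx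
    have h3 : (2 : ℝ) ≤ ((⌊x⌋₊ + ⌊Real.log x ^ s⌋₊ : ℕ) : ℝ) := by
      have : 2 ≤ ⌊x⌋₊ := Nat.le_floor (by simpa using hx)
      exact_mod_cast this.trans (Nat.le_add_right _ _)
    have h4 : 0 < Real.log ((⌊x⌋₊ + ⌊Real.log x ^ s⌋₊ : ℕ) : ℝ) := Real.log_pos (by linarith)
    simp only [Function.comp]
    field_simp
  have hI1 : Tendsto (fun x : ℝ => Real.log x / MM (z ⌊x⌋₊)) atTop (𝓝 1) := by
    have := hM1.inv₀ one_ne_zero
    rw [inv_one] at this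
    exact this.congr fun x => by rw [inv_div]
  have hI2 : Tendsto (fun x : ℝ => Real.log x / MM (z (⌊x⌋₊ + ⌊Real.log x ^ s⌋₊))) atTop (𝓝 1) := by
    have := hM2.inv₀ one_ne_zero
    rw [inv_one] at this
    exact this.congr fun x => by rw [inv_div]
  have habs : ∀ f : ℝ → ℝ, Tendsto f atTop (𝓝 1) → ∀ d : ℝ, 0 < d → ∀ᶠ x in atTop, |f x - 1| ≤ d := by
    intro f hf d hd
    have h1 := (tendsto_sub_nhds_zero_iff.2 hf).abs
    rw [abs_zero] at h1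
    exact (h1.eventually_lt_const hd).mono fun x hx => hx.le
  -- growth conditions in `w = ⌊log x⌋`
  have hwt : Tendsto (fun x : ℝ => ((⌊Real.log x⌋₊ : ℕ) : ℝ)) atTop atTop :=
    tendsto_natCast_atTop_atTop.comp tendsto_w
  have hLt : Tendsto (fun x : ℝ => Real.log (⌊x⌋₊ : ℝ)) atTop atTop :=
    Real.tendsto_log_atTop.comp (tendsto_natCast_atTop_atTop.comp hfl)
  filter_upwards [hfl.eventually hcon, tendsto_w.eventually (htr η hη0 hη1),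
    tendsto_w.eventually (hsub 1 one_pos le_rfl), hwt.eventually (ev_sq s hs),
    habs _ hI1 δ hδ0, habs _ hI2 δ hδ0, habs _ hM1 (1 / 10) (by norm_num),
    habs _ hM2 (1 / 10) (by norm_num), habs _ hL1 (1 / 10) (by norm_num),
    hwt.eventually ((tendsto_rpow_atTop hk1').eventually_ge_atTop 5),
    hLt.eventually ((tendsto_rpow_atTop hk1').eventually_ge_atTop 2),
    hLt.eventually ((tendsto_rpow_atTop (by linarith : 0 < s - σ)).eventually_ge_atTop 2),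
    hLt.eventually_ge_atTop ((2 : ℝ) ^ s), hLt.eventually_ge_atTop 2,
    hwt.eventually_ge_atTop 1, Real.tendsto_log_atTop.eventually_ge_atTop (4 / ε),
    Real.tendsto_log_atTop.eventually_ge_atTop 2,
    eventually_ge_atTop (2 : ℝ)] with x e1 e2 e3 e4 e5 e6 e7 e8 e9 e10 e11 e12 e13 e14 e15 e16 e17 e18
  obtain ⟨f1, f2⟩ := log_floor x (by linarith)
  set ℓ := Real.log x with hℓ
  set L := Real.log (⌊x⌋₊ : ℝ) with hLd
  set w := ⌊ℓ⌋₊ with hw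
  have hℓ0 : 0 < ℓ := by linarith
  have hL0 : 0 < L := by linarith
  have hls : 0 < ℓ ^ s := Real.rpow_pos_of_pos hℓ0 s
  have hwℓ : (w : ℝ) ≤ ℓ := Nat.floor_le hℓ0.le
  have hℓw : ℓ < w + 1 := Nat.lt_floor_add_one _
  -- V
  have hVw : (⌊(w : ℝ) ^ s⌋₊ : ℝ) ≤ (⌊ℓ ^ s⌋₊ : ℝ) := by
    have h1 : ⌊(w : ℝ) ^ s⌋₊ ≤ ⌊ℓ ^ s⌋₊ :=
      Nat.floor_le_floor (Real.rpow_le_rpow (by linarith) hwℓ (by linarith))
    exact_mod_cast h1
  have hV1 : (w : ℝ) ^ 2 / 2 ≤ (⌊ℓ ^ s⌋₊ : ℝ) := e4.1.trans hVw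
  have hV0 : 0 < (⌊ℓ ^ s⌋₊ : ℝ) := by linarith [e4.2]
  have hVlo : L ^ σ ≤ (⌊ℓ ^ s⌋₊ : ℝ) := by
    have h1 : ℓ ^ s < (⌊ℓ ^ s⌋₊ : ℝ) + 1 := Nat.lt_floor_add_one _
    have h2 : L ^ s ≤ ℓ ^ s := Real.rpow_le_rpow hL0.le f2 (by linarith)
    have h3 : L ^ s = L ^ (s - σ) * L ^ σ := by
      rw [← Real.rpow_add hL0]
      congr 1
      ring
    have h4 : 1 ≤ L ^ σ := Real.one_le_rpow (by linarith) (by linarith)
    have h5 : 2 * L ^ σ ≤ L ^ (s - σ) * L ^ σ := mul_le_mul_of_nonneg_right e12 (by linarith)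
    linarith
  have hVup : (⌊ℓ ^ s⌋₊ : ℝ) ≤ L ^ (s + 1) := by
    have h1 : (⌊ℓ ^ s⌋₊ : ℝ) ≤ ℓ ^ s := Nat.floor_le hls.le
    have h2 : ℓ ^ s ≤ (2 * L) ^ s := Real.rpow_le_rpow hℓ0.le (by linarith) (by linarith)
    have h3 : (2 * L) ^ s = (2 : ℝ) ^ s * L ^ s := Real.mul_rpow (by norm_num) hL0.le
    have h4 : L ^ (s + 1) = L ^ s * L := by rw [Real.rpow_add hL0, Real.rpow_one]
    have h5 : 0 < L ^ s := Real.rpow_pos_of_pos hL0 s
    rw [h4]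
    calc (⌊ℓ ^ s⌋₊ : ℝ) ≤ (2 : ℝ) ^ s * L ^ s := by linarith
      _ ≤ L * L ^ s := mul_le_mul_of_nonneg_right e13 h5.le
      _ = L ^ s * L := by ring
  -- the levels
  have hlvlo : w ≤ lv k ⌊x⌋₊ := by
    unfold lv
    have h1 : ℓ ≤ L ^ (1 + 1 / (k : ℝ)) := by
      rw [Real.rpow_add hL0, Real.rpow_one]
      nlinarith
    have h2 : (w : ℝ) ≤ (⌈L ^ (1 + 1 / (k : ℝ))⌉₊ : ℝ) := (hwℓ.trans h1).trans (Nat.le_ceil _)
    exact_mod_cast h2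
  have hlvup : (lv k ⌊x⌋₊ : ℝ) ≤ (w : ℝ) ^ (1 + η) := by
    unfold lv
    have hw0 : (0 : ℝ) < w := by linarith
    have h1 : (⌈L ^ (1 + 1 / (k : ℝ))⌉₊ : ℝ) < L ^ (1 + 1 / (k : ℝ)) + 1 :=
      Nat.ceil_lt_add_one (Real.rpow_nonneg hL0.le _)
    have h2 : L ^ (1 + 1 / (k : ℝ)) ≤ (2 * (w : ℝ)) ^ (1 + 1 / (k : ℝ)) :=
      Real.rpow_le_rpow hL0.le (by linarith) (by linarith)
    have h3 : (2 * (w : ℝ)) ^ (1 + 1 / (k : ℝ)) = (2 : ℝ) ^ (1 + 1 / (k : ℝ)) *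
        (w : ℝ) ^ (1 + 1 / (k : ℝ)) := Real.mul_rpow (by norm_num) hw0.le
    have h4 : (2 : ℝ) ^ (1 + 1 / (k : ℝ)) ≤ 4 := by
      calc (2 : ℝ) ^ (1 + 1 / (k : ℝ)) ≤ (2 : ℝ) ^ (2 : ℝ) :=
            Real.rpow_le_rpow_of_exponent_le (by norm_num) (by linarith)
        _ = 4 := by norm_num
    set W := (w : ℝ) ^ (1 + 1 / (k : ℝ)) with hW
    have h5 : 1 ≤ W := Real.one_le_rpow e15 (by linarith)
    have h6 : (w : ℝ) ^ (1 + η) = (w : ℝ) ^ (1 / (k : ℝ)) * W := by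
      rw [hW, ← Real.rpow_add hw0]
      congr 1
      rw [hη]
      ring
    rw [h6]
    have h7 : (2 : ℝ) ^ (1 + 1 / (k : ℝ)) * W ≤ 4 * W := mul_le_mul_of_nonneg_right h4 (by linarith)
    have h8 : 5 * W ≤ (w : ℝ) ^ (1 / (k : ℝ)) * W := mul_le_mul_of_nonneg_right e10 (by linarith)
    linarith
  have hwη : (w : ℝ) ^ (1 - η) ≤ w := by
    calc (w : ℝ) ^ (1 - η) ≤ (w : ℝ) ^ (1 : ℝ) :=
          Real.rpow_le_rpow_of_exponent_le e15 (by linarith)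
      _ = w := Real.rpow_one _
  have hsq : Real.sqrt w ≤ w := by
    rw [Real.sqrt_le_left (by linarith)]
    nlinarith
  have hw2' : (w : ℝ) ≤ (w : ℝ) ^ 2 := by nlinarith
  obtain ⟨-, hb⟩ := e3 a w ⌊x⌋₊ ⌊ℓ ^ s⌋₊ ⌊ℓ ^ s⌋₊ hsq hw2' hV1 le_rfl (by linarith)
  -- the Mertens products
  rw [abs_le] at e7 e8 e9
  have g1 : MM (z ⌊x⌋₊) ≤ 11 / 10 * ℓ := by
    have := e7.2
    rw [sub_le_iff_le_add, div_le_iff₀ hℓ0] at this
    linarith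
  have g1' : 9 / 10 * ℓ ≤ MM (z ⌊x⌋₊) := by
    have : 9 / 10 ≤ MM (z ⌊x⌋₊) / ℓ := by linarith [e7.1]
    rwa [le_div_iff₀ hℓ0] at this
  have g2 : MM (z (⌊x⌋₊ + ⌊ℓ ^ s⌋₊)) ≤ 11 / 10 * ℓ := by
    have := e8.2
    rw [sub_le_iff_le_add, div_le_iff₀ hℓ0] at this
    linarith
  have g2' : 9 / 10 * ℓ ≤ MM (z (⌊x⌋₊ + ⌊ℓ ^ s⌋₊)) := by
    have : 9 / 10 ≤ MM (z (⌊x⌋₊ + ⌊ℓ ^ s⌋₊)) / ℓ := by linarith [e8.1]
    rwa [le_div_iff₀ hℓ0] at this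
  have g3 : 9 / 10 * ℓ ≤ L := by
    have : 9 / 10 ≤ L / ℓ := by linarith [e9.1]
    rwa [le_div_iff₀ hℓ0] at this
  refine main_pt a z hz s ε x C2 δ w (lv k ⌊x⌋₊) hε (by linarith) hℓ0 hC2 hδ0 hδC rfl hV0 hL0
    (by linarith) (by linarith) ?_ ?_ ?_ hb e6 e5 ?_
  · exact e1 _ _ hVlo hVup (by linarith) (by linarith)
  · exact e1 _ _ hVlo hVup (by linarith) (by linarith)
  · exact (e2 a w (lv k ⌊x⌋₊) ⌊x⌋₊ ⌊ℓ ^ s⌋₊ hwη hlvlo hlvup hV1).trans hkC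
  · have h1 : ℓ ^ (2 : ℝ) ≤ ℓ ^ s := Real.rpow_le_rpow_of_exponent_le (by linarith) hs.le
    have h2 : ℓ ^ (2 : ℝ) = ℓ ^ 2 := by norm_cast
    rw [h2] at h1
    rw [div_le_iff₀ hls]
    rw [div_le_iff₀ hε] at e16
    nlinarith

end Pool.Agent.H50.BF
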