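import Pool.Agent.H50.BF.MMB

/-! # BF-MGF (helper56) -/

set_option autoImplicit false

open MeasureTheory Filter
open scoped Topology ENNReal

namespace Pool.Agent.H50.BF

open Classical in
/-- the survivors of level `v` with `n + k + 1 ≡ r (mod p)` -/
noncomputable def NN (b : ℕ → ℕ) (v n U p r : ℕ) : ℕ :=
  (((Finset.range U).filter (fun k => ∀ q : ℕ, q.Prime → q ≤ v → (n + k + 1) % q ≠ b q % q)).filter
    (fun k => (n + k + 1) % p = r)).card

lemma sv_succ_prime (b : ℕ → ℕ) {v : ℕ} (hv : (v + 1).Prime) (n U : ℕ) :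
    (sv b (v + 1) n U : ℝ) = sv b v n U - NN b v n U (v + 1) (b (v + 1) % (v + 1)) := by
  classical
  have h1 := Finset.card_filter_add_card_filter_not
    (s := (Finset.range U).filter (fun k => ∀ q : ℕ, q.Prime → q ≤ v → (n + k + 1) % q ≠ b q % q))
    (fun k => (n + k + 1) % (v + 1) = b (v + 1) % (v + 1))
  have h2 : sv b (v + 1) n U = (((Finset.range U).filter
      (fun k => ∀ q : ℕ, q.Prime → q ≤ v → (n + k + 1) % q ≠ b q % q)).filter
      (fun k => ¬ (n + k + 1) % (v + 1) = b (v + 1) % (v + 1))).card := by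
    unfold sv
    congr 1
    ext k
    simp only [Finset.mem_filter]
    constructor
    · rintro ⟨h3, h4⟩
      exact ⟨⟨h3, fun q hq hqv => h4 q hq (by omega)⟩, h4 (v + 1) hv le_rfl⟩
    · rintro ⟨⟨h3, h4⟩, h5⟩
      refine ⟨h3, fun q hq hqv => ?_⟩
      by_cases h : q = v + 1
      · rw [h]
        exact h5
      · exact h4 q hq (by omega)
  have h3 : NN b v n U (v + 1) (b (v + 1) % (v + 1)) + sv b (v + 1) n U = sv b v n U := by
    rw [h2]
    unfold NN sv
    exact h1
  have h4 : (NN b v n U (v + 1) (b (v + 1) % (v + 1)) : ℝ) + sv b (v + 1) n U = sv b v n U := by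
    exact_mod_cast h3
  linarith

lemma sv_succ_not (b : ℕ → ℕ) {v : ℕ} (hv : ¬ (v + 1).Prime) (n U : ℕ) :
    sv b (v + 1) n U = sv b v n U := by
  classical
  unfold sv
  congr 1
  ext k
  simp only [Finset.mem_filter]
  constructor
  · rintro ⟨h3, h4⟩
    exact ⟨h3, fun q hq hqv => h4 q hq (by omega)⟩
  · rintro ⟨h3, h4⟩
    refine ⟨h3, fun q hq hqv => ?_⟩
    refine h4 q hq ?_
    by_contra h
    obtain rfl : q = v + 1 := by omega
    exact hv hq

lemma NN_congr {a b : ℕ → ℕ} {v : ℕ} (h : ∀ q : ℕ, q.Prime → q ≤ v → a q % q = b q % q)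
    (n U p r : ℕ) : NN a v n U p r = NN b v n U p r := by
  classical
  unfold NN
  congr 2
  apply Finset.filter_congr
  intro k _
  constructor
  · intro h1 q hq hqw
    rw [← h q hq hqw]
    exact h1 q hq hqw
  · intro h1 q hq hqw
    rw [h q hq hqw]
    exact h1 q hq hqw

lemma sum_NN (b : ℕ → ℕ) (v n U : ℕ) {p : ℕ} (hp : 0 < p) :
    ∑ r ∈ Finset.range p, (NN b v n U p r : ℝ) = sv b v n U := by
  classical
  have h1 := Finset.card_eq_sum_card_fiberwise (f := fun k => (n + k + 1) % p)
    (s := (Finset.range U).filter (fun k => ∀ q : ℕ, q.Prime → q ≤ v → (n + k + 1) % q ≠ b q % q))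
    (t := Finset.range p) (by
      intro k _
      simp only [Finset.coe_range, Set.mem_Iio]
      exact Nat.mod_lt _ hp)
  have h2 : sv b v n U = ∑ r ∈ Finset.range p, NN b v n U p r := by
    unfold sv NN
    exact h1
  rw [h2]
  push_cast
  rfl

lemma NN_le (b : ℕ → ℕ) (v n U : ℕ) {p : ℕ} (_hp : 0 < p) (r : ℕ) :
    (NN b v n U p r : ℝ) ≤ (U : ℝ) / p + 1 := by
  classical
  have h1 : NN b v n U p r ≤ (Finset.range (U / p + 1)).card := by
    unfold NN
    apply Finset.card_le_card_of_injOn (fun k => k / p)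
    · intro k hk
      rw [Finset.mem_coe, Finset.mem_filter, Finset.mem_filter, Finset.mem_range] at hk
      simp only [Finset.coe_range, Set.mem_Iio]
      have := Nat.div_le_div_right (c := p) hk.1.1.le
      omega
    · intro k hk k' hk' he
      rw [Finset.mem_coe, Finset.mem_filter] at hk hk'
      simp only at he
      have h2 : (n + k + 1) % p = (n + k' + 1) % p := hk.2.trans hk'.2.symm
      have h3 : k ≡ k' [MOD p] := by
        have h4 : (n + 1) + k ≡ (n + 1) + k' [MOD p] := by
          unfold Nat.ModEq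
          rw [show n + 1 + k = n + k + 1 by ring, show n + 1 + k' = n + k' + 1 by ring]
          exact h2
        exact Nat.ModEq.add_left_cancel' _ h4
      rw [← Nat.div_add_mod k p, ← Nat.div_add_mod k' p, he, h3]
  rw [Finset.card_range] at h1
  have h2 : (NN b v n U p r : ℝ) ≤ ((U / p : ℕ) : ℝ) + 1 := by exact_mod_cast h1
  have h3 : ((U / p : ℕ) : ℝ) ≤ (U : ℝ) / p := Nat.cast_div_le
  linarith

/-- the induction -/
lemma chain (hI : S_IND) {Ω : Type} [MeasurableSpace Ω] {P : Measure Ω} {a : ℕ → Ω → ℕ}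
    (H : Model P a) (n U w z : ℕ) (ν : ℕ → ℝ)
    (hprime : ∀ v, w ≤ v → v < z → (v + 1).Prime → ∀ (N : ℕ → ℝ) (X : ℝ), 0 ≤ X →
      (∀ r < v + 1, 0 ≤ N r ∧ N r ≤ (U : ℝ) / ((v + 1 : ℕ) : ℝ) + 1) →
      ∑ r ∈ Finset.range (v + 1), N r = X →
      (((v + 1 : ℕ) : ℝ))⁻¹ * ∑ r ∈ Finset.range (v + 1), Real.exp (ν (v + 1) * (X - N r)) ≤
        Real.exp (ν v * X))
    (hcomp : ∀ v, w ≤ v → v < z → ¬ (v + 1).Prime → ν (v + 1) = ν v) :
    ∀ v, w ≤ v → v ≤ z →
      ∫ ω, Real.exp (ν v * (sv (fun q => a q ω) v n U : ℝ) -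
        ν w * (sv (fun q => a q ω) w n U : ℝ)) ∂P ≤ 1 := by
  have := model_prob H
  intro v hv
  induction v, hv using Nat.le_induction with
  | base =>
    intro _
    simp
  | succ v hwv ih =>
    intro hvz
    have ih := ih (by omega)
    by_cases hp : (v + 1).Prime
    · have h1 := hI Ω P a H (v + 1) hp (fun r b => Real.exp (ν (v + 1) *
        ((sv b v n U : ℝ) - NN b v n U (v + 1) r) - ν w * (sv b w n U : ℝ))) (by
          intro r b b' hb
          rw [sv_congr (fun q hq hqv => hb q hq (by omega)) n U,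
            sv_congr (w := w) (fun q hq hqv => hb q hq (by omega)) n U,
            NN_congr (fun q hq hqv => hb q hq (by omega)) n U])
      have h2 : ∀ ω, Real.exp (ν (v + 1) * (sv (fun q => a q ω) (v + 1) n U : ℝ) -
          ν w * (sv (fun q => a q ω) w n U : ℝ)) =
          Real.exp (ν (v + 1) * ((sv (fun q => a q ω) v n U : ℝ) -
            NN (fun q => a q ω) v n U (v + 1) (a (v + 1) ω % (v + 1))) -
            ν w * (sv (fun q => a q ω) w n U : ℝ)) := by
        intro ω
        rw [sv_succ_prime _ hp]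
      simp only [h2]
      rw [h1.2.2]
      refine le_trans ?_ ih
      apply integral_mono_of_nonneg
      · apply Eventually.of_forall
        intro ω
        show (0 : ℝ) ≤ _
        apply mul_nonneg (by positivity)
        apply Finset.sum_nonneg
        intro r _
        exact (Real.exp_pos _).le
      · exact (hI Ω P a H (v + 1) hp (fun _ b => Real.exp (ν v * (sv b v n U : ℝ) -
          ν w * (sv b w n U : ℝ))) (by
            intro r b b' hb
            rw [sv_congr (fun q hq hqv => hb q hq (by omega)) n U,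
              sv_congr (w := w) (fun q hq hqv => hb q hq (by omega)) n U])).1 0
      · apply Eventually.of_forall
        intro ω
        simp only
        have h3 := hprime v hwv (by omega) hp
          (fun r => (NN (fun q => a q ω) v n U (v + 1) r : ℝ)) (sv (fun q => a q ω) v n U)
          (Nat.cast_nonneg _) (fun r _ => ⟨Nat.cast_nonneg _, NN_le _ _ _ _ (by omega) _⟩)
          (sum_NN _ _ _ _ (by omega))
        have h4 : ∀ r ∈ Finset.range (v + 1), Real.exp (ν (v + 1) *
            ((sv (fun q => a q ω) v n U : ℝ) - NN (fun q => a q ω) v n U (v + 1) r) -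
            ν w * (sv (fun q => a q ω) w n U : ℝ)) = Real.exp (ν (v + 1) *
            ((sv (fun q => a q ω) v n U : ℝ) - NN (fun q => a q ω) v n U (v + 1) r)) *
            Real.exp (-(ν w * (sv (fun q => a q ω) w n U : ℝ))) := by
          intro r _
          rw [← Real.exp_add]
          congr 1
        rw [Finset.sum_congr rfl h4, ← Finset.sum_mul, ← mul_assoc, sub_eq_add_neg, Real.exp_add]
        exact mul_le_mul_of_nonneg_right h3 (Real.exp_pos _).le
    · simp only [sv_succ_not _ hp, hcomp v hwv (by omega) hp]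
      exact ih

lemma DD_succ_prime {v z : ℕ} (hv : (v + 1).Prime) (hvz : v < z) (U : ℕ) :
    DD v z U = MM (v + 1) / MM z * ((U : ℝ) / ((v + 1 : ℕ) : ℝ) ^ 2 + 1 / ((v + 1 : ℕ) : ℝ)) +
      DD (v + 1) z U := by
  unfold DD
  have h1 : (Finset.Ioc v z).filter Nat.Prime =
      insert (v + 1) ((Finset.Ioc (v + 1) z).filter Nat.Prime) := by
    ext q
    simp only [Finset.mem_filter, Finset.mem_Ioc, Finset.mem_insert]
    constructor
    · rintro ⟨⟨h1, h2⟩, h3⟩
      by_cases h : q = v + 1
      · exact Or.inl h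
      · exact Or.inr ⟨⟨by omega, h2⟩, h3⟩
    · rintro (rfl | ⟨⟨h1, h2⟩, h3⟩)
      · exact ⟨⟨by omega, by omega⟩, hv⟩
      · exact ⟨⟨by omega, h2⟩, h3⟩
  rw [h1, Finset.sum_insert (by simp)]

lemma DD_succ_not {v z : ℕ} (hv : ¬ (v + 1).Prime) (U : ℕ) :
    DD (v + 1) z U = DD v z U := by
  unfold DD
  congr 1
  ext q
  simp only [Finset.mem_filter, Finset.mem_Ioc]
  constructor
  · rintro ⟨⟨h1, h2⟩, h3⟩
    exact ⟨⟨by omega, h2⟩, h3⟩
  · rintro ⟨⟨h1, h2⟩, h3⟩
    refine ⟨⟨?_, h2⟩, h3⟩
    by_contra h
    obtain rfl : q = v + 1 := by omega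
    exact hv h3

lemma DD_self (z U : ℕ) : DD z z U = 0 := by
  unfold DD
  simp

lemma DD_anti {w v : ℕ} (h : w ≤ v) (z U : ℕ) : DD v z U ≤ DD w z U := by
  unfold DD
  apply Finset.sum_le_sum_of_subset_of_nonneg
  · apply Finset.filter_subset_filter
    exact Finset.Ioc_subset_Ioc_left h
  · intro p _ _
    have := MM_pos p
    have := MM_pos z
    positivity

lemma exp_half : Real.exp (1 / 2) ≤ 2 := by
  have h1 : Real.exp (1 / 2) * Real.exp (1 / 2) = Real.exp 1 := by
    rw [← Real.exp_add]
    norm_num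
  have h2 := Real.exp_one_lt_d9
  nlinarith [Real.exp_pos (1 / 2)]

lemma exp_le_lin {t : ℝ} (h0 : 0 ≤ t) (h1 : t ≤ 1 / 2) : Real.exp t ≤ 1 + 2 * t := by
  have h2 : Real.exp t * (1 - t) ≤ 1 := by
    have h3 : 1 - t ≤ Real.exp (-t) := by linarith [Real.add_one_le_exp (-t)]
    calc Real.exp t * (1 - t) ≤ Real.exp t * Real.exp (-t) :=
          mul_le_mul_of_nonneg_left h3 (Real.exp_pos t).le
      _ = 1 := by rw [← Real.exp_add]; simp
  have h4 : 1 ≤ (1 + 2 * t) * (1 - t) := by nlinarith
  have h5 : Real.exp t * (1 - t) ≤ (1 + 2 * t) * (1 - t) := h2.trans h4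
  exact le_of_mul_le_mul_right h5 (by linarith)

theorem mgf : S_IND → S_ONE → S_MGF := by
  intro hI hO Ω _ P a H n U w z l hl hwz hD hB
  have := model_prob H
  have hint : ∀ A B : ℝ, Integrable (fun ω => Real.exp (A * (sv (fun q => a q ω) z n U : ℝ) +
      B * (sv (fun q => a q ω) w n U : ℝ))) P := by
    intro A B
    obtain ⟨p, hpz, hp⟩ := Nat.exists_infinite_primes (z + 1)
    exact (hI Ω P a H p hp (fun _ b => Real.exp (A * (sv b z n U : ℝ) + B * (sv b w n U : ℝ))) (by
      intro r b b' hb
      rw [sv_congr (fun q hq hqv => hb q hq (by omega)) n U,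
        sv_congr (w := w) (fun q hq hqv => hb q hq (by omega)) n U])).1 0
  have hMz := MM_pos z
  obtain ⟨D, hDd⟩ : ∃ D, D = DD w z U := ⟨_, rfl⟩
  have hD0 : 0 ≤ D := by rw [hDd]; exact DD_nonneg _ _ _
  obtain ⟨ρ, hρ⟩ : ∃ ρ, ρ = MM w / MM z := ⟨_, rfl⟩
  have hρ0 : 0 ≤ ρ := by rw [hρ]; exact (div_pos (MM_pos w) hMz).le
  rw [← hDd] at hD
  have hDv : ∀ v, w ≤ v → DD v z U ≤ D := fun v hv => by
    rw [hDd]
    exact DD_anti hv z U
  constructor
  · -- the first bound
    have hc := chain hI H n U w z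
      (fun v => l * (MM v / MM z) * Real.exp (2 * l * DD v z U)) (by
        intro v hwv hvz hp N X hX hN hs
        obtain ⟨p, hpd⟩ : ∃ p : ℕ, p = v + 1 := ⟨_, rfl⟩
        have hDDs := DD_succ_prime hp hvz U
        have hMs := MM_succ_prime hp
        rw [← hpd] at hp hN hs hDDs hMs ⊢
        have hp2 : (2 : ℝ) ≤ p := by exact_mod_cast hp.two_le
        have hp0 : (0 : ℝ) < p := by linarith
        have hpi := one_sub_inv_pos hp
        obtain ⟨B, hBd⟩ : ∃ B, B = (U : ℝ) / p + 1 := ⟨_, rfl⟩
        have hB0 : 0 < B := by rw [hBd]; positivity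
        obtain ⟨m, hm⟩ : ∃ m, m = MM p / MM z := ⟨_, rfl⟩
        have hm0 : 0 < m := by rw [hm]; exact div_pos (MM_pos p) hMz
        obtain ⟨E, hE⟩ : ∃ E, E = Real.exp (2 * l * DD p z U) := ⟨_, rfl⟩
        have hE0 : 0 < E := by rw [hE]; exact Real.exp_pos _
        have hE2 : E ≤ 2 := by
          rw [hE]
          refine le_trans (Real.exp_le_exp.mpr ?_) exp_half
          have h1 := mul_le_mul_of_nonneg_left (hDv p (by omega)) (by linarith : (0 : ℝ) ≤ 2 * l)
          linarith
        rw [← hBd] at hN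
        rw [← hm] at hDDs ⊢
        rw [← hE]
        have h1 := (hO p hp.two_le N B X (l * m * E) hB0 (by positivity) hN hs).1
        refine h1.trans (Real.exp_le_exp.mpr ?_)
        apply mul_le_mul_of_nonneg_right _ hX
        have h2 : Real.exp (2 * l * DD v z U) = E * Real.exp (2 * l * m * (B / p)) := by
          rw [hE, ← Real.exp_add]
          congr 1
          rw [hDDs, hBd]
          field_simp
          ring
        have h3 : MM v / MM z = m * (1 - (p : ℝ)⁻¹) := by
          rw [← hMs, hm]
          ring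
        rw [h2, h3]
        have h4 : 1 + l * m * E * B / p ≤ Real.exp (2 * l * m * (B / p)) := by
          have h5 : l * m * E * B / p ≤ 2 * l * m * (B / p) := by
            have h6 : l * m * E * B / p = E * (l * m * (B / p)) := by ring
            have h7 : 0 ≤ l * m * (B / p) := by positivity
            rw [h6]
            nlinarith
          linarith [Real.add_one_le_exp (2 * l * m * (B / p))]
        calc l * m * E * (1 - (p : ℝ)⁻¹) * (1 + l * m * E * B / p)
            ≤ l * m * E * (1 - (p : ℝ)⁻¹) * Real.exp (2 * l * m * (B / p)) :=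
              mul_le_mul_of_nonneg_left h4 (by positivity)
          _ = l * (m * (1 - (p : ℝ)⁻¹)) * (E * Real.exp (2 * l * m * (B / p))) := by ring) (by
        intro v _ _ hp
        rw [MM_succ_not hp, DD_succ_not hp]) z hwz le_rfl
    rw [DD_self, ← hDd, ← hρ, div_self hMz.ne', mul_zero, Real.exp_zero, mul_one, mul_one] at hc
    have e1 : ∀ ω, l * (sv (fun q => a q ω) z n U : ℝ) -
        l * (1 + 4 * l * D) * ρ * (sv (fun q => a q ω) w n U : ℝ) =
        l * (sv (fun q => a q ω) z n U : ℝ) +
        (-(l * (1 + 4 * l * D) * ρ)) * (sv (fun q => a q ω) w n U : ℝ) := by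
      intro ω
      ring
    rw [← hDd, ← hρ]
    refine ⟨?_, ?_⟩
    · simp only [e1]
      exact hint _ _
    · refine le_trans ?_ hc
      apply integral_mono_of_nonneg
      · exact Eventually.of_forall fun ω => (Real.exp_pos _).le
      · have e2 : ∀ ω, l * (sv (fun q => a q ω) z n U : ℝ) -
            l * ρ * Real.exp (2 * l * D) * (sv (fun q => a q ω) w n U : ℝ) =
            l * (sv (fun q => a q ω) z n U : ℝ) +
            (-(l * ρ * Real.exp (2 * l * D))) * (sv (fun q => a q ω) w n U : ℝ) := by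
          intro ω
          ring
        simp only [e2]
        exact hint _ _
      · apply Eventually.of_forall
        intro ω
        simp only
        apply Real.exp_le_exp.mpr
        have h1 : Real.exp (2 * l * D) ≤ 1 + 2 * (2 * l * D) :=
          exp_le_lin (by positivity) (by linarith)
        have h2 : (0 : ℝ) ≤ (sv (fun q => a q ω) w n U : ℝ) := Nat.cast_nonneg _
        have h3 : l * ρ * Real.exp (2 * l * D) * (sv (fun q => a q ω) w n U : ℝ) ≤
            l * ρ * (1 + 2 * (2 * l * D)) * (sv (fun q => a q ω) w n U : ℝ) :=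
          mul_le_mul_of_nonneg_right (mul_le_mul_of_nonneg_left h1 (by positivity)) h2
        linarith
  · -- the second bound
    have hc := chain hI H n U w z
      (fun v => -(l * (MM v / MM z) * Real.exp (-(4 * l * DD v z U)))) (by
        intro v hwv hvz hp N X hX hN hs
        obtain ⟨p, hpd⟩ : ∃ p : ℕ, p = v + 1 := ⟨_, rfl⟩
        have hDDs := DD_succ_prime hp hvz U
        have hMs := MM_succ_prime hp
        have hBp := hB (v + 1) hp (by omega) (by omega)
        rw [← hpd] at hp hN hs hDDs hMs hBp ⊢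
        have hp2 : (2 : ℝ) ≤ p := by exact_mod_cast hp.two_le
        have hp0 : (0 : ℝ) < p := by linarith
        have hpi := one_sub_inv_pos hp
        obtain ⟨B, hBd⟩ : ∃ B, B = (U : ℝ) / p + 1 := ⟨_, rfl⟩
        have hB0 : 0 < B := by rw [hBd]; positivity
        obtain ⟨m, hm⟩ : ∃ m, m = MM p / MM z := ⟨_, rfl⟩
        have hm0 : 0 < m := by rw [hm]; exact div_pos (MM_pos p) hMz
        obtain ⟨E, hE⟩ : ∃ E, E = Real.exp (-(4 * l * DD p z U)) := ⟨_, rfl⟩
        have hE0 : 0 < E := by rw [hE]; exact Real.exp_pos _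
        have hE1 : E ≤ 1 := by
          rw [hE]
          apply Real.exp_le_one_iff.mpr
          have := DD_nonneg p z U
          have : 0 ≤ 4 * l * DD p z U := by positivity
          linarith
        rw [← hBd] at hN hBp
        rw [← hm] at hDDs hBp ⊢
        rw [← hE]
        have hlm : l * m * E ≤ l * m := mul_le_of_le_one_right (by positivity) hE1
        have hsmall : l * m * E * B ≤ 1 / 2 := by
          have := mul_le_mul_of_nonneg_right hlm hB0.le
          linarith
        have h1 := (hO p hp.two_le N B X (l * m * E) hB0 (by positivity) hN hs).2 hsmall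
        have h0 : ∀ r ∈ Finset.range p, Real.exp (-(l * m * E) * (X - N r)) =
            Real.exp (-(l * m * E * (X - N r))) := by
          intro r _
          rw [neg_mul]
        rw [Finset.sum_congr rfl h0]
        refine h1.trans (Real.exp_le_exp.mpr ?_)
        rw [neg_mul, neg_le_neg_iff]
        apply mul_le_mul_of_nonneg_right _ hX
        have h2 : Real.exp (-(4 * l * DD v z U)) = E * Real.exp (-(4 * l * m * (B / p))) := by
          rw [hE, ← Real.exp_add]
          congr 1
          rw [hDDs, hBd]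
          field_simp
          ring
        have h3 : MM v / MM z = m * (1 - (p : ℝ)⁻¹) := by
          rw [← hMs, hm]
          ring
        rw [h2, h3]
        have h4 : Real.exp (-(4 * l * m * (B / p))) ≤ Real.exp (-(4 * (l * m * E) * B / p)) := by
          apply Real.exp_le_exp.mpr
          have h6 : 4 * (l * m * E) * B / p = (l * m * E) * (4 * (B / p)) := by ring
          have h7 := mul_le_mul_of_nonneg_right hlm (by positivity : (0 : ℝ) ≤ 4 * (B / p))
          linarith
        calc l * (m * (1 - (p : ℝ)⁻¹)) * (E * Real.exp (-(4 * l * m * (B / p))))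
            = l * m * E * (1 - (p : ℝ)⁻¹) * Real.exp (-(4 * l * m * (B / p))) := by ring
          _ ≤ l * m * E * (1 - (p : ℝ)⁻¹) * Real.exp (-(4 * (l * m * E) * B / p)) :=
              mul_le_mul_of_nonneg_left h4 (by positivity)) (by
        intro v _ _ hp
        rw [MM_succ_not hp, DD_succ_not hp]) z hwz le_rfl
    rw [DD_self, ← hDd, ← hρ, div_self hMz.ne', mul_zero, neg_zero, Real.exp_zero, mul_one,
      mul_one] at hc
    have e1 : ∀ ω, -(l * (sv (fun q => a q ω) z n U : ℝ)) +
        l * (1 - 4 * l * D) * ρ * (sv (fun q => a q ω) w n U : ℝ) =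
        (-l) * (sv (fun q => a q ω) z n U : ℝ) +
        (l * (1 - 4 * l * D) * ρ) * (sv (fun q => a q ω) w n U : ℝ) := by
      intro ω
      ring
    rw [← hDd, ← hρ]
    refine ⟨?_, ?_⟩
    · simp only [e1]
      exact hint _ _
    · refine le_trans ?_ hc
      apply integral_mono_of_nonneg
      · exact Eventually.of_forall fun ω => (Real.exp_pos _).le
      · have e2 : ∀ ω, -l * (sv (fun q => a q ω) z n U : ℝ) -
            -(l * ρ * Real.exp (-(4 * l * D))) * (sv (fun q => a q ω) w n U : ℝ) =
            (-l) * (sv (fun q => a q ω) z n U : ℝ) +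
            (l * ρ * Real.exp (-(4 * l * D))) * (sv (fun q => a q ω) w n U : ℝ) := by
          intro ω
          ring
        simp only [e2]
        exact hint _ _
      · apply Eventually.of_forall
        intro ω
        simp only
        apply Real.exp_le_exp.mpr
        have h1 : 1 - 4 * l * D ≤ Real.exp (-(4 * l * D)) := by
          linarith [Real.add_one_le_exp (-(4 * l * D))]
        have h2 : (0 : ℝ) ≤ (sv (fun q => a q ω) w n U : ℝ) := Nat.cast_nonneg _
        have h3 : l * ρ * (1 - 4 * l * D) * (sv (fun q => a q ω) w n U : ℝ) ≤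
            l * ρ * Real.exp (-(4 * l * D)) * (sv (fun q => a q ω) w n U : ℝ) :=
          mul_le_mul_of_nonneg_right (mul_le_mul_of_nonneg_left h1 (by positivity)) h2
        linarith

end Pool.Agent.H50.BF
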