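import Pool.Agent.H50.BF.Stm

set_option autoImplicit false

open Finset

namespace Pool.Agent.H50.BF

/-- convexity of the exponential function on `[0, B]` -/
lemma exp_chord {c N B : ℝ} (hB : 0 < B) (h0 : 0 ≤ N) (h1 : N ≤ B) :
    Real.exp (c * N) ≤ 1 + (Real.exp (c * B) - 1) * (N / B) := by
  have hc := convexOn_exp
  have h2 : 0 ≤ N / B := div_nonneg h0 hB.le
  have h3 : N / B ≤ 1 := (div_le_one hB).2 h1
  have h := hc.2 (Set.mem_univ (0 : ℝ)) (Set.mem_univ (c * B)) (show 0 ≤ 1 - N / B by linarith) h2 (by ring)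
  simp only [smul_eq_mul, mul_zero, zero_add, Real.exp_zero, mul_one] at h
  have e : N / B * (c * B) = c * N := by field_simp
  rw [e] at h
  linarith

theorem one : S_ONE := by
  intro p hp N B X μ hB hμ hN hX
  have hp2 : (2 : ℝ) ≤ p := by exact_mod_cast hp
  have hp0 : (0 : ℝ) < p := by linarith
  have hX0 : 0 ≤ X := by
    rw [← hX]
    exact Finset.sum_nonneg fun r hr => (hN r (mem_range.1 hr)).1
  have hinv : (p : ℝ)⁻¹ ≤ 1 / 2 := by
    rw [inv_eq_one_div]
    exact one_div_le_one_div_of_le (by norm_num) hp2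
  have hinv0 : 0 < (p : ℝ)⁻¹ := by positivity
  -- the mean of the exponentials
  have key : ∀ c : ℝ, (p : ℝ)⁻¹ * ∑ r ∈ range p, Real.exp (c * N r) ≤
      Real.exp ((Real.exp (c * B) - 1) / B * (X / p)) := by
    intro c
    have h1 : ∑ r ∈ range p, Real.exp (c * N r) ≤ ∑ r ∈ range p, (1 + (Real.exp (c * B) - 1) / B * N r) := by
      refine Finset.sum_le_sum fun r hr => ?_
      have := exp_chord (c := c) hB (hN r (mem_range.1 hr)).1 (hN r (mem_range.1 hr)).2
      refine this.trans (le_of_eq ?_)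
      ring
    rw [Finset.sum_add_distrib, ← Finset.mul_sum, hX, Finset.sum_const, card_range, nsmul_eq_mul, mul_one] at h1
    have h2 := mul_le_mul_of_nonneg_left h1 hinv0.le
    refine h2.trans ?_
    have e : (p : ℝ)⁻¹ * ((p : ℝ) + (Real.exp (c * B) - 1) / B * X) =
        (Real.exp (c * B) - 1) / B * (X / p) + 1 := by
      field_simp
      ring
    rw [e]
    exact Real.add_one_le_exp _
  constructor
  · have h1 := key (-μ)
    have e1 : ∑ r ∈ range p, Real.exp (μ * (X - N r)) = Real.exp (μ * X) * ∑ r ∈ range p, Real.exp (-μ * N r) := by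
      rw [Finset.mul_sum]
      refine Finset.sum_congr rfl fun r _ => ?_
      rw [← Real.exp_add]
      ring_nf
    rw [e1]
    calc (p : ℝ)⁻¹ * (Real.exp (μ * X) * ∑ r ∈ range p, Real.exp (-μ * N r))
        = Real.exp (μ * X) * ((p : ℝ)⁻¹ * ∑ r ∈ range p, Real.exp (-μ * N r)) := by ring
      _ ≤ Real.exp (μ * X) * Real.exp ((Real.exp (-μ * B) - 1) / B * (X / p)) :=
        mul_le_mul_of_nonneg_left h1 (Real.exp_pos _).le
      _ = Real.exp (μ * X + (Real.exp (-μ * B) - 1) / B * (X / p)) := (Real.exp_add _ _).symm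
      _ ≤ _ := by
        apply Real.exp_le_exp.2
        -- `exp (-t) - 1 ≤ -t + t²/2`
        have ht : Real.exp (-μ * B) - 1 ≤ -(μ * B) + (μ * B) ^ 2 / 2 := by
          have ht0 : 0 ≤ μ * B := mul_nonneg hμ hB.le
          have := Real.quadratic_le_exp_of_nonneg ht0
          -- exp t ≥ 1 + t + t²/2, so exp (-t) ≤ 1/(1 + t + t²/2) ≤ 1 - t + t²/2
          have h5 : Real.exp (-μ * B) = (Real.exp (μ * B))⁻¹ := by rw [← Real.exp_neg]; ring_nf
          rw [h5]
          have h6 : (Real.exp (μ * B))⁻¹ ≤ (1 + μ * B + (μ * B) ^ 2 / 2)⁻¹ :=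
            inv_anti₀ (by positivity) this
          have h7 : (1 + μ * B + (μ * B) ^ 2 / 2)⁻¹ ≤ 1 - μ * B + (μ * B) ^ 2 / 2 := by
            rw [inv_le_iff_one_le_mul₀ (by positivity)]
            nlinarith [sq_nonneg ((μ * B) ^ 2)]
          linarith
        have h8 : (Real.exp (-μ * B) - 1) / B * (X / p) ≤ (-(μ * B) + (μ * B) ^ 2 / 2) / B * (X / p) :=
          mul_le_mul_of_nonneg_right (div_le_div_of_nonneg_right ht hB.le) (by positivity)
        have e2 : (-(μ * B) + (μ * B) ^ 2 / 2) / B * (X / p) = μ * X * (-(p : ℝ)⁻¹ + μ * B * (p : ℝ)⁻¹ / 2) := by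
          field_simp
        have e3 : μ * (1 - (p : ℝ)⁻¹) * (1 + μ * B / p) * X =
            μ * X * (1 - (p : ℝ)⁻¹ + (1 - (p : ℝ)⁻¹) * (μ * B * (p : ℝ)⁻¹)) := by
          field_simp
        rw [e3]
        have h9 : 0 ≤ μ * B * (p : ℝ)⁻¹ := by positivity
        have h10 : μ * B * (p : ℝ)⁻¹ / 2 ≤ (1 - (p : ℝ)⁻¹) * (μ * B * (p : ℝ)⁻¹) := by nlinarith
        have h11 : 0 ≤ μ * X := mul_nonneg hμ hX0
        have h12 := mul_le_mul_of_nonneg_left h10 h11
        nlinarith
  · intro hμB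
    have h1 := key μ
    have e1 : ∑ r ∈ range p, Real.exp (-(μ * (X - N r))) = Real.exp (-(μ * X)) * ∑ r ∈ range p, Real.exp (μ * N r) := by
      rw [Finset.mul_sum]
      refine Finset.sum_congr rfl fun r _ => ?_
      rw [← Real.exp_add]
      ring_nf
    rw [e1]
    have ht0 : 0 ≤ μ * B := mul_nonneg hμ hB.le
    calc (p : ℝ)⁻¹ * (Real.exp (-(μ * X)) * ∑ r ∈ range p, Real.exp (μ * N r))
        = Real.exp (-(μ * X)) * ((p : ℝ)⁻¹ * ∑ r ∈ range p, Real.exp (μ * N r)) := by ring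
      _ ≤ Real.exp (-(μ * X)) * Real.exp ((Real.exp (μ * B) - 1) / B * (X / p)) :=
        mul_le_mul_of_nonneg_left h1 (Real.exp_pos _).le
      _ = Real.exp (-(μ * X) + (Real.exp (μ * B) - 1) / B * (X / p)) := (Real.exp_add _ _).symm
      _ ≤ _ := by
        apply Real.exp_le_exp.2
        have ht : Real.exp (μ * B) - 1 ≤ μ * B + (μ * B) ^ 2 := by
          have h5 := Real.abs_exp_sub_one_sub_id_le (x := μ * B) (by rw [abs_of_nonneg ht0]; linarith)
          have := (abs_le.1 h5).2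
          linarith
        have h8 : (Real.exp (μ * B) - 1) / B * (X / p) ≤ (μ * B + (μ * B) ^ 2) / B * (X / p) :=
          mul_le_mul_of_nonneg_right (div_le_div_of_nonneg_right ht hB.le) (by positivity)
        have e2 : (μ * B + (μ * B) ^ 2) / B * (X / p) = μ * X * ((p : ℝ)⁻¹ + μ * B * (p : ℝ)⁻¹) := by
          field_simp
        have h11 : 0 ≤ μ * X := mul_nonneg hμ hX0
        have ey : 4 * μ * B / p = 2 * (2 * (μ * B * (p : ℝ)⁻¹)) := by
          field_simp
          ring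
        have hy0 : 0 ≤ μ * B * (p : ℝ)⁻¹ := by positivity
        have hy1 : μ * B * (p : ℝ)⁻¹ ≤ 1 / 4 := by nlinarith
        -- `1 - y ≥ exp (-2 y)` with `y = 2 μ B / p`
        have h12 : Real.exp (-(4 * μ * B / p)) ≤ 1 - 2 * (μ * B * (p : ℝ)⁻¹) := by
          rw [ey]
          obtain ⟨y, hy⟩ : ∃ y : ℝ, y = 2 * (μ * B * (p : ℝ)⁻¹) := ⟨_, rfl⟩
          rw [← hy]
          have y0 : 0 ≤ y := by rw [hy]; linarith
          have y1 : y ≤ 1 / 2 := by rw [hy]; linarith
          have h5 : Real.exp (-(2 * y)) = (Real.exp (2 * y))⁻¹ := Real.exp_neg _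
          rw [h5]
          have h6 := Real.quadratic_le_exp_of_nonneg (show 0 ≤ 2 * y by linarith)
          have h7 : (Real.exp (2 * y))⁻¹ ≤ (1 + 2 * y + (2 * y) ^ 2 / 2)⁻¹ := inv_anti₀ (by positivity) h6
          refine h7.trans ?_
          rw [inv_le_iff_one_le_mul₀ (by positivity)]
          nlinarith [mul_nonneg y0 (sq_nonneg y)]
        have h13 : 0 ≤ 1 - (p : ℝ)⁻¹ := by linarith
        have h14 : (1 - (p : ℝ)⁻¹) * Real.exp (-(4 * μ * B / p)) ≤ 1 - (p : ℝ)⁻¹ - μ * B * (p : ℝ)⁻¹ := by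
          have := mul_le_mul_of_nonneg_left h12 h13
          nlinarith
        have h15 := mul_le_mul_of_nonneg_left h14 h11
        have e3 : μ * (1 - (p : ℝ)⁻¹) * Real.exp (-(4 * μ * B / p)) * X =
            μ * X * ((1 - (p : ℝ)⁻¹) * Real.exp (-(4 * μ * B / p))) := by ring
        rw [e3]
        nlinarith

end Pool.Agent.H50.BF
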