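import Pool.Agent.H50.BF.Stm

set_option autoImplicit false

open MeasureTheory Filter
open scoped Topology ENNReal NNReal

namespace Pool.Agent.H50.BF.SIGA

theorem sv_add (a : ℕ → ℕ) (w n U V : ℕ) : sv a w n (U + V) = sv a w n U + sv a w (n + U) V := by
  classical
  simp only [sv, Finset.card_filter]
  rw [Finset.sum_range_add]
  congr 1
  refine Finset.sum_congr rfl fun k _ => ?_
  rw [show n + (U + k) + 1 = n + U + k + 1 by ring]

theorem sv_mono (a : ℕ → ℕ) (w n : ℕ) {U V : ℕ} (h : U ≤ V) : sv a w n U ≤ sv a w n V := by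
  obtain ⟨d, rfl⟩ := Nat.exists_eq_add_of_le h
  rw [sv_add]; omega

theorem sv_mul (a : ℕ → ℕ) (w n u K : ℕ) :
    sv a w n (K * u) = ∑ i ∈ Finset.range K, sv a w (n + i * u) u := by
  induction K with
  | zero => simp [sv]
  | succ K ih => rw [Nat.succ_mul, sv_add, ih, Finset.sum_range_succ]

theorem sv_le (a : ℕ → ℕ) (w n U : ℕ) : sv a w n U ≤ U := by
  classical
  unfold sv
  exact (Finset.card_filter_le _ _).trans (by simp)

theorem MM_pos (N : ℕ) : 0 < MM N := by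
  unfold MM
  refine Finset.prod_pos fun p hp => ?_
  have hp : p.Prime := (Finset.mem_filter.1 hp).2
  have h2 : (2 : ℝ) ≤ p := by exact_mod_cast hp.two_le
  have : (p : ℝ)⁻¹ ≤ 2⁻¹ := inv_anti₀ (by norm_num) h2
  exact inv_pos.2 (by linarith)

/-- the value at the place `t` -/
noncomputable def vl (w : ℕ) (s : ℝ) (t : ℕ) : ℝ :=
  (sv (fun _ => 0) w t ⌊(w : ℝ) ^ s⌋₊ : ℝ) * MM w / (w : ℝ) ^ s

theorem vl_nonneg (w : ℕ) (s : ℝ) (t : ℕ) : 0 ≤ vl w s t := by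
  have := MM_pos w
  unfold vl; positivity

theorem bddBelow (w : ℕ) (s : ℝ) : BddBelow (Set.range (vl w s)) :=
  ⟨0, by rintro x ⟨t, rfl⟩; exact vl_nonneg w s t⟩

theorem bddAbove (w : ℕ) (s : ℝ) : BddAbove (Set.range (vl w s)) := by
  refine ⟨(⌊(w : ℝ) ^ s⌋₊ : ℝ) * MM w / (w : ℝ) ^ s, ?_⟩
  rintro x ⟨t, rfl⟩
  have := MM_pos w
  unfold vl
  have h : (sv (fun _ => 0) w t ⌊(w : ℝ) ^ s⌋₊ : ℝ) ≤ ⌊(w : ℝ) ^ s⌋₊ := by
    exact_mod_cast sv_le _ _ _ _
  gcongr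

theorem lo_le (w : ℕ) (s : ℝ) (t : ℕ) : lo w s ≤ vl w s t := ciInf_le (bddBelow w s) t
theorem le_hi (w : ℕ) (s : ℝ) (t : ℕ) : vl w s t ≤ hi w s := le_ciSup (bddAbove w s) t
theorem lo_nonneg (w : ℕ) (s : ℝ) : 0 ≤ lo w s := le_ciInf fun t => vl_nonneg w s t

/-- the finite inequality behind the lemma -/
theorem fin (w : ℕ) (s s' C δ : ℝ) (hw : 1 ≤ w) (hδ : 0 < δ) (hδ1 : δ ≤ 1 / 4) (hs : 0 < s)
    (hws : 1 ≤ δ * (w : ℝ) ^ s) (hws' : (w : ℝ) ^ s ≤ δ * (w : ℝ) ^ s') (hC : hi w s ≤ C) :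
    lo w s ≤ lo w s' + 2 * δ * C ∧ hi w s' ≤ hi w s + 4 * δ * C := by
  have hM := MM_pos w
  set A : ℝ := (w : ℝ) ^ s with hA
  set B : ℝ := (w : ℝ) ^ s' with hB
  have hA0 : 0 < A := by positivity
  have hB0 : 0 < B := by positivity
  have hA4 : 4 ≤ A := by nlinarith
  set u : ℕ := ⌊A⌋₊ with hu
  set U : ℕ := ⌊B⌋₊ with hU
  have hu1 : (u : ℝ) ≤ A := Nat.floor_le hA0.le
  have hu2 : A < u + 1 := Nat.lt_floor_add_one A
  have hU1 : (U : ℝ) ≤ B := Nat.floor_le hB0.le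
  have hU2 : B < U + 1 := Nat.lt_floor_add_one B
  have hu0 : 0 < u := by
    have : (0 : ℝ) < u := by linarith
    exact_mod_cast this
  set K : ℕ := U / u with hK
  have hK1 : K * u ≤ U := Nat.div_mul_le_self U u
  have hK2 : U < (K + 1) * u := by
    rw [Nat.mul_comm]; exact Nat.lt_mul_div_succ U hu0
  have hC0 : 0 ≤ C := (vl_nonneg w s 0).trans ((le_hi w s 0).trans hC)
  have hK1' : (K : ℝ) * u ≤ U := by exact_mod_cast hK1
  have hK2' : (U : ℝ) < (K + 1) * u := by exact_mod_cast hK2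
  -- sums of blocks
  have lower : ∀ t : ℕ, (K : ℝ) * (lo w s * A) ≤ sv (fun _ => 0) w t U * MM w := by
    intro t
    have h1 : (∑ i ∈ Finset.range K, (sv (fun _ => 0) w (t + i * u) u : ℝ)) ≤
        sv (fun _ => 0) w t U := by
      have := sv_mono (fun _ => 0) w t hK1
      rw [sv_mul] at this
      exact_mod_cast this
    have h2 : ∀ i ∈ Finset.range K, lo w s * A ≤ (sv (fun _ => 0) w (t + i * u) u : ℝ) * MM w := by
      intro i _
      have := lo_le w s (t + i * u)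
      rwa [vl, le_div_iff₀ hA0] at this
    calc (K : ℝ) * (lo w s * A) = ∑ i ∈ Finset.range K, lo w s * A := by simp
      _ ≤ ∑ i ∈ Finset.range K, (sv (fun _ => 0) w (t + i * u) u : ℝ) * MM w :=
          Finset.sum_le_sum h2
      _ ≤ sv (fun _ => 0) w t U * MM w := by
          rw [← Finset.sum_mul]; gcongr
  have upper : ∀ t : ℕ, sv (fun _ => 0) w t U * MM w ≤ ((K : ℝ) + 1) * (hi w s * A) := by
    intro t
    have h1 : (sv (fun _ => 0) w t U : ℝ) ≤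
        ∑ i ∈ Finset.range (K + 1), (sv (fun _ => 0) w (t + i * u) u : ℝ) := by
      have := sv_mono (fun _ => 0) w t hK2.le
      rw [sv_mul] at this
      exact_mod_cast this
    have h2 : ∀ i ∈ Finset.range (K + 1), (sv (fun _ => 0) w (t + i * u) u : ℝ) * MM w ≤
        hi w s * A := by
      intro i _
      have := le_hi w s (t + i * u)
      rwa [vl, div_le_iff₀ hA0] at this
    calc sv (fun _ => 0) w t U * MM w
        ≤ (∑ i ∈ Finset.range (K + 1), (sv (fun _ => 0) w (t + i * u) u : ℝ)) * MM w := by gcongr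
      _ = ∑ i ∈ Finset.range (K + 1), (sv (fun _ => 0) w (t + i * u) u : ℝ) * MM w := by
          rw [Finset.sum_mul]
      _ ≤ ∑ i ∈ Finset.range (K + 1), hi w s * A := Finset.sum_le_sum h2
      _ = ((K : ℝ) + 1) * (hi w s * A) := by simp
  have hlo0 := lo_nonneg w s
  have hloC : lo w s ≤ C := (lo_le w s 0).trans ((le_hi w s 0).trans hC)
  have hhi0 : 0 ≤ hi w s := hlo0.trans ((lo_le w s 0).trans (le_hi w s 0))
  have hB4 : 4 * A ≤ B := by nlinarith
  -- `K A ≥ (1 - 2 δ) B`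
  have hKA : (1 - 2 * δ) * B ≤ K * A := by
    have : (K : ℝ) * u ≤ K * A := by gcongr
    nlinarith
  -- `(K + 1) A ≤ (1 + 4 δ) B`
  have hKA' : ((K : ℝ) + 1) * A ≤ (1 + 4 * δ) * B := by
    have h1 : A * (1 - δ) ≤ u := by nlinarith
    have h2 : (K : ℝ) * (A * (1 - δ)) ≤ B := (mul_le_mul_of_nonneg_left h1 (by positivity)).trans
      (hK1'.trans hU1)
    have h3 : (K : ℝ) * A ≤ (1 + 2 * δ) * B := by
      have h4 : (K : ℝ) * A * ((1 - δ) * (1 + 2 * δ)) ≤ B * (1 + 2 * δ) := by nlinarith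
      have h5 : 1 ≤ (1 - δ) * (1 + 2 * δ) := by nlinarith
      have h6 : 0 ≤ (K : ℝ) * A := by positivity
      nlinarith
    nlinarith
  constructor
  · have : (1 - 2 * δ) * lo w s ≤ lo w s' := by
      refine le_ciInf fun t => ?_
      rw [le_div_iff₀ hB0]
      have := lower t
      nlinarith
    nlinarith
  · have : hi w s' ≤ (1 + 4 * δ) * hi w s := by
      refine ciSup_le fun t => ?_
      rw [div_le_iff₀ hB0]
      have := upper t
      nlinarith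
    nlinarith

end SIGA

open SIGA in
theorem siga : S_SUB → S_SIGA := by
  rintro ⟨C, hC0, hC⟩ s s' ε hs hss' hε
  rcases hss'.eq_or_lt with rfl | hlt
  · exact Eventually.of_forall fun w => ⟨by linarith, by linarith⟩
  -- bound for `hi w s`
  have hhi : ∀ᶠ w : ℕ in atTop, hi w s ≤ C := by
    filter_upwards [hC 1 one_pos le_rfl, eventually_ge_atTop 2] with w hw h2
    have hw1 : (2 : ℝ) ≤ w := by exact_mod_cast h2
    have hA : (w : ℝ) ^ (2 : ℝ) ≤ (w : ℝ) ^ s :=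
      Real.rpow_le_rpow_of_exponent_le (by linarith) hs.le
    have hA2 : (w : ℝ) ^ (2 : ℝ) = (w : ℝ) ^ 2 := by norm_num
    rw [hA2] at hA
    have hA0 : 0 < (w : ℝ) ^ s := by positivity
    have hM := MM_pos w
    refine ciSup_le fun t => ?_
    have hfl : (w : ℝ) ^ s < ⌊(w : ℝ) ^ s⌋₊ + 1 := Nat.lt_floor_add_one _
    have hfl' : (⌊(w : ℝ) ^ s⌋₊ : ℝ) ≤ (w : ℝ) ^ s := Nat.floor_le hA0.le
    have h4 : (4 : ℝ) ≤ (w : ℝ) ^ 2 := by nlinarith
    have h5 := (hw (fun _ => 0) w t ⌊(w : ℝ) ^ s⌋₊ ⌊(w : ℝ) ^ s⌋₊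
      (by rw [Real.sqrt_le_left (by linarith)]; nlinarith) (by nlinarith) (by linarith) le_rfl
      (by nlinarith [Nat.cast_nonneg (α := ℝ) ⌊(w : ℝ) ^ s⌋₊])).2
    have h6 : (0 : ℝ) < ⌊(w : ℝ) ^ s⌋₊ := by linarith
    rw [← mul_div_assoc] at h5
    refine le_trans ?_ h5
    gcongr
  set δ : ℝ := min (1 / 4) (ε / (4 * C)) with hδ
  have hδ0 : 0 < δ := lt_min (by norm_num) (by positivity)
  have hδ1 : δ ≤ 1 / 4 := min_le_left _ _
  have hδ2 : 4 * δ * C ≤ ε := by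
    have : δ ≤ ε / (4 * C) := min_le_right _ _
    rw [le_div_iff₀ (by positivity)] at this
    linarith
  have e1 : ∀ᶠ w : ℕ in atTop, 1 / δ ≤ (w : ℝ) ^ s :=
    ((tendsto_rpow_atTop (by linarith)).comp tendsto_natCast_atTop_atTop).eventually_ge_atTop _
  have e2 : ∀ᶠ w : ℕ in atTop, 1 / δ ≤ (w : ℝ) ^ (s' - s) :=
    ((tendsto_rpow_atTop (by linarith)).comp tendsto_natCast_atTop_atTop).eventually_ge_atTop _
  filter_upwards [hhi, e1, e2, eventually_ge_atTop 1] with w h1 h2 h3 h4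
  have hw0 : (0 : ℝ) < w := by exact_mod_cast h4
  rw [div_le_iff₀ hδ0] at h2 h3
  have h5 : (w : ℝ) ^ s ≤ δ * (w : ℝ) ^ s' := by
    have : (w : ℝ) ^ s' = (w : ℝ) ^ (s' - s) * (w : ℝ) ^ s := by
      rw [← Real.rpow_add hw0]; congr 1; ring
    rw [this]
    have : 0 < (w : ℝ) ^ s := by positivity
    nlinarith
  obtain ⟨h6, h7⟩ := fin w s s' C δ h4 hδ0 hδ1 (by linarith) (by linarith) h5 h1
  have h8 : 0 ≤ δ * C := by positivity
  exact ⟨by linarith, by linarith⟩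

end Pool.Agent.H50.BF
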