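import Pool.Agent.H50.BF.Stm

/-! # BF-SIGC (helper56) -/

set_option autoImplicit false

open MeasureTheory Filter
open scoped Topology ENNReal

namespace Pool.Agent.H50.BF

theorem sigc : S_FUND → S_SIGC := by
  intro hF ε hε
  obtain ⟨η, hη⟩ : ∃ η, η = min ε 1 / 2 := ⟨_, rfl⟩
  have hm1 : 0 < min ε 1 := lt_min hε one_pos
  have hη0 : 0 < η := by rw [hη]; linarith
  have hη1 : 2 * η ≤ ε := by rw [hη]; linarith [min_le_left ε 1]
  have hη2 : η ≤ 1 / 2 := by rw [hη]; linarith [min_le_right ε 1]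
  obtain ⟨s0, w0, _, hF⟩ := hF η hη0
  refine ⟨s0 + 1, fun s hs => ?_⟩
  filter_upwards [eventually_ge_atTop w0, eventually_ge_atTop (2 ^ s0 + 1),
    (tendsto_natCast_atTop_atTop (R := ℝ)).eventually_ge_atTop (1 / η)] with w hw1 hw2 hw3
  have hpow : (1 : ℕ) ≤ 2 ^ s0 := Nat.one_le_two_pow
  have hw4 : (1 : ℝ) ≤ w := by exact_mod_cast (by omega : 1 ≤ w)
  have hw0 : (0 : ℝ) < w := by linarith
  obtain ⟨V, hV⟩ : ∃ V, V = (w : ℝ) ^ s := ⟨_, rfl⟩
  have hVw : (w : ℝ) ^ (s0 + 1) ≤ V := by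
    rw [hV, ← Real.rpow_natCast]
    apply Real.rpow_le_rpow_of_exponent_le hw4
    push_cast
    exact hs
  have hVw' : (w : ℝ) ≤ V := by
    refine le_trans ?_ hVw
    exact le_self_pow₀ hw4 (by omega)
  have hV0 : 0 < V := by linarith
  obtain ⟨U, hU⟩ : ∃ U : ℕ, U = ⌊V⌋₊ := ⟨_, rfl⟩
  have hU1 : (U : ℝ) ≤ V := by rw [hU]; exact Nat.floor_le hV0.le
  have hU2 : V - 1 ≤ U := by
    rw [hU]
    linarith [Nat.lt_floor_add_one V]
  have hU3 : ((w : ℝ) + 1) ^ s0 ≤ U := by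
    have h1 : (w + 1) ^ s0 ≤ w ^ (s0 + 1) := by
      calc (w + 1) ^ s0 ≤ (2 * w) ^ s0 := Nat.pow_le_pow_left (by omega) _
        _ = 2 ^ s0 * w ^ s0 := by rw [mul_pow]
        _ ≤ w * w ^ s0 := Nat.mul_le_mul_right _ (by omega)
        _ = w ^ (s0 + 1) := by ring
    have h2 : w ^ (s0 + 1) ≤ U := by
      rw [hU]
      apply Nat.le_floor
      push_cast
      exact hVw
    have h3 : (w + 1) ^ s0 ≤ U := h1.trans h2
    exact_mod_cast h3
  have hM : 0 < MM w := by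
    unfold MM
    apply Finset.prod_pos
    intro p hp
    have hp2 : (2 : ℝ) ≤ p := by exact_mod_cast ((Finset.mem_filter.mp hp).2).two_le
    apply inv_pos.mpr
    have : (p : ℝ)⁻¹ ≤ 2⁻¹ := inv_anti₀ (by norm_num) hp2
    linarith
  have hUV1 : (U : ℝ) / V ≤ 1 := by rw [div_le_one hV0]; exact hU1
  have hUV2 : 1 - η ≤ (U : ℝ) / V := by
    rw [le_div_iff₀ hV0]
    have h1 : 1 ≤ η * V := by
      rw [div_le_iff₀ hη0] at hw3
      nlinarith
    linarith
  have key : ∀ t : ℕ, 1 - ε ≤ (sv (fun _ => 0) w t U : ℝ) * MM w / V ∧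
      (sv (fun _ => 0) w t U : ℝ) * MM w / V ≤ 1 + ε := by
    intro t
    have h1 := abs_le.mp (hF w hw1 t U hU3)
    obtain ⟨y, hy⟩ : ∃ y, y = (U : ℝ) / V := ⟨_, rfl⟩
    rw [← hy] at hUV1 hUV2
    have h2 : (sv (fun _ => 0) w t U : ℝ) * MM w / V =
        y + ((sv (fun _ => 0) w t U : ℝ) - U / MM w) * (MM w / V) := by
      rw [hy]
      field_simp
      ring
    have h3 : η * ((U : ℝ) / MM w) * (MM w / V) = η * y := by
      rw [hy]
      field_simp
    have h4 : ((sv (fun _ => 0) w t U : ℝ) - U / MM w) * (MM w / V) ≤ η * y := by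
      rw [← h3]
      exact mul_le_mul_of_nonneg_right h1.2 (by positivity)
    have h5 : -(η * y) ≤ ((sv (fun _ => 0) w t U : ℝ) - U / MM w) * (MM w / V) := by
      rw [← h3, ← neg_mul]
      exact mul_le_mul_of_nonneg_right h1.1 (by positivity)
    have h6 : η * y ≤ η * 1 := mul_le_mul_of_nonneg_left hUV1 hη0.le
    constructor
    · rw [h2]
      linarith
    · rw [h2]
      linarith
  constructor
  · unfold lo
    rw [← hV, ← hU]
    exact le_ciInf fun t => (key t).1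
  · unfold hi
    rw [← hV, ← hU]
    exact ciSup_le fun t => (key t).2

end Pool.Agent.H50.BF
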