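import Mathlib

/-!
# Project BF: the Banks-Ford-Tao model of the primes in intervals of length `(log x)^s`

`a p` (`p` prime) are independent, `a p mod p` is uniform; the random set consists of the `n` with
`n ≢ a p (mod p)` for all primes `p ≤ z n`, where `log n ∏_{p ≤ z n} (1 - 1/p) → 1`.
Goal: almost surely, for all `s > 2`, the lower and the upper limit `L_s`, `U_s` of the normalised
number of elements in `(x, x + (log x)^s]` are the extremal densities of the interval sieve.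

Every stub `S_X` comes with its proof.  To prove `S_X`: file `Pool/Agent/H50/BF/X.lean`,
`import Pool.Agent.H50.BF.Stm`, namespace `Pool.Agent.H50.BF`, theorem `x : (used stubs) → S_X`.
-/

set_option autoImplicit false

open MeasureTheory Filter
open scoped Topology ENNReal

namespace Pool.Agent.H50.BF

/-- the Mertens product `∏_{p ≤ N} (1 - 1/p)⁻¹` -/
noncomputable def MM (N : ℕ) : ℝ := ∏ p ∈ (Finset.Icc 1 N).filter Nat.Prime, (1 - (p : ℝ)⁻¹)⁻¹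

open Classical in
/-- survivors: the number of `m` with `n < m ≤ n + U` and `m ≢ a p (mod p)` for all primes `p ≤ w` -/
noncomputable def sv (a : ℕ → ℕ) (w n U : ℕ) : ℕ :=
  ((Finset.range U).filter (fun k => ∀ p : ℕ, p.Prime → p ≤ w → (n + k + 1) % p ≠ a p % p)).card

/-- the residues of the `a p` modulo the primes `p` are independent and uniformly distributed -/
structure Model {Ω : Type} [MeasurableSpace Ω] (P : Measure Ω) (a : ℕ → Ω → ℕ) : Prop where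
  meas : ∀ p, Measurable (a p)
  law : ∀ (w : ℕ) (c : ℕ → ℕ), (∀ p : ℕ, p.Prime → c p < p) →
    P {ω | ∀ p : ℕ, p.Prime → p ≤ w → a p ω % p = c p} =
      ENNReal.ofReal (∏ p ∈ (Finset.Icc 1 w).filter Nat.Prime, (p : ℝ)⁻¹)

/-! ## Facts from the library (helper50 supplies them) -/

/-- Mertens -/
def S_MERT : Prop := Tendsto (fun N : ℕ => MM N / Real.log N) atTop (𝓝 (Real.exp Real.eulerMascheroniConstant))

/-- the fundamental lemma of the sieve for intervals (library `rc_fund`) -/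
def S_FUND : Prop := ∀ ε : ℝ, 0 < ε → ∃ s0 w0 : ℕ, 1 ≤ s0 ∧ ∀ w : ℕ, w0 ≤ w → ∀ n U : ℕ,
  ((w : ℝ) + 1) ^ s0 ≤ U → |(sv (fun _ => 0) w n U : ℝ) - U / MM w| ≤ ε * (U / MM w)

/-- oscillation of Buchstab's function (library `rho`, `sign_lt`, `sign_gt`) -/
def S_BUCH : Prop := ∀ A : ℝ,
  (∃ u c : ℝ, A ≤ u ∧ c < 1 ∧ ∀ᶠ w : ℕ in atTop,
    (sv (fun _ => 0) w 0 ⌊(w : ℝ) ^ u⌋₊ : ℝ) * MM w / (w : ℝ) ^ u ≤ c) ∧
  (∃ u c : ℝ, A ≤ u ∧ 1 < c ∧ ∀ᶠ w : ℕ in atTop,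
    c ≤ (sv (fun _ => 0) w 0 ⌊(w : ℝ) ^ u⌋₊ : ℝ) * MM w / (w : ℝ) ^ u)

/-! ## Probability -/

/-- IND (about 120 lines).  A function of the residues modulo the primes `< p` is integrable, and
the residue of `a p` is independent of it.
Proof: let `Q = ∏_{q<p} q`.  The vectors `c` of residues (`c q < q` for the primes `q < p`) are
finitely many (use `Finset.pi`/`Fintype.piFinset`, or: every vector of residues is that of exactly
one `c < Q`, by the Chinese remainder theorem), the events `E_c = {a q ≡ c q for all primes q < p}`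
partition `Ω`, `P E_c = ∏ 1/q` by `law (p - 1)` and `P (E_c ∩ {a p % p = r}) = (∏ 1/q) / p` by
`law p` (for the vector `c` changed to `r` at `p`).  On `E_c` the functions `G r (a · ω)` are constant, so both integrals are
`∑_c ∑_r G r c (∏ 1/q) / p`.  Measurability: `G r (a · ω)` is a finite sum of constants times
indicators of the `E_c`. -/
def S_IND : Prop := ∀ (Ω : Type) [MeasurableSpace Ω] (P : Measure Ω) (a : ℕ → Ω → ℕ), Model P a →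
  ∀ p : ℕ, p.Prime → ∀ G : ℕ → (ℕ → ℕ) → ℝ,
    (∀ (r : ℕ) (b b' : ℕ → ℕ), (∀ q : ℕ, q.Prime → q < p → b q % q = b' q % q) → G r b = G r b') →
    (∀ r : ℕ, Integrable (fun ω => G r (fun q => a q ω)) P) ∧
    Integrable (fun ω => G (a p ω % p) (fun q => a q ω)) P ∧
    ∫ ω, G (a p ω % p) (fun q => a q ω) ∂P =
      ∫ ω, (p : ℝ)⁻¹ * ∑ r ∈ Finset.range p, G r (fun q => a q ω) ∂P

/-- ONE (about 80 lines).  One step of the sieve.
Proof.  Up: `exp (-μ N) ≤ 1 - (1 - exp (-μ B)) N / B` for `0 ≤ N ≤ B` (convexity); the mean over `r`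
is `≤ 1 - (1 - exp (-μ B)) X / (p B) ≤ exp (-(1 - exp (-μ B)) X / (p B))`, and
`1 - exp (-t) ≥ t - t²/2` (`t ≥ 0`) gives the exponent `μ X (1 - 1/p + μ B / (2 p))`, which is
`≤ μ X (1 - 1/p) (1 + μ B / p)` because `1 - 1/p ≥ 1/2`.
Down: `exp (μ N) ≤ 1 + (exp (μ B) - 1) N / B`, mean `≤ exp ((exp (μ B) - 1) X / (p B))`,
`exp t - 1 ≤ t + t²` for `0 ≤ t ≤ 1/2`: the exponent is `≤ -μ X (1 - 1/p - μ B / p)` and
`1 - 1/p - μB/p ≥ (1 - 1/p) (1 - 2 μB/p) ≥ (1 - 1/p) exp (-4 μB/p)` (`1 - y ≥ exp (-2y)` for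
`0 ≤ y ≤ 1/2`). -/
def S_ONE : Prop := ∀ (p : ℕ), 2 ≤ p → ∀ (N : ℕ → ℝ) (B X μ : ℝ), 0 < B → 0 ≤ μ →
  (∀ r < p, 0 ≤ N r ∧ N r ≤ B) → ∑ r ∈ Finset.range p, N r = X →
  ((p : ℝ)⁻¹ * ∑ r ∈ Finset.range p, Real.exp (μ * (X - N r)) ≤
      Real.exp (μ * (1 - (p : ℝ)⁻¹) * (1 + μ * B / p) * X)) ∧
  (μ * B ≤ 1 / 2 → (p : ℝ)⁻¹ * ∑ r ∈ Finset.range p, Real.exp (-(μ * (X - N r))) ≤
      Real.exp (-(μ * (1 - (p : ℝ)⁻¹) * Real.exp (-(4 * μ * B / p)) * X)))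

/-- `∑_{w < p ≤ z} (MM p / MM z) (U / p² + 1 / p)` -/
noncomputable def DD (w z U : ℕ) : ℝ :=
  ∑ p ∈ (Finset.Ioc w z).filter Nat.Prime, MM p / MM z * ((U : ℝ) / (p : ℝ) ^ 2 + 1 / p)

/-- MGF (about 200 lines; uses IND, ONE).  Exponential moments of the number of survivors.
Proof of the first bound.  For `w ≤ v ≤ z` let `K_v = 2 l ∑_{v < p ≤ z} (MM p / MM z) (U/p² + 1/p)`
(so `K_v ≤ K_w = 2 l D ≤ 1/2`, `exp K_v ≤ 2`) and `μ_v = l (MM v / MM z) exp K_v`.  By induction on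
`v` from `w` to `z`: `E exp (μ_v sv_v - μ_w sv_w) ≤ 1`.  Step `v → p = v + 1`: if `p` is not prime
nothing changes.  If `p` is prime, given the residues modulo the smaller primes let `X = sv_v` and let
`N r` be the number of the survivors (level `v`) which are `≡ r (mod p)`; `∑ N r = X`,
`N r ≤ U / p + 1 = B`, and `sv_p = X - N (a p % p)`.  By IND and ONE
`E exp (μ_p sv_p - μ_w sv_w) ≤ E exp (μ_p (1 - 1/p) (1 + μ_p B / p) sv_v - μ_w sv_w)`, and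
`MM p (1 - 1/p) = MM v`, `μ_p ≤ 2 l MM p / MM z`, `1 + μ_p B / p ≤ exp (2 l (MM p / MM z) B / p)
= exp (K_v - K_p)`, so `μ_p (1 - 1/p) (1 + μ_p B / p) ≤ μ_v`.  At `v = z`: `μ_z = l`, and
`μ_w = l (MM w / MM z) exp (2 l D) ≤ l (MM w / MM z) (1 + 4 l D)` since `exp t ≤ 1 + 2 t` on `[0, 1]`.
Second bound: the same with `K_v = 4 l ∑...`, `μ_v = l (MM v / MM z) exp (-K_v) ≤ l MM v / MM z`,
`E exp (-μ_v sv_v + μ_w sv_w) ≤ 1`; here `μ_p B ≤ l (MM p / MM z) (U/p + 1) ≤ 1/2` by hypothesis, and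
`exp (-4 l D) ≥ 1 - 4 l D`. -/
def S_MGF : Prop := ∀ (Ω : Type) [MeasurableSpace Ω] (P : Measure Ω) (a : ℕ → Ω → ℕ), Model P a →
  ∀ (n U w z : ℕ) (l : ℝ), 0 ≤ l → w ≤ z → 4 * l * DD w z U ≤ 1 →
    (∀ p : ℕ, p.Prime → w < p → p ≤ z → 2 * l * (MM p / MM z) * ((U : ℝ) / p + 1) ≤ 1) →
    (Integrable (fun ω => Real.exp (l * (sv (fun q => a q ω) z n U : ℝ) -
        l * (1 + 4 * l * DD w z U) * (MM w / MM z) * (sv (fun q => a q ω) w n U : ℝ))) P ∧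
      ∫ ω, Real.exp (l * (sv (fun q => a q ω) z n U : ℝ) -
        l * (1 + 4 * l * DD w z U) * (MM w / MM z) * (sv (fun q => a q ω) w n U : ℝ)) ∂P ≤ 1) ∧
    (Integrable (fun ω => Real.exp (-(l * (sv (fun q => a q ω) z n U : ℝ)) +
        l * (1 - 4 * l * DD w z U) * (MM w / MM z) * (sv (fun q => a q ω) w n U : ℝ))) P ∧
      ∫ ω, Real.exp (-(l * (sv (fun q => a q ω) z n U : ℝ)) +
        l * (1 - 4 * l * DD w z U) * (MM w / MM z) * (sv (fun q => a q ω) w n U : ℝ)) ∂P ≤ 1)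

/-- TAIL (about 60 lines; uses MGF).  Markov's inequality, `sv ≤ U`. -/
def S_TAIL : Prop := ∀ (Ω : Type) [MeasurableSpace Ω] (P : Measure Ω) (a : ℕ → Ω → ℕ), Model P a →
  ∀ (n U w z : ℕ) (l T : ℝ), 0 ≤ l → w ≤ z → 4 * l * DD w z U ≤ 1 →
    (∀ p : ℕ, p.Prime → w < p → p ≤ z → 2 * l * (MM p / MM z) * ((U : ℝ) / p + 1) ≤ 1) →
    P {ω | T < |(sv (fun q => a q ω) z n U : ℝ) - sv (fun q => a q ω) w n U * (MM w / MM z)|} ≤
      ENNReal.ofReal (2 * Real.exp (-(l * T) + 4 * l ^ 2 * DD w z U * (MM w / MM z) * U))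

/-- DSUM (about 80 lines; uses MERT).
Proof: `MM p / p = MM p - MM (p - 1)` for a prime `p` (and `MM` is nondecreasing), so
`∑_{w<p≤z} (MM p / MM z) / p ≤ 1`.  `MM m ≤ C (1 + log m)` for `m ≥ 1` (from MERT), and
`(1 + log m) / m² ≤ f (m - 1) - f m` with `f x = (2 + log x) / x` for `m ≥ 2`
(`-f' x = (1 + log x) / x²` is decreasing for `x ≥ 1`), so `∑_{m > w} (1 + log m)/m² ≤ f w`. -/
def S_DSUM : Prop := ∃ C : ℝ, 0 < C ∧ (∀ m : ℕ, 1 ≤ m → MM m ≤ C * (1 + Real.log m)) ∧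
  ∀ w z U : ℕ, 1 ≤ w → DD w z U ≤ C * U * ((2 + Real.log w) / (w * MM z)) + 1

/-- the level `(log n)^(1 + 1/k)` -/
noncomputable def lv (k n : ℕ) : ℕ := ⌈Real.log n ^ (1 + 1 / (k : ℝ))⌉₊

/-- For `k ≥ 1` and `2 + 1/k < σ < σ'`: in all intervals `(n, n + U]` with
`(log n)^σ ≤ U ≤ (log n)^σ'` the primes between `(log n)^(1+1/k)` and `z` remove the expected number
of integers, if `MM z` is of the order `log n`. -/
def Con (a : ℕ → ℕ) : Prop := ∀ (k : ℕ) (σ σ' : ℝ), 1 ≤ k → 2 + 1 / (k : ℝ) < σ → σ < σ' → ∀ ε : ℝ, 0 < ε →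
  ∀ᶠ n : ℕ in atTop, ∀ U z : ℕ, Real.log n ^ σ ≤ U → (U : ℝ) ≤ Real.log n ^ σ' →
    Real.log n / 2 ≤ MM z → MM z ≤ 2 * Real.log n →
    |(sv a z n U : ℝ) - sv a (lv k n) n U * (MM (lv k n) / MM z)| ≤ ε * (U / Real.log n)

/-- CON (about 250 lines; uses TAIL, DSUM, MERT).
Proof.  It is enough to treat rational `σ, σ'` and `ε = 1/j` (for real `σ` use a smaller rational
above `2 + 1/k` and a larger rational `σ'`); fix them and `k`, put `η = 1/k`, `L = log n`,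
`w = lv k n ≥ L^(1+η)`.  For large `n` every `z` with `MM z ≤ 2 L` is `≤ n²` (MERT: `MM z / log z → e^γ
> 1.7`), every `z` with `MM z ≥ L / 2` is `≥ w` (`MM w ≤ C (1 + log w) < L / 2`, `MM` monotone), and
`U ≤ n`.  Apply TAIL with `l = L^(2+η/2) / U`, `T = ε U / L`, so `l T = ε L^(1+η/2)`.
`D ≤ 2 C U (2 + log w) / (w L) + 1 ≤ U L^(-2-3η/4) + 1` for large `n`, so
`l D ≤ L^(-η/4) + L^(2+η/2-σ)`, a negative power of `L` since `σ > 2 + η`.  The hypotheses of TAIL: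
`4 l D ≤ 1`; `2 l (MM p / MM z) (U / p + 1) ≤ 2 l U (2C (1 + log w) / (w L)) + 2 l ≤ 1` (`(1 + log p)/p` is
decreasing, `MM p ≤ MM z`).  `4 l² D (MM w / MM z) U = 4 (l D) (MM w / MM z) (l U) ≤
4 (l D) (2 C (1 + log w) / L) L^(2+η/2) ≤ (ε/2) L^(1+η/2)` for large `n`.  So the probability is
`≤ 2 exp (-(ε/2) L^(1+η/2))` for each `(U, z)`, and `≤ 2 (n + 1) (n² + 1) exp (-(ε/2) L^(1+η/2)) ≤ n⁻²` for all
pairs `(U, z)` together; Borel-Cantelli (`measure_limsup_atTop_eq_zero` / `ae_eventually_notMem`). -/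
def S_CON : Prop := ∀ (Ω : Type) [MeasurableSpace Ω] (P : Measure Ω) (a : ℕ → Ω → ℕ), Model P a →
  ∀ᵐ ω ∂P, Con (fun q => a q ω)

/-! ## Deterministic facts on the sieve -/

/-- CRT (about 80 lines).  (1) Choose `N` with `N + a p ≡ 0 (mod p)` for all primes `p ≤ w` (Chinese
remainder theorem, e.g. `Nat.chineseRemainderOfFinset` or `Nat.exists_... `): `m ≡ a p ⟺ p ∣ m + N`.
(2) Choose `n ∈ [X, 2X]` with `n + N ≡ t (mod ∏_{p ≤ w} p)`: the residue class has an element in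
`[X, X + primorial w)`. -/
def S_CRT : Prop := (∀ (a : ℕ → ℕ) (w : ℕ), ∃ N : ℕ, ∀ n U : ℕ, sv a w n U = sv (fun _ => 0) w (n + N) U) ∧
  (∀ (a : ℕ → ℕ) (w t X : ℕ), primorial w ≤ X → ∃ n : ℕ, X ≤ n ∧ n ≤ 2 * X ∧
    ∀ U : ℕ, sv a w n U = sv (fun _ => 0) w t U)

/-- BT (about 50 lines; uses CRT, FUND).  Upper bound sieve.
Proof: FUND with `ε = 1` for `v ≥ w0`, and `C = 2 + MM w0` for `v < w0` (`sv ≤ U`, `MM` is
nondecreasing). -/
def S_BT : Prop := ∃ (C : ℝ) (s0 : ℕ), 0 < C ∧ 1 ≤ s0 ∧ ∀ (a : ℕ → ℕ) (v n U : ℕ),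
  ((v : ℝ) + 1) ^ s0 ≤ U → (sv a v n U : ℝ) ≤ C * (U / MM v)

open Classical in
/-- AP (about 100 lines; uses BT).  The survivors of level `v` in a residue class modulo a prime
`p > v`.  Proof: the `k < U` with `(n + k + 1) % p = r` are `k = k0 + p j`, `j < J ≤ U / p + 1`; for a
prime `q ≤ v` the condition `n + k0 + 1 + p j ≢ a q (mod q)` is `j + 1 ≢ a' q (mod q)` for a suitable
`a' q` because `p` is invertible modulo `q`.  So the number is `≤ sv a' v 0 (U / p + 1)`, and BT applies. -/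
def S_AP : Prop := ∃ (C : ℝ) (s0 : ℕ), 0 < C ∧ 1 ≤ s0 ∧ ∀ (a : ℕ → ℕ) (v n U p r : ℕ), p.Prime → v < p →
  ((v : ℝ) + 1) ^ s0 ≤ (U / p : ℕ) →
  ((Finset.card (Finset.filter (fun k => (∀ q : ℕ, q.Prime → q ≤ v → (n + k + 1) % q ≠ a q % q) ∧
    (n + k + 1) % p = r) (Finset.range U)) : ℕ) : ℝ) ≤ C * (((U / p : ℕ) + 1) / MM v)

/-- TRANS (about 200 lines; uses AP, BT, MERT).  The density of the survivors hardly changes between
the levels `w^(1-η)` and `w^(1+η)`.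
Proof.  Let `κ > 0` with `κ s0 ≤ 1/4`, `y = ⌊w^κ⌋`, so `(y + 1)^s0 ≤ w^(1/3) ≤ U / p` for `p ≤ w^(3/2)`
(`U / p ≥ w^(1/2) / 2 - 1`), `w` large.
`sv a v n U - sv a v' n U ≤ ∑_{v < p ≤ v'} #{survivors of level y which are ≡ a p (mod p)} ≤
∑_{v < p ≤ v'} C (U / p + 1) / MM y ≤ C (U / MM y) (∑_{v<p≤v'} 1/p + v' / U)`, and
`sv a v' n U ≤ sv a y n U ≤ C U / MM y`.  Hence the difference of the densities is at most
`(sv_v - sv_v') MM v / U + sv_v' (MM v' - MM v) / U ≤ (C MM v / MM y) (∑ 1/p + v'/U + MM v' / MM v - 1)`.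
`MM v / MM y` is bounded (MERT: it is at most `MM ⌊w^2⌋ / MM y → 2/κ`), `MM v' / MM v ≤
MM ⌊w^(1+η)⌋ / MM ⌈w^(1-η)⌉ → (1+η)/(1-η) ≤ 1 + 4η`, so it is `≤ 1 + 5η` for large `w`, and
`∑_{v<p≤v'} 1/p ≤ log (MM v' / MM v) ≤ 5η` (`1/p ≤ -log (1 - 1/p)`).  The constant `C` of the
statement does not depend on `η`. -/
def S_TRANS : Prop := ∃ C : ℝ, 0 < C ∧ ∀ η : ℝ, 0 < η → η ≤ 1 / 2 → ∀ᶠ w : ℕ in atTop,
  ∀ (a : ℕ → ℕ) (v v' n U : ℕ), (w : ℝ) ^ (1 - η) ≤ v → v ≤ v' → (v' : ℝ) ≤ (w : ℝ) ^ (1 + η) →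
    (w : ℝ) ^ 2 / 2 ≤ U → |(sv a v n U : ℝ) * (MM v / U) - sv a v' n U * (MM v' / U)| ≤ C * η

/-- SUB (about 100 lines; uses BT, MERT).  The density changes little if the interval is slightly
prolonged, and it is bounded.
Proof.  `sv a v n U' - sv a v n U = sv a v (n + U) (U' - U) ≤ sv a y (n + U) ⌈δ U⌉` for `y = ⌊w^κ⌋ ≤ v`
(`κ s0 ≤ 1/2`, so `(y + 1)^s0 ≤ δ U` for large `w`; `sv` is nondecreasing in `U` and nonincreasing in the level), which is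
`≤ C (δ U + 1) / MM y`, and `MM v / MM y` is bounded for `v ≤ w²` by MERT. -/
def S_SUB : Prop := ∃ C : ℝ, 0 < C ∧ ∀ δ : ℝ, 0 < δ → δ ≤ 1 → ∀ᶠ w : ℕ in atTop,
  ∀ (a : ℕ → ℕ) (v n U U' : ℕ), Real.sqrt w ≤ v → (v : ℝ) ≤ (w : ℝ) ^ 2 → (w : ℝ) ^ 2 / 2 ≤ U →
    U ≤ U' → (U' : ℝ) ≤ (1 + δ) * U →
    ((sv a v n U' : ℝ) - sv a v n U) * (MM v / U) ≤ C * δ ∧ (sv a v n U : ℝ) * (MM v / U) ≤ C

/-- the random set of Banks, Ford and Tao -/
def Rset (a : ℕ → ℕ) (z : ℕ → ℕ) : Set ℕ := {m | ∀ p : ℕ, p.Prime → p ≤ z m → m % p ≠ a p % p}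

/-- `R_{(log x)^s}(x)` for a set `S` in place of the primes -/
noncomputable def RR (S : Set ℕ) (s x : ℝ) : ℝ :=
  Real.log x / Real.log x ^ s * (Set.ncard {m : ℕ | m ∈ S ∧ x < m ∧ (m : ℝ) ≤ x + Real.log x ^ s} : ℝ)

/-- the normalised number of the survivors of level `log x` in `(x, x + (log x)^s]` -/
noncomputable def dens (a : ℕ → ℕ) (s x : ℝ) : ℝ :=
  (sv a ⌊Real.log x⌋₊ ⌊x⌋₊ ⌊Real.log x ^ s⌋₊ : ℝ) * MM ⌊Real.log x⌋₊ / Real.log x ^ s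

/-- MAIN (about 250 lines; uses TRANS, SUB, MERT).  Deterministic: if `a` has the property `Con`, the
densities of `Rset a z` are those of the survivors of level `log x`.
Proof.  Fix `s > 2`, `k` large (`2 + 1/k < s`, `η = 1/k`), `x` large, `n = ⌊x⌋`, `L = log n` (so
`0 ≤ log x - L ≤ 1/n`), `U₁ = ⌊L^s⌋`, `U₂ = ⌈(log (n + 1))^s⌉ + 1`.  Then
`(n, n + U₁] ⊆ (x, x + (log x)^s] ⊆ (n, n + U₂]` (integers), `U₁ ≤ U₂ ≤ (1 + δ) U₁`.  Since `z` is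
nondecreasing, the number of elements of `Rset a z` in the window is `≥ sv a (z (n + U₁)) n U₁` and
`≤ sv a (z n) n U₂`.  `MM (z (n + U₁)) / L → 1` and `MM (z n) / L → 1`; by `Con` both are
`sv a w n U_i MM w / L + O(δ) U_i / L` with `w = lv k n` up to factors `1 + δ` (the quantity
`sv a w n U MM w / U` is bounded by SUB), where `w` lies between
`⌊L⌋` and `⌊L⌋^(1+2η)`.  By TRANS (with `⌊L⌋` for `w`, `2η` for `η`) the density
`sv a w n U MM w / U` differs from the one at level `⌊log x⌋` by at most `2 C η`, and by SUB replacing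
`U₁`, `U₂` by `⌊(log x)^s⌋` changes it by `O(δ)`.  Finally `η = 1/k` and `δ` are arbitrary. -/
def S_MAIN : Prop := ∀ (a z : ℕ → ℕ), Monotone z → Tendsto (fun n : ℕ => MM (z n) / Real.log n) atTop (𝓝 1) →
  Con a → ∀ s : ℝ, 2 < s → ∀ ε : ℝ, 0 < ε → ∀ᶠ x : ℝ in atTop, |RR (Rset a z) s x - dens a s x| ≤ ε

/-- the sparsest interval of length `w^s` for the sieve of level `w` -/
noncomputable def lo (w : ℕ) (s : ℝ) : ℝ :=
  ⨅ t : ℕ, (sv (fun _ => 0) w t ⌊(w : ℝ) ^ s⌋₊ : ℝ) * MM w / (w : ℝ) ^ s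

/-- the densest interval of length `w^s` for the sieve of level `w` -/
noncomputable def hi (w : ℕ) (s : ℝ) : ℝ :=
  ⨆ t : ℕ, (sv (fun _ => 0) w t ⌊(w : ℝ) ^ s⌋₊ : ℝ) * MM w / (w : ℝ) ^ s

/-- EXTA (about 100 lines; uses CRT, SUB).
Proof: `w = ⌊log x⌋`, by CRT (1) `sv a w ⌊x⌋ U = sv 0 w t U` for some `t`; `⌊w^s⌋ ≤ U = ⌊(log x)^s⌋ ≤ (1 + δ) ⌊w^s⌋`
for large `x`; SUB, `ciInf_le`, `le_ciSup` (the values lie between `0` and `⌊w^s⌋ MM w / w^s`). -/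
def S_EXTA : Prop := ∀ (a : ℕ → ℕ) (s ε : ℝ), 2 < s → 0 < ε → ∀ᶠ x : ℝ in atTop,
  lo ⌊Real.log x⌋₊ s - ε ≤ dens a s x ∧ dens a s x ≤ hi ⌊Real.log x⌋₊ s + ε

/-- EXTB (about 150 lines; uses CRT, TRANS, SUB).
Proof.  Let `t` be such that `sv 0 w t ⌊w^s⌋ MM w / w^s ≤ lo w s + ε/4` (resp. `≥ hi w s - ε/4`), and
`v = ⌊(w + 1) / 2⌋`; `primorial v ≤ 4^v ≤ 2^(w+1) ≤ X = ⌈exp w⌉` for large `w`.  CRT (2) gives `n ∈ [X, 2X]` with
`sv a v n U = sv 0 v t U` for all `U`.  Take `x = n`: `w ≤ log x < w + 1` (`2 X ≤ exp (w + 1) - 1`), so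
`⌊log x⌋ = w`.  By TRANS (for `a` at `n` and for `0` at `t`; levels `v ≤ w`, `v ≥ w^(1-η)`) and SUB
(`⌊w^s⌋ ≤ ⌊(log x)^s⌋ ≤ (1 + δ) ⌊w^s⌋`) `dens a s x` differs from `sv 0 w t ⌊w^s⌋ MM w / w^s` by at
most `2 C η + O(δ)`. -/
def S_EXTB : Prop := ∀ (a : ℕ → ℕ) (s ε : ℝ), 2 < s → 0 < ε → ∀ᶠ w : ℕ in atTop,
  (∃ x : ℝ, ⌊Real.log x⌋₊ = w ∧ Real.exp w ≤ x ∧ dens a s x ≤ lo w s + ε) ∧
  (∃ x : ℝ, ⌊Real.log x⌋₊ = w ∧ Real.exp w ≤ x ∧ hi w s - ε ≤ dens a s x)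

/-- SIGA (about 120 lines; uses SUB for the bound `hi w s ≤ 2 C`).  Monotonicity in `s`: an interval of length
`⌊w^s'⌋` contains `⌊⌊w^s'⌋ / ⌊w^s⌋⌋ = K` disjoint intervals of length `⌊w^s⌋` and is covered by `K + 1` of
them; `K ⌊w^s⌋ / w^s' → 1` if `s < s'` (the case `s = s'` is trivial). -/
def S_SIGA : Prop := ∀ s s' ε : ℝ, 2 < s → s ≤ s' → 0 < ε → ∀ᶠ w : ℕ in atTop,
  lo w s ≤ lo w s' + ε ∧ hi w s' ≤ hi w s + ε

/-- SIGC (about 60 lines; uses FUND). -/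
def S_SIGC : Prop := ∀ ε : ℝ, 0 < ε → ∃ s1 : ℝ, ∀ s : ℝ, s1 ≤ s → ∀ᶠ w : ℕ in atTop,
  1 - ε ≤ lo w s ∧ hi w s ≤ 1 + ε

/-- GRA (about 200 lines; uses TRANS, SUB, MERT).  Deterministic part for Granville's model: if the
number of elements of `S` in `(n, n + U]` is asymptotically at least (at most)
`(MM (z (3 n)) / log n) sv 0 (z (3 n)) n U` (`(MM (z n) / log n) sv 0 (z n) n U`), where
`log (z n) / log log n → 1`, the densities of `S` are those of the survivors of level `log x`.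
Proof: as MAIN, with `TRANS` between the levels `z n`, `z (3 n)` and `⌊log x⌋` (all are
`⌊log x⌋^(1 ± η)` for large `x`, for every `η > 0`). -/
def S_GRA : Prop := ∀ (S : Set ℕ) (z : ℕ → ℕ), Monotone z →
  Tendsto (fun n : ℕ => Real.log (z n) / Real.log (Real.log n)) atTop (𝓝 1) →
  (∀ δ : ℝ, 0 < δ → ∃ C : ℝ, ∀ᶠ n : ℕ in atTop, ∀ U : ℕ, U ≤ n →
    (1 - δ) * (MM (z (3 * n)) / Real.log n * sv (fun _ => 0) (z (3 * n)) n U) - C * Real.log n ≤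
      (Set.ncard {m : ℕ | m ∈ S ∧ n < m ∧ m ≤ n + U} : ℝ) ∧
    (Set.ncard {m : ℕ | m ∈ S ∧ n < m ∧ m ≤ n + U} : ℝ) ≤
      (1 + δ) * (MM (z n) / Real.log n * sv (fun _ => 0) (z n) n U) + C * Real.log n) →
  ∀ s : ℝ, 2 < s → ∀ ε : ℝ, 0 < ε → ∀ᶠ x : ℝ in atTop, |RR S s x - dens (fun _ => 0) s x| ≤ ε

/-- LIM (about 120 lines; uses EXTA, EXTB).  From densities to limits. -/
def S_LIM : Prop := ∀ (S : Set ℕ) (a : ℕ → ℕ) (s : ℝ), 2 < s →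
  (∀ ε : ℝ, 0 < ε → ∀ᶠ x : ℝ in atTop, |RR S s x - dens a s x| ≤ ε) →
  liminf (fun x : ℝ => ENNReal.ofReal (RR S s x)) atTop = liminf (fun w : ℕ => ENNReal.ofReal (lo w s)) atTop ∧
  limsup (fun x : ℝ => ENNReal.ofReal (RR S s x)) atTop = limsup (fun w : ℕ => ENNReal.ofReal (hi w s)) atTop

end Pool.Agent.H50.BF
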