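import Pool.Agent.H50.BF.MMB

/-! # BF-TAIL (helper56) -/

set_option autoImplicit false

open MeasureTheory Filter
open scoped Topology ENNReal

namespace Pool.Agent.H50.BF

lemma markov_exp {Ω : Type} [MeasurableSpace Ω] {P : Measure Ω} [IsProbabilityMeasure P]
    {f : Ω → ℝ} {c : ℝ} {A : Set Ω} (hi : Integrable (fun ω => Real.exp (f ω)) P)
    (h1 : ∫ ω, Real.exp (f ω) ∂P ≤ 1) (hA : ∀ ω ∈ A, c ≤ f ω) :
    P A ≤ ENNReal.ofReal (Real.exp (-c)) := by
  have h2 := mul_meas_ge_le_integral_of_nonneg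
    (Eventually.of_forall fun ω => (Real.exp_pos (f ω)).le) hi (Real.exp c)
  have h3 : P.real {ω | Real.exp c ≤ Real.exp (f ω)} ≤ Real.exp (-c) := by
    rw [Real.exp_neg, ← one_div, le_div_iff₀ (Real.exp_pos c)]
    linarith
  have h4 : P A ≤ P {ω | Real.exp c ≤ Real.exp (f ω)} :=
    measure_mono fun ω hω => Real.exp_le_exp.mpr (hA ω hω)
  refine h4.trans ?_
  rw [← ENNReal.ofReal_toReal (measure_ne_top P {ω | Real.exp c ≤ Real.exp (f ω)})]
  exact ENNReal.ofReal_le_ofReal h3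

theorem tail : S_MGF → S_TAIL := by
  intro hM Ω _ P a H n U w z l T hl hwz hD hB
  have := model_prob H
  obtain ⟨⟨i1, e1⟩, ⟨i2, e2⟩⟩ := hM Ω P a H n U w z l hl hwz hD hB
  obtain ⟨r, hr⟩ : ∃ r, r = MM w / MM z := ⟨_, rfl⟩
  have hr0 : 0 ≤ r := by rw [hr]; exact (div_pos (MM_pos w) (MM_pos z)).le
  obtain ⟨D, hDd⟩ : ∃ D, D = DD w z U := ⟨_, rfl⟩
  have hD0 : 0 ≤ D := by rw [hDd]; exact DD_nonneg _ _ _
  rw [← hr, ← hDd] at i1 e1 i2 e2 ⊢
  obtain ⟨c, hc⟩ : ∃ c, c = l * T - 4 * l ^ 2 * D * r * U := ⟨_, rfl⟩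
  have hY : ∀ ω, (sv (fun q => a q ω) w n U : ℝ) ≤ U := fun ω => by exact_mod_cast sv_le _ _ _ _
  have hE : ∀ y : ℝ, y ≤ U → 4 * l ^ 2 * D * r * y ≤ 4 * l ^ 2 * D * r * U := fun y hy =>
    mul_le_mul_of_nonneg_left hy (by positivity)
  have h1 := markov_exp (c := c)
    (A := {ω | T < (sv (fun q => a q ω) z n U : ℝ) - sv (fun q => a q ω) w n U * r}) i1 e1 (by
      intro ω hω
      have h2 : T < (sv (fun q => a q ω) z n U : ℝ) - sv (fun q => a q ω) w n U * r := hω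
      have h3 := hE _ (hY ω)
      have h4 := mul_le_mul_of_nonneg_left h2.le hl
      rw [hc]
      linarith)
  have h2 := markov_exp (c := c)
    (A := {ω | T < -((sv (fun q => a q ω) z n U : ℝ) - sv (fun q => a q ω) w n U * r)}) i2 e2 (by
      intro ω hω
      have h2 : T < -((sv (fun q => a q ω) z n U : ℝ) - sv (fun q => a q ω) w n U * r) := hω
      have h3 := hE _ (hY ω)
      have h4 := mul_le_mul_of_nonneg_left h2.le hl
      rw [hc]
      linarith)
  have h3 : {ω | T < |(sv (fun q => a q ω) z n U : ℝ) - sv (fun q => a q ω) w n U * r|} ⊆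
      {ω | T < (sv (fun q => a q ω) z n U : ℝ) - sv (fun q => a q ω) w n U * r} ∪
      {ω | T < -((sv (fun q => a q ω) z n U : ℝ) - sv (fun q => a q ω) w n U * r)} := by
    intro ω hω
    have h4 : T < |(sv (fun q => a q ω) z n U : ℝ) - sv (fun q => a q ω) w n U * r| := hω
    exact lt_abs.mp h4
  refine (measure_mono h3).trans ((measure_union_le _ _).trans ?_)
  refine (add_le_add h1 h2).trans ?_
  rw [← ENNReal.ofReal_add (Real.exp_pos _).le (Real.exp_pos _).le]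
  apply ENNReal.ofReal_le_ofReal
  have h4 : -c = -(l * T) + 4 * l ^ 2 * D * r * U := by rw [hc]; ring
  rw [h4]
  linarith

end Pool.Agent.H50.BF
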